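import Pool.Agent.Lib.MP_69b2e4_nt.GH.Defs

/-! Elementary facts about the characters and the random model (all proved). -/

set_option autoImplicit false

namespace Pool.Agent.GH

open Complex MeasureTheory Finset
open scoped Real ComplexConjugate

theorem norm_X (p : ℕ) (w : Om) : ‖X p w‖ = 1 := Circle.norm_coe _

theorem continuous_X (p : ℕ) : Continuous (X p) := by
  unfold X
  exact continuous_subtype_val.comp (AddCircle.continuous_toCircle.comp (continuous_apply p))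

theorem XX_apply (w : Om) {n : ℕ} (hn : n ≠ 0) :
    XX w n = n.factorization.prod fun p k => X p w ^ k := by
  change (if n = 0 then 0 else _) = _
  rw [if_neg hn]

theorem XX_prime (w : Om) {p : ℕ} (hp : p.Prime) : XX w p = X p w := by
  rw [XX_apply w hp.ne_zero, hp.factorization]
  simp

theorem norm_XX (w : Om) {n : ℕ} (hn : n ≠ 0) : ‖XX w n‖ = 1 := by
  rw [XX_apply w hn, Finsupp.prod, norm_prod]
  refine Finset.prod_eq_one fun p _ => ?_
  rw [norm_pow, norm_X, one_pow]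

theorem continuous_XX (n : ℕ) : Continuous fun w => XX w n := by
  rcases eq_or_ne n 0 with rfl | hn
  · simp only [map_zero]; exact continuous_const
  · have h : (fun w => XX w n) = fun w => n.factorization.prod fun p k => X p w ^ k := by
      funext w; exact XX_apply w hn
    rw [h]
    unfold Finsupp.prod
    exact continuous_finsetProd _ fun p _ => (continuous_X p).pow _

theorem nC_apply (s : ℂ) {n : ℕ} (hn : n ≠ 0) : nC s n = (n : ℂ) ^ (-s) := by
  change (if n = 0 then 0 else _) = _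
  rw [if_neg hn]

theorem norm_nC (s : ℂ) {n : ℕ} (hn : n ≠ 0) : ‖nC s n‖ = (n : ℝ) ^ (-s.re) := by
  rw [nC_apply s hn, Complex.norm_natCast_cpow_of_pos (Nat.pos_of_ne_zero hn)]
  simp

theorem nX_apply (z : ℂ) (w : Om) {n : ℕ} (hn : n ≠ 0) :
    nX z w n = (n : ℂ) ^ (-(1 / 2 + z)) * XX w n := by
  change nC (1 / 2 + z) n * XX w n = _
  rw [nC_apply _ hn]

theorem norm_nX (z : ℂ) (w : Om) {n : ℕ} (hn : n ≠ 0) :
    ‖nX z w n‖ = (n : ℝ) ^ (-(1 / 2 + z.re)) := by
  rw [nX_apply z w hn, norm_mul, norm_XX w hn, mul_one,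
    Complex.norm_natCast_cpow_of_pos (Nat.pos_of_ne_zero hn)]
  simp

theorem continuous_nX (z : ℂ) (n : ℕ) : Continuous fun w => nX z w n := by
  rcases eq_or_ne n 0 with rfl | hn
  · simp only [map_zero]; exact continuous_const
  · have h : (fun w => nX z w n) = fun w => (n : ℂ) ^ (-(1 / 2 + z)) * XX w n := by
      funext w; exact nX_apply z w hn
    rw [h]
    exact continuous_const.mul (continuous_XX n)

theorem continuous_PX (R : Finset ℕ) (z : ℂ) : Continuous (PX R z) := by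
  unfold PX PS
  exact continuous_finsetSum _ fun p _ => continuous_nX z p

theorem PX_eq (R : Finset ℕ) (hR : ∀ p ∈ R, p.Prime) (z : ℂ) (w : Om) :
    PX R z w = ∑ p ∈ R, (p : ℂ) ^ (-(1 / 2 + z)) * X p w := by
  unfold PX PS
  refine Finset.sum_congr rfl fun p hp => ?_
  rw [nX_apply z w (hR p hp).ne_zero, XX_prime w (hR p hp)]

theorem rpow_neg_lt_one {p : ℕ} (hp : 2 ≤ p) {σ : ℝ} (hσ : 0 < σ) : (p : ℝ) ^ (-σ) < 1 := by
  have h1 : (1 : ℝ) < p := by exact_mod_cast hp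
  exact Real.rpow_lt_one_of_one_lt_of_neg h1 (by linarith)

theorem Zt_factor_ne_zero {p : ℕ} (hp : 2 ≤ p) {σ : ℝ} (hσ : 0 < σ) (w : Om) :
    (1 - (((p : ℝ) ^ (-σ) : ℝ) : ℂ) * X p w) ≠ 0 := by
  intro h
  have h1 : ‖(((p : ℝ) ^ (-σ) : ℝ) : ℂ) * X p w‖ = 1 := by
    have : (((p : ℝ) ^ (-σ) : ℝ) : ℂ) * X p w = 1 := by linear_combination -h
    rw [this]; simp
  rw [norm_mul, norm_X, mul_one, Complex.norm_real, Real.norm_of_nonneg (by positivity)] at h1
  exact absurd h1 (ne_of_lt (rpow_neg_lt_one hp hσ))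

theorem continuous_Zt (R : Finset ℕ) (hR : ∀ p ∈ R, p.Prime) {σ : ℝ} (hσ : 0 < σ) :
    Continuous (Zt R σ) := by
  unfold Zt
  refine continuous_finsetProd _ fun p hp => ?_
  refine Continuous.inv₀ ?_ fun w => Zt_factor_ne_zero (hR p hp).two_le hσ w
  exact continuous_const.sub (continuous_const.mul (continuous_X p))

theorem continuous_Ex (l : ℕ) : Continuous (Ex l) := by
  unfold Ex
  fun_prop

/-- a continuous function on the sample space is integrable -/
theorem integrable_of_continuous {E : Type*} [NormedAddCommGroup E] {f : Om → E}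
    (hf : Continuous f) : Integrable f mu :=
  hf.integrable_of_hasCompactSupport (HasCompactSupport.of_compactSpace f)

theorem exists_bound_of_continuous {E : Type*} [NormedAddCommGroup E] {f : Om → E}
    (hf : Continuous f) : ∃ C : ℝ, ∀ w, ‖f w‖ ≤ C := by
  obtain ⟨C, hC⟩ := isCompact_univ.exists_bound_of_continuousOn hf.continuousOn
  exact ⟨C, fun w => hC w (Set.mem_univ _)⟩

/-- Dirichlet polynomials evaluated at the random character are continuous. -/
theorem continuous_dp {S : Set ℕ} {Q B : ℝ} {f : (ℕ →*₀ ℂ) → ℂ} (hf : IsDP S Q B f) (z : ℂ) :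
    Continuous fun w => f (nX z w) := by
  obtain ⟨F, a, -, -, h⟩ := hf
  have h1 : (fun w => f (nX z w)) = fun w => ∑ n ∈ F, (a n : ℂ) * nX z w n := by
    funext w; exact h _
  rw [h1]
  exact continuous_finsetSum _ fun n _ => continuous_const.mul (continuous_nX z n)

/-! ### Closure properties of `IsDP` -/

theorem isDP_one (S : Set ℕ) (hS : 1 ∈ S) : IsDP S 1 1 (fun _ => 1) := by
  refine ⟨{1}, fun _ => 1, ?_, by simp, fun χ => by simp⟩
  intro n hn
  rw [Finset.mem_singleton] at hn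
  subst hn
  exact ⟨one_ne_zero, hS, by simp⟩

theorem IsDP.mono {S S' : Set ℕ} {Q Q' B B' : ℝ} {f : (ℕ →*₀ ℂ) → ℂ} (hf : IsDP S Q B f)
    (hS : S ⊆ S') (hQ : Q ≤ Q') (hB : B ≤ B') : IsDP S' Q' B' f := by
  obtain ⟨F, a, h1, h2, h3⟩ := hf
  exact ⟨F, a, fun n hn => ⟨(h1 n hn).1, hS (h1 n hn).2.1, (h1 n hn).2.2.trans hQ⟩,
    h2.trans hB, h3⟩

theorem IsDP.mul {S : Set ℕ} (hS : ∀ m ∈ S, ∀ n ∈ S, m * n ∈ S) {Q Q' B B' : ℝ}
    {f g : (ℕ →*₀ ℂ) → ℂ} (hf : IsDP S Q B f) (hg : IsDP S Q' B' g) (hQ : 0 ≤ Q) (hB : 0 ≤ B) :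
    IsDP S (Q * Q') (B * B') (fun χ => f χ * g χ) := by
  classical
  obtain ⟨F, a, h1, h2, h3⟩ := hf
  obtain ⟨G, b, g1, g2, g3⟩ := hg
  refine ⟨(F ×ˢ G).image fun q => q.1 * q.2,
    fun n => ∑ q ∈ (F ×ˢ G).filter (fun q => q.1 * q.2 = n), a q.1 * b q.2, ?_, ?_, ?_⟩
  · intro n hn
    obtain ⟨q, hq, rfl⟩ := Finset.mem_image.mp hn
    obtain ⟨hq1, hq2⟩ := Finset.mem_product.mp hq
    refine ⟨mul_ne_zero (h1 _ hq1).1 (g1 _ hq2).1, hS _ (h1 _ hq1).2.1 _ (g1 _ hq2).2.1, ?_⟩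
    push_cast
    exact mul_le_mul (h1 _ hq1).2.2 (g1 _ hq2).2.2 (Nat.cast_nonneg _) hQ
  · calc ∑ n ∈ (F ×ˢ G).image (fun q => q.1 * q.2),
          |∑ q ∈ (F ×ˢ G).filter (fun q => q.1 * q.2 = n), a q.1 * b q.2|
        ≤ ∑ n ∈ (F ×ˢ G).image (fun q => q.1 * q.2),
          ∑ q ∈ (F ×ˢ G).filter (fun q => q.1 * q.2 = n), |a q.1 * b q.2| :=
          Finset.sum_le_sum fun n _ => Finset.abs_sum_le_sum_abs _ _
      _ = ∑ q ∈ F ×ˢ G, |a q.1 * b q.2| :=
          Finset.sum_fiberwise_of_maps_to (fun q hq => Finset.mem_image_of_mem _ hq) _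
      _ = (∑ n ∈ F, |a n|) * ∑ n ∈ G, |b n| := by
          rw [Finset.sum_product, Finset.sum_mul_sum]
          simp_rw [abs_mul]
      _ ≤ B * B' := mul_le_mul h2 g2 (Finset.sum_nonneg fun _ _ => abs_nonneg _) hB
  · intro χ
    beta_reduce
    rw [h3, g3, Finset.sum_mul_sum, ← Finset.sum_product']
    rw [← Finset.sum_fiberwise_of_maps_to (t := (F ×ˢ G).image fun q => q.1 * q.2)
      (g := fun q => q.1 * q.2) (fun q hq => Finset.mem_image_of_mem _ hq)]
    refine Finset.sum_congr rfl fun n _ => ?_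
    push_cast
    rw [Finset.sum_mul]
    refine Finset.sum_congr rfl fun q hq => ?_
    rw [← (Finset.mem_filter.mp hq).2, map_mul]
    ring

theorem smooth_mul {M : ℕ} : ∀ m ∈ Nat.smoothNumbers M, ∀ n ∈ Nat.smoothNumbers M,
    m * n ∈ Nat.smoothNumbers M := fun _ hm _ hn => Nat.mul_mem_smoothNumbers hm hn

end Pool.Agent.GH
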