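import Mathlib

/-! Definitions for the lower bound of negative discrete moments of the zeta function.
Conventions: smooth means `n ∈ Nat.smoothNumbers M` (all prime factors `< M`, `n ≠ 0`),
`Rough M r` means `r ≠ 0` and all prime factors `≥ M`. -/

set_option autoImplicit false

namespace Pool.Agent.GH

open Complex MeasureTheory Finset
open scoped Real ComplexConjugate

/-! ### The random model -/

/-- The universal sample space: one angle for every natural number. -/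
abbrev Om := ℕ → UnitAddCircle

/-- The product of the Haar probability measures. -/
noncomputable def mu : Measure Om :=
  Measure.infinitePi (fun _ : ℕ => (AddCircle.haarAddCircle : Measure UnitAddCircle))

instance : IsProbabilityMeasure mu := by unfold mu; infer_instance

/-- The `p`-th random unit complex number. -/
noncomputable def X (p : ℕ) (w : Om) : ℂ := (AddCircle.toCircle (w p) : ℂ)

/-- The completely multiplicative random function `X_n`. -/
noncomputable def XX (w : Om) : ℕ →*₀ ℂ where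
  toFun n := if n = 0 then 0 else n.factorization.prod fun p k => X p w ^ k
  map_zero' := by simp
  map_one' := by simp
  map_mul' m n := by
    rcases eq_or_ne m 0 with rfl | hm
    · simp
    rcases eq_or_ne n 0 with rfl | hn
    · simp
    simp only [hm, hn, mul_eq_zero, or_self, if_false]
    rw [Nat.factorization_mul hm hn, Finsupp.prod_add_index']
    · intro p; simp
    · intro p a b; exact pow_add _ _ _

/-- The character `n ^ (-s)`. -/
noncomputable def nC (s : ℂ) : ℕ →*₀ ℂ where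
  toFun n := if n = 0 then 0 else (n : ℂ) ^ (-s)
  map_zero' := by simp
  map_one' := by simp
  map_mul' m n := by
    rcases eq_or_ne m 0 with rfl | hm
    · simp
    rcases eq_or_ne n 0 with rfl | hn
    · simp
    simp only [hm, hn, mul_eq_zero, or_self, if_false]
    rw [Nat.cast_mul, Complex.natCast_mul_natCast_cpow]

/-- The random character `n ^ (-(1/2+z)) X_n`. -/
noncomputable def nX (z : ℂ) (w : Om) : ℕ →*₀ ℂ := nC (1 / 2 + z) * XX w

/-- The truncated exponential. -/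
noncomputable def Ex (l : ℕ) (x : ℂ) : ℂ := ∑ i ∈ Finset.range (l + 1), x ^ i / (i.factorial : ℂ)

/-- The sum of a character over a finite set (of primes). -/
noncomputable def PS (R : Finset ℕ) (χ : ℕ →*₀ ℂ) : ℂ := ∑ p ∈ R, χ p

/-- The random prime polynomial `sum over R of p^{-1/2-z} X_p`. -/
noncomputable def PX (R : Finset ℕ) (z : ℂ) (w : Om) : ℂ := PS R (nX z w)

/-- The Euler product over a finite set of primes, at the real point `σ`. -/
noncomputable def Zt (R : Finset ℕ) (σ : ℝ) (w : Om) : ℂ :=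
  ∏ p ∈ R, (1 - (((p : ℝ) ^ (-σ) : ℝ) : ℂ) * X p w)⁻¹

/-- The sum of the reciprocals. -/
noncomputable def sR (R : Finset ℕ) : ℝ := ∑ p ∈ R, (1 : ℝ) / p

/-- The error sum. -/
noncomputable def eR (R : Finset ℕ) (δ : ℝ) : ℝ :=
  ∑ p ∈ R, ((p : ℝ) ^ (-(3 / 2 : ℝ)) + δ * (Real.log p / p))

/-- Dirichlet polynomials with real coefficients, as functions of the character: the support lies
in the set `S` and in `[1,Q]`, the sum of the absolute values of the coefficients is at most `B`. -/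
def IsDP (S : Set ℕ) (Q B : ℝ) (f : (ℕ →*₀ ℂ) → ℂ) : Prop :=
  ∃ (F : Finset ℕ) (a : ℕ → ℝ), (∀ n ∈ F, n ≠ 0 ∧ n ∈ S ∧ (n : ℝ) ≤ Q) ∧ ∑ n ∈ F, |a n| ≤ B ∧
    ∀ χ, f χ = ∑ n ∈ F, (a n : ℂ) * χ n

/-- `r` has no prime factor below `M`. -/
def Rough (M r : ℕ) : Prop := r ≠ 0 ∧ ∀ p : ℕ, p.Prime → p ∣ r → M ≤ p

/-- The quadratic form of the function-level mean value theorems. -/
noncomputable def BF (M : ℕ) (f : (ℕ →*₀ ℂ) → ℂ) (σ : ℝ) (z : ℂ) : ℝ :=
  ∫ w, ‖Zt (Nat.primesBelow M) σ w‖ ^ 2 * ‖f (nX (-z) w)‖ ^ 2 * ‖f (nX (conj z) w)‖ ^ 2 ∂mu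

/-! ### The rotated theta function -/

/-- Half of the theta series without its constant term. -/
noncomputable def th (z : ℂ) : ℂ := ∑' n : ℕ, cexp (-π * ((n : ℂ) + 1) ^ 2 * z)

/-- The angle `π/2 - 1/T`. -/
noncomputable def ang (T : ℝ) : ℝ := π / 2 - 1 / T

/-- The rotated direction. -/
noncomputable def om (T : ℝ) : ℂ := cexp (ang T * I)

/-- `om ^ (-1/2)`. -/
noncomputable def omh (T : ℝ) : ℂ := cexp (-(ang T / 2) * I)

/-- The function whose Fourier transform is the rotated completed zeta function. -/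
noncomputable def gg (T y : ℝ) : ℂ :=
  2 * (Real.exp (y / 2) : ℂ) * th ((Real.exp (2 * y) : ℂ) * om T) - (Real.exp (-y / 2) : ℂ) * omh T

/-- The rotated completed zeta function on the line `Re s = 1/2 + a`. -/
noncomputable def xi (T a t : ℝ) : ℂ :=
  (Real.exp (ang T * t / 2) : ℂ) * completedRiemannZeta (1 / 2 + a + t * I)

/-- Hermitian weights on pairs of positive integers. -/
def Herm (F : Finset (ℕ × ℕ)) (w : ℕ × ℕ → ℂ) : Prop :=
  (∀ q ∈ F, q.1 ≠ 0 ∧ q.2 ≠ 0 ∧ q.swap ∈ F) ∧ ∀ q ∈ F, w q.swap = conj (w q)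

/-- Weights which are admissible for the parameters `M, Q, B`. -/
structure Adm (M : ℕ) (Q B : ℝ) (F : Finset (ℕ × ℕ)) (w : ℕ × ℕ → ℂ) : Prop where
  herm : Herm F w
  smooth : ∀ q ∈ F, q.1 ∈ Nat.smoothNumbers M ∧ q.2 ∈ Nat.smoothNumbers M
  size : ∀ q ∈ F, (q.1 : ℝ) ≤ Q ∧ (q.2 : ℝ) ≤ Q
  l1 : ∑ q ∈ F, ‖w q‖ ≤ B

/-- The trigonometric polynomial `sum w(m,n) (n/m)^{it}`. -/
noncomputable def WW (F : Finset (ℕ × ℕ)) (w : ℕ × ℕ → ℂ) (t : ℝ) : ℂ :=
  ∑ q ∈ F, w q * cexp ((t * (Real.log q.2 - Real.log q.1) : ℝ) * I)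

/-- The corresponding sum of translates of `gg`. -/
noncomputable def GG (T : ℝ) (F : Finset (ℕ × ℕ)) (w : ℕ × ℕ → ℂ) (y : ℝ) : ℂ :=
  ∑ q ∈ F, w q * gg T (y + (Real.log q.1 - Real.log q.2))

/-- Weights multiplied by `(m/n)^a`. -/
noncomputable def wa (a : ℝ) (w : ℕ × ℕ → ℂ) (q : ℕ × ℕ) : ℂ :=
  w q * ((((q.1 : ℝ) / q.2) ^ a : ℝ) : ℂ)

/-- The theta part of `GG`. -/
noncomputable def SS (T : ℝ) (F : Finset (ℕ × ℕ)) (w : ℕ × ℕ → ℂ) (x : ℝ) : ℂ :=
  ∑' l : ℕ, ∑ q ∈ F, wa (1 / 2) w q *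
    cexp (-π * ((((l + 1 : ℕ) : ℝ) * q.1 / q.2 * x) ^ 2 : ℝ) * om T)

/-- The coefficient of the smooth rational number `ρ`. -/
noncomputable def cs (M : ℕ) (F : Finset (ℕ × ℕ)) (w : ℕ × ℕ → ℂ) (ρ : ℚ) : ℂ :=
  open Classical in
  ∑ q ∈ F, if ∃ l ∈ Nat.smoothNumbers M, (l : ℚ) * q.1 = ρ * q.2 then wa (1 / 2) w q else 0

/-- The window kernel. -/
noncomputable def KK (h y : ℝ) : ℝ := 5 * h ^ 2 / (1 + h ^ 2 * y ^ 2)

/-- The quadratic form of the weights. -/
noncomputable def BB (M : ℕ) (F : Finset (ℕ × ℕ)) (w : ℕ × ℕ → ℂ) (η : ℝ) : ℝ :=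
  ∫ v, ‖Zt (Nat.primesBelow M) (1 / 2 - η / 2) v‖ ^ 2 *
    ‖∑ q ∈ F, wa (η / 2) w q * XX v q.1 * conj (XX v q.2)‖ ^ 2 ∂mu

/-- The smoothness bound. -/
noncomputable def Mof (θ T : ℝ) : ℕ := ⌊T ^ θ⌋₊ + 1

end Pool.Agent.GH
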