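import Pool.Agent.Lib.MP_69b2e4_nt.GH.Step6

/-! The final theorem. -/

set_option autoImplicit false

namespace Pool.Agent.GH

open Complex MeasureTheory Finset
open scoped Real ComplexConjugate

/-- the zeros on the critical line up to height `T` are finite in number -/
theorem line_finite (T : ℝ) : {g : ℝ | 0 < g ∧ g ≤ T ∧ riemannZeta (1 / 2 + g * I) = 0}.Finite := by
  have hc : IsCompact ((fun g : ℝ => (1 / 2 : ℂ) + g * I) '' Set.Icc 0 T) :=
    isCompact_Icc.image (by fun_prop)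
  have hf := hc.inter_riemannZetaZeros_finite
  have hinj : Function.Injective (fun g : ℝ => (1 / 2 : ℂ) + g * I) := by
    intro a b hab
    have := congrArg Complex.im hab
    simpa using this
  refine Set.Finite.subset (hf.preimage hinj.injOn) ?_
  rintro g ⟨h0, h1, h2⟩
  exact ⟨⟨g, ⟨h0.le, h1⟩, rfl⟩, h2⟩

theorem main (k : ℝ) (hk : 0 < k) : ∃ c T0 : ℝ, 0 < c ∧ ∀ T : ℝ, T0 ≤ T →
    (∀ g : ℝ, 0 < g → g ≤ T → riemannZeta (1 / 2 + g * I) = 0 →
      deriv riemannZeta (1 / 2 + g * I) ≠ 0) →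
    c * T * Real.log T ^ ((k - 1) ^ 2) ≤
      ∑ g ∈ (line_finite T).toFinset, ‖deriv riemannZeta (1 / 2 + g * I)‖ ^ (-2 * k) := by
  obtain ⟨c6, a, T1, hc6, ha, H⟩ := step6 k hk
  refine ⟨c6 * a ^ (2 * k - 1) / (3 * 4 ^ ((k - 1) ^ 2)), max (3 * T1)
    (max (3 * Real.exp (10 * a + 1)) 9), by positivity, ?_⟩
  intro T hT hs
  simp only [max_le_iff] at hT
  obtain ⟨hT1, hT2, hT3⟩ := hT
  set U : ℝ := T / 3 with hU
  have hTU : T = 3 * U := by rw [hU]; ring
  have hU3 : 3 ≤ U := by rw [hU]; linarith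
  have hU0 : 0 < U := by linarith
  have hU1 : T1 ≤ U := by rw [hU]; linarith
  have hU2 : Real.exp (10 * a + 1) ≤ U := by rw [hU]; linarith
  have hL : 10 * a + 1 ≤ Real.log U := by rwa [Real.le_log_iff_exp_le hU0]
  have hL0 : 0 < Real.log U := by linarith
  set h : ℝ := a / Real.log U with hh
  have hh0 : 0 < h := by positivity
  have hh1 : h ≤ 1 / 10 := by
    rw [hh, div_le_iff₀ hL0]; linarith
  set Z : Finset ℝ := (line_finite T).toFinset with hZ
  obtain ⟨hδ, hsum⟩ := zeros_sum (T := U) (h := h) (k := k) (by linarith) hh0 hh1 hk Z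
    (fun g h0 h1 h2 => by
      rw [hZ, Set.Finite.mem_toFinset]
      exact ⟨h0, by rw [hTU]; exact h1, h2⟩)
    (fun g hg => by
      rw [hZ, Set.Finite.mem_toFinset] at hg
      exact hs g hg.1 hg.2.1 hg.2.2)
  have h1 := (H U hU1 hδ).trans hsum
  set Sg : ℝ := ∑ g ∈ Z, ‖deriv riemannZeta (1 / 2 + g * I)‖ ^ (-2 * k) with hSg
  -- multiply by h^(2k-1)
  have h2 : h ^ (2 * k - 1) * (c6 * U * Real.log U ^ (k ^ 2)) ≤ Sg := by
    have h3 := mul_le_mul_of_nonneg_left h1 (by positivity : 0 ≤ h ^ (2 * k - 1))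
    have h4 : h ^ (2 * k - 1) * (h ^ (1 - 2 * k) * Sg) = Sg := by
      rw [← mul_assoc, ← Real.rpow_add hh0]
      have : 2 * k - 1 + (1 - 2 * k) = 0 := by ring
      rw [this, Real.rpow_zero, one_mul]
    rwa [h4] at h3
  refine le_trans ?_ h2
  have h5 : h ^ (2 * k - 1) * (c6 * U * Real.log U ^ (k ^ 2)) =
      c6 * a ^ (2 * k - 1) * U * Real.log U ^ ((k - 1) ^ 2) := by
    rw [hh, Real.div_rpow ha.le hL0.le]
    have h6 : Real.log U ^ (k ^ 2) = Real.log U ^ (2 * k - 1) * Real.log U ^ ((k - 1) ^ 2) := by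
      rw [← Real.rpow_add hL0]; congr 1; ring
    rw [h6]
    have : Real.log U ^ (2 * k - 1) ≠ 0 := by positivity
    field_simp
  rw [h5]
  -- compare log T and log U
  have h7 : Real.log T ≤ 4 * Real.log U := by
    have h8 : Real.log T = Real.log 3 + Real.log U := by
      rw [hTU, Real.log_mul (by norm_num) hU0.ne']
    have h9 : Real.log 3 ≤ Real.log U := Real.log_le_log (by norm_num) hU3
    linarith
  have hlT : 0 ≤ Real.log T := Real.log_nonneg (by linarith)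
  have h10 : Real.log T ^ ((k - 1) ^ 2) ≤ 4 ^ ((k - 1) ^ 2) * Real.log U ^ ((k - 1) ^ 2) := by
    rw [← Real.mul_rpow (by norm_num) hL0.le]
    exact Real.rpow_le_rpow hlT h7 (sq_nonneg _)
  calc c6 * a ^ (2 * k - 1) / (3 * 4 ^ ((k - 1) ^ 2)) * T * Real.log T ^ ((k - 1) ^ 2)
      ≤ c6 * a ^ (2 * k - 1) / (3 * 4 ^ ((k - 1) ^ 2)) * T *
        (4 ^ ((k - 1) ^ 2) * Real.log U ^ ((k - 1) ^ 2)) := by gcongr
    _ = c6 * a ^ (2 * k - 1) * U * Real.log U ^ ((k - 1) ^ 2) := by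
        rw [hTU]
        have : (4 : ℝ) ^ ((k - 1) ^ 2) ≠ 0 := by positivity
        field_simp

end Pool.Agent.GH
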