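import Pool.Agent.Lib.MP_69b2e4_nt.Mg.G040

/-! TASK OffSum. The off-diagonal sum.
Let `Q = T^{1/100}`, `s = sin(1/T) ≥ 1/(2T)`, `cos(1/T) ≥ 1/2`, `u = ρ r`, `u' = ρ' r'`. By the definition of `cs`,
`‖cs ρ‖ ≤ ∑_{q∈F} ∑_{l smooth, l q1 = ρ q2} ‖wa (1/2) w q‖`, `‖wa (1/2) w q‖ ≤ ‖w q‖ Q^{1/2}`. With `n = l r` (all `n ≥ 1` arise at most once, unique factorisation into smooth and rough part)
the double sum over `(ρ,r),(ρ',r')` is at most
`∑_{q,q'∈F} ‖w q‖‖w q'‖ Q ∑_{n,n' ≥ 1, n q1/q2 ≠ n' q1'/q2'} 2 e^{-π(u²+u'²)s}/(π |u²-u'²| cos(1/T))`, `u = n q1/q2`, `u' = n' q1'/q2'`.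
`|u²-u'²| = |u-u'|(u+u') ≥ |j|/(q2 q2') · u ≥ |j| n/Q³` with the nonzero integer `j = n q1 q2' - n' q1' q2`, and `e^{-π u² s} ≤ e^{-n²/(Q² T)}` (`u ≥ n/Q`, `π s ≥ 1/T`). For fixed `q, q', n` the integers `j`
for different `n'` are different. Let `Z = T²`. Terms with `n > Z` or `n' > Z`: bounded by `e^{-n²/(Q²T)}`, `e^{-n'^2/(Q^2T)}`, total `≤ 1` for `T` large.
Terms with `n, n' ≤ Z`: `∑_{n≤Z} 1/n ∑_{n'≤Z} 1/|j| ≤ (1+log Z) · 2(1 + log(2 Q² Z))` (distinct nonzero integers of absolute value at most `2Q²Z`). Total: at most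
`C Q · Q³ · (∑‖w‖)² (log T)² ≤ C Q^6 (log T)² ≤ T^{1/10}` for `T ≥ T0`. -/

set_option autoImplicit false

namespace Pool.Agent.GH

open Complex MeasureTheory Finset
open scoped Real ComplexConjugate

private theorem OffSum_uniq {M l l' r r' : ℕ} (hl : l ∈ Nat.smoothNumbers M)
    (hl' : l' ∈ Nat.smoothNumbers M) (hr : Rough M r) (hr' : Rough M r') (h : l * r = l' * r') :
    l = l' ∧ r = r' := by
  have cop : ∀ {a b : ℕ}, a ∈ Nat.smoothNumbers M → Rough M b → Nat.Coprime a b := by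
    intro a b ha hb
    by_contra hc
    obtain ⟨p, hp, hpa, hpb⟩ := Nat.Prime.not_coprime_iff_dvd.mp hc
    have h1 : p < M := (Nat.mem_smoothNumbers'.mp ha) p hp hpa
    have h2 := hb.2 p hp hpb
    omega
  have h1 : l ∣ l' := (cop hl hr').dvd_of_dvd_mul_right (Dvd.intro r h)
  have h2 : l' ∣ l := (cop hl' hr).dvd_of_dvd_mul_right (Dvd.intro r' h.symm)
  have h3 := Nat.dvd_antisymm h1 h2
  subst h3
  exact ⟨rfl, Nat.eq_of_mul_eq_mul_left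
    (Nat.pos_of_ne_zero (Nat.ne_zero_of_mem_smoothNumbers hl)) h⟩

open Classical in
private theorem OffSum_fiber {M : ℕ} {q : ℕ × ℕ} (h1 : q.1 ≠ 0) (h2 : q.2 ≠ 0) (G : ℝ → ENNReal) :
    ∑' k : ℚ × ℕ, (if Rough M k.2 ∧ ∃ l ∈ Nat.smoothNumbers M, (l : ℚ) * q.1 = k.1 * q.2 then
      G ((k.1 : ℝ) * k.2) else 0) ≤
      ∑' n : ℕ, (if n ≠ 0 then G ((n : ℝ) * q.1 / q.2) else 0) := by
  set S : Set (ℚ × ℕ) :=
    {k | Rough M k.2 ∧ ∃ l ∈ Nat.smoothNumbers M, (l : ℚ) * q.1 = k.1 * q.2} with hS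
  have e1 : ∀ k : ℚ × ℕ, (if Rough M k.2 ∧ ∃ l ∈ Nat.smoothNumbers M,
      (l : ℚ) * q.1 = k.1 * q.2 then G ((k.1 : ℝ) * k.2) else 0) =
      S.indicator (fun k => G ((k.1 : ℝ) * k.2)) k := by
    intro k
    simp only [Set.indicator, hS, Set.mem_ofPred_eq]
  simp_rw [e1]
  rw [← tsum_subtype S (fun k : ℚ × ℕ => G ((k.1 : ℝ) * k.2))]
  have hq1 : (q.1 : ℚ) ≠ 0 := by exact_mod_cast h1
  have hq2 : (q.2 : ℚ) ≠ 0 := by exact_mod_cast h2
  let N : S → ℕ := fun k => k.2.2.choose * (k : ℚ × ℕ).2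
  have hsp : ∀ k : S, k.2.2.choose ∈ Nat.smoothNumbers M ∧
      ((k.2.2.choose : ℕ) : ℚ) * q.1 = (k : ℚ × ℕ).1 * q.2 := fun k => k.2.2.choose_spec
  have hN : Function.Injective N := by
    intro k k' hk
    have h := OffSum_uniq (hsp k).1 (hsp k').1 k.2.1 k'.2.1 hk
    apply Subtype.ext
    apply Prod.ext
    · have e := (hsp k).2
      have e' := (hsp k').2
      rw [h.1] at e
      exact mul_right_cancel₀ hq2 (e.symm.trans e')
    · exact h.2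
  have hG : ∀ k : S, G (((k : ℚ × ℕ).1 : ℝ) * (k : ℚ × ℕ).2) =
      (fun n : ℕ => if n ≠ 0 then G ((n : ℝ) * q.1 / q.2) else 0) (N k) := by
    intro k
    have hne : N k ≠ 0 := mul_ne_zero (Nat.ne_zero_of_mem_smoothNumbers (hsp k).1) k.2.1.1
    change _ = if N k ≠ 0 then G ((N k : ℝ) * q.1 / q.2) else 0
    rw [if_pos hne]
    congr 1
    have e := (hsp k).2
    have e2 : ((k.2.2.choose : ℕ) : ℝ) * q.1 = ((k : ℚ × ℕ).1 : ℝ) * q.2 := by exact_mod_cast e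
    have hq2' : (q.2 : ℝ) ≠ 0 := by exact_mod_cast h2
    rw [eq_div_iff hq2']
    change _ = ((k.2.2.choose * (k : ℚ × ℕ).2 : ℕ) : ℝ) * q.1
    push_cast
    linear_combination (-((k : ℚ × ℕ).2 : ℝ)) * e2
  calc ∑' k : S, G (((k : ℚ × ℕ).1 : ℝ) * (k : ℚ × ℕ).2)
      = ∑' k : S, (fun n : ℕ => if n ≠ 0 then G ((n : ℝ) * q.1 / q.2) else 0) (N k) :=
        tsum_congr hG
    _ ≤ _ := ENNReal.tsum_comp_le_tsum_of_injective hN _

open Classical in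
private theorem OffSum_push {M : ℕ} {F : Finset (ℕ × ℕ)} {w : ℕ × ℕ → ℂ}
    (hF : ∀ q ∈ F, q.1 ∈ Nat.smoothNumbers M ∧ q.2 ∈ Nat.smoothNumbers M) (G : ℝ → ENNReal) :
    ∑' k : ℚ × ℕ, (if Rough M k.2 then
      ENNReal.ofReal ‖cs M F w k.1‖ * G ((k.1 : ℝ) * k.2) else 0) ≤
      ∑ q ∈ F, ENNReal.ofReal ‖wa (1 / 2) w q‖ *
        ∑' n : ℕ, (if n ≠ 0 then G ((n : ℝ) * q.1 / q.2) else 0) := by
  have h1 : ∀ ρ : ℚ, ENNReal.ofReal ‖cs M F w ρ‖ ≤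
      ∑ q ∈ F, (if ∃ l ∈ Nat.smoothNumbers M, (l : ℚ) * q.1 = ρ * q.2 then
        ENNReal.ofReal ‖wa (1 / 2) w q‖ else 0) := by
    intro ρ
    calc ENNReal.ofReal ‖cs M F w ρ‖
        ≤ ENNReal.ofReal (∑ q ∈ F, ‖(if ∃ l ∈ Nat.smoothNumbers M, (l : ℚ) * q.1 = ρ * q.2 then
          wa (1 / 2) w q else 0)‖) := ENNReal.ofReal_le_ofReal (norm_sum_le _ _)
      _ = ∑ q ∈ F, ENNReal.ofReal ‖(if ∃ l ∈ Nat.smoothNumbers M, (l : ℚ) * q.1 = ρ * q.2 then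
          wa (1 / 2) w q else 0)‖ := ENNReal.ofReal_sum_of_nonneg fun _ _ => norm_nonneg _
      _ ≤ _ := by
        refine Finset.sum_le_sum fun q _ => ?_
        split_ifs
        · exact le_rfl
        · simp
  calc ∑' k : ℚ × ℕ, (if Rough M k.2 then
      ENNReal.ofReal ‖cs M F w k.1‖ * G ((k.1 : ℝ) * k.2) else 0)
      ≤ ∑' k : ℚ × ℕ, ∑ q ∈ F, ENNReal.ofReal ‖wa (1 / 2) w q‖ *
        (if Rough M k.2 ∧ ∃ l ∈ Nat.smoothNumbers M, (l : ℚ) * q.1 = k.1 * q.2 then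
          G ((k.1 : ℝ) * k.2) else 0) := by
        refine ENNReal.tsum_le_tsum fun k => ?_
        by_cases hr : Rough M k.2
        · rw [if_pos hr]
          refine (mul_le_mul_left (h1 k.1) _).trans ?_
          rw [Finset.sum_mul]
          refine Finset.sum_le_sum fun q _ => ?_
          by_cases hq : ∃ l ∈ Nat.smoothNumbers M, (l : ℚ) * q.1 = k.1 * q.2
          · rw [if_pos hq, if_pos ⟨hr, hq⟩]
          · rw [if_neg hq, if_neg (fun h => hq h.2)]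
            simp
        · rw [if_neg hr]
          exact zero_le
    _ = ∑ q ∈ F, ENNReal.ofReal ‖wa (1 / 2) w q‖ * ∑' k : ℚ × ℕ,
        (if Rough M k.2 ∧ ∃ l ∈ Nat.smoothNumbers M, (l : ℚ) * q.1 = k.1 * q.2 then
          G ((k.1 : ℝ) * k.2) else 0) := by
        rw [Summable.tsum_finsetSum (fun _ _ => ENNReal.summable)]
        refine Finset.sum_congr rfl fun q _ => ?_
        rw [ENNReal.tsum_mul_left]
    _ ≤ _ := by
        refine Finset.sum_le_sum fun q hq => ?_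
        refine mul_le_mul_right ?_ _
        exact OffSum_fiber (Nat.ne_zero_of_mem_smoothNumbers (hF q hq).1)
          (Nat.ne_zero_of_mem_smoothNumbers (hF q hq).2) G

private theorem OffSum_rpow {t : ℝ} (ht : 0 ≤ t) : t ^ (1 / 100 : ℝ) ≤ Real.exp t := by
  rcases le_total t 1 with h | h
  · exact (Real.rpow_le_one ht h (by norm_num)).trans (Real.one_le_exp ht)
  · calc t ^ (1 / 100 : ℝ) ≤ t ^ (1 : ℝ) := Real.rpow_le_rpow_of_exponent_le h (by norm_num)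
      _ = t := Real.rpow_one t
      _ ≤ Real.exp t := by linarith [Real.add_one_le_exp t]

/-- The pointwise bound. -/
private theorem OffSum_point {T Q : ℝ} (hT : 1 ≤ T) (hQ : 1 ≤ Q) {a b a' b' : ℕ} (ha : a ≠ 0)
    (hb : b ≠ 0) (ha' : a' ≠ 0) (hb' : b' ≠ 0) (haQ : (a : ℝ) ≤ Q) (hbQ : (b : ℝ) ≤ Q)
    (haQ' : (a' : ℝ) ≤ Q) (hbQ' : (b' : ℝ) ≤ Q) {n n' : ℕ} (hn : n ≠ 0) (hn' : n' ≠ 0)
    (hne : (n : ℝ) * a / b ≠ (n' : ℝ) * a' / b') :
    2 * Real.exp (-π * (((n : ℝ) * a / b) ^ 2 + ((n' : ℝ) * a' / b') ^ 2) * Real.sin (1 / T)) /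
      (π * |((n : ℝ) * a / b) ^ 2 - ((n' : ℝ) * a' / b') ^ 2| * Real.cos (1 / T)) ≤
    2 * Q ^ 3 * (Q ^ 4 * T) ^ (1 / 100 : ℝ) * ((|((n : ℤ) : ℝ)| ^ (-(101 / 100 : ℝ))) *
      |((((n : ℤ) * (a * b') - (n' : ℤ) * (a' * b) : ℤ)) : ℝ)| ^ (-(101 / 100 : ℝ))) := by
  have hT0 : 0 < T := by linarith
  have hQ0 : 0 < Q := by linarith
  have hb0 : (0 : ℝ) < b := by exact_mod_cast Nat.pos_of_ne_zero hb
  have hb0' : (0 : ℝ) < b' := by exact_mod_cast Nat.pos_of_ne_zero hb'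
  have ha1 : (1 : ℝ) ≤ a := by exact_mod_cast Nat.pos_of_ne_zero ha
  have ha1' : (1 : ℝ) ≤ a' := by exact_mod_cast Nat.pos_of_ne_zero ha'
  have hb1 : (1 : ℝ) ≤ b := by exact_mod_cast Nat.pos_of_ne_zero hb
  have hb1' : (1 : ℝ) ≤ b' := by exact_mod_cast Nat.pos_of_ne_zero hb'
  have hn1 : (1 : ℝ) ≤ n := by exact_mod_cast Nat.pos_of_ne_zero hn
  have hn1' : (1 : ℝ) ≤ n' := by exact_mod_cast Nat.pos_of_ne_zero hn'
  set u : ℝ := (n : ℝ) * a / b with hu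
  set u' : ℝ := (n' : ℝ) * a' / b' with hu'
  obtain ⟨j, hj⟩ : ∃ j : ℝ, j = (((n : ℤ) * (a * b') - (n' : ℤ) * (a' * b) : ℤ) : ℝ) := ⟨_, rfl⟩
  rw [← hj]
  have hj2 : j = (n : ℝ) * (a * b') - n' * (a' * b) := by rw [hj]; push_cast; ring
  have hju : u - u' = j / (b * b') := by
    rw [hu, hu', hj2]
    field_simp
  have hj0 : j ≠ 0 := by
    intro h
    apply hne
    rw [h, zero_div] at hju
    linarith
  have hjp : 0 < |j| := abs_pos.mpr hj0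
  have hnabs : |((n : ℤ) : ℝ)| = n := by
    rw [Int.cast_natCast]
    exact abs_of_nonneg (by linarith)
  rw [hnabs]
  have hul : (n : ℝ) / Q ≤ u := by
    rw [hu]
    calc (n : ℝ) / Q ≤ (n : ℝ) / b := div_le_div_of_nonneg_left (by linarith) hb0 hbQ
      _ ≤ (n : ℝ) * a / b := by
        apply div_le_div_of_nonneg_right _ hb0.le
        nlinarith
  have hul' : (n' : ℝ) / Q ≤ u' := by
    rw [hu']
    calc (n' : ℝ) / Q ≤ (n' : ℝ) / b' := div_le_div_of_nonneg_left (by linarith) hb0' hbQ'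
      _ ≤ (n' : ℝ) * a' / b' := by
        apply div_le_div_of_nonneg_right _ hb0'.le
        nlinarith
  have hnQ : 0 < (n : ℝ) / Q := by positivity
  have hnQ' : 0 < (n' : ℝ) / Q := by positivity
  -- the denominator
  have hden : |j| * n / Q ^ 3 ≤ |u ^ 2 - u' ^ 2| := by
    have e : u ^ 2 - u' ^ 2 = (u - u') * (u + u') := by ring
    rw [e, abs_mul, hju, abs_div, abs_of_pos (by linarith : 0 < u + u'),
      abs_of_pos (by positivity : (0 : ℝ) < b * b')]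
    calc |j| * n / Q ^ 3 = |j| / (Q * Q) * ((n : ℝ) / Q) := by field_simp
      _ ≤ |j| / (b * b') * (u + u') := by
        apply mul_le_mul _ (by linarith) hnQ.le (by positivity)
        apply div_le_div_of_nonneg_left hjp.le (by positivity)
        exact mul_le_mul hbQ hbQ' hb0'.le hQ0.le
  have hTinv : 1 / T ≤ 1 := by rw [div_le_one hT0]; exact hT
  have hTpos : 0 < 1 / T := by positivity
  have hpi := Real.pi_gt_three
  have hcos : 1 / 2 ≤ Real.cos (1 / T) := by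
    rw [← Real.cos_pi_div_three]
    apply Real.cos_le_cos_of_nonneg_of_le_pi hTpos.le (by linarith) (by linarith)
  have hsin : 2 / T ≤ π * Real.sin (1 / T) := by
    have h := Real.mul_le_sin hTpos.le (by linarith)
    calc 2 / T = π * (2 / π * (1 / T)) := by field_simp
      _ ≤ _ := mul_le_mul_of_nonneg_left h Real.pi_pos.le
  -- the exponential
  set y : ℝ := ((n : ℝ) + n') ^ 2 with hy
  set A : ℝ := Q ^ 2 * T with hA
  have hA0 : 0 < A := by positivity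
  have hy0 : 0 < y := by positivity
  have hexp : Real.exp (-π * (u ^ 2 + u' ^ 2) * Real.sin (1 / T)) ≤ Real.exp (-(y / A)) := by
    apply Real.exp_le_exp.mpr
    have h1 : y / (2 * Q ^ 2) ≤ u ^ 2 + u' ^ 2 := by
      have h2 : ((n : ℝ) / Q) ^ 2 ≤ u ^ 2 := pow_le_pow_left₀ hnQ.le hul 2
      have h3 : ((n' : ℝ) / Q) ^ 2 ≤ u' ^ 2 := pow_le_pow_left₀ hnQ'.le hul' 2
      have h4 : y / (2 * Q ^ 2) ≤ ((n : ℝ) / Q) ^ 2 + ((n' : ℝ) / Q) ^ 2 := by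
        rw [div_pow, div_pow, ← add_div, div_le_div_iff₀ (by positivity) (by positivity)]
        have h5 : y ≤ 2 * ((n : ℝ) ^ 2 + (n' : ℝ) ^ 2) := by
          rw [hy]; nlinarith [sq_nonneg ((n : ℝ) - n')]
        nlinarith [sq_nonneg Q, mul_le_mul_of_nonneg_right h5 (sq_nonneg Q)]
      linarith
    have h6 : y / A ≤ (u ^ 2 + u' ^ 2) * (π * Real.sin (1 / T)) := by
      calc y / A = y / (2 * Q ^ 2) * (2 / T) := by rw [hA]; field_simp
        _ ≤ (u ^ 2 + u' ^ 2) * (π * Real.sin (1 / T)) :=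
          mul_le_mul h1 hsin (by positivity) (by positivity)
    linarith
  -- the power
  have hz0 : 0 < |j| * n := by positivity
  have hz : |j| * n ≤ Q ^ 2 * y := by
    have h1 : |j| ≤ Q ^ 2 * (n + n') := by
      rw [hj2]
      have h2 : (a : ℝ) * b' ≤ Q ^ 2 := by rw [sq]; exact mul_le_mul haQ hbQ' hb0'.le hQ0.le
      have h3 : (a' : ℝ) * b ≤ Q ^ 2 := by rw [sq]; exact mul_le_mul haQ' hbQ hb0.le hQ0.le
      have h4 : (n : ℝ) * (a * b') ≤ n * Q ^ 2 := mul_le_mul_of_nonneg_left h2 (by linarith)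
      have h5 : (n' : ℝ) * (a' * b) ≤ n' * Q ^ 2 := mul_le_mul_of_nonneg_left h3 (by linarith)
      have h6 : 0 ≤ (n : ℝ) * (a * b') := by positivity
      have h7 : 0 ≤ (n' : ℝ) * (a' * b) := by positivity
      have h8 : 0 ≤ (n : ℝ) * Q ^ 2 := by positivity
      have h9 : 0 ≤ (n' : ℝ) * Q ^ 2 := by positivity
      rw [abs_le]
      constructor <;> nlinarith
    calc |j| * n ≤ (Q ^ 2 * (n + n')) * (n + n') :=
          mul_le_mul h1 (by linarith) (by linarith) (by positivity)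
      _ = Q ^ 2 * y := by rw [hy]; ring
  have hpow : (|j| * n) ^ (1 / 100 : ℝ) ≤ (Q ^ 4 * T) ^ (1 / 100 : ℝ) * Real.exp (y / A) := by
    calc (|j| * n) ^ (1 / 100 : ℝ) ≤ ((Q ^ 4 * T) * (y / A)) ^ (1 / 100 : ℝ) := by
          apply Real.rpow_le_rpow hz0.le _ (by norm_num)
          have : (Q ^ 4 * T) * (y / A) = Q ^ 2 * y := by rw [hA]; field_simp
          rw [this]
          exact hz
      _ = (Q ^ 4 * T) ^ (1 / 100 : ℝ) * (y / A) ^ (1 / 100 : ℝ) :=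
          Real.mul_rpow (by positivity) (by positivity)
      _ ≤ _ := mul_le_mul_of_nonneg_left (OffSum_rpow (by positivity)) (by positivity)
  have hinv : (|j| * n)⁻¹ ≤ (Q ^ 4 * T) ^ (1 / 100 : ℝ) * Real.exp (y / A) *
      ((n : ℝ) ^ (-(101 / 100 : ℝ)) * |j| ^ (-(101 / 100 : ℝ))) := by
    have e1 : (|j| * n)⁻¹ = (|j| * n) ^ (1 / 100 : ℝ) * (|j| * n) ^ (-(101 / 100 : ℝ)) := by
      rw [← Real.rpow_add hz0, ← Real.rpow_neg_one]
      norm_num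
    have e2 : (|j| * n) ^ (-(101 / 100 : ℝ)) = (n : ℝ) ^ (-(101 / 100 : ℝ)) * |j| ^ (-(101 / 100 : ℝ)) := by
      rw [Real.mul_rpow hjp.le (by linarith), mul_comm]
    rw [e1, e2]
    exact mul_le_mul_of_nonneg_right hpow (by positivity)
  have hE : 0 < Real.exp (-(y / A)) := Real.exp_pos _
  calc 2 * Real.exp (-π * (u ^ 2 + u' ^ 2) * Real.sin (1 / T)) /
      (π * |u ^ 2 - u' ^ 2| * Real.cos (1 / T))
      ≤ 2 * Real.exp (-(y / A)) / (|j| * n / Q ^ 3) := by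
        apply div_le_div₀ (by positivity) (by linarith) (by positivity)
        have h1 : |j| * n / Q ^ 3 * 1 ≤ |u ^ 2 - u' ^ 2| * (π * Real.cos (1 / T)) := by
          apply mul_le_mul hden _ (by norm_num) (abs_nonneg _)
          nlinarith
        nlinarith
    _ = 2 * Q ^ 3 * Real.exp (-(y / A)) * (|j| * n)⁻¹ := by
        field_simp
    _ ≤ 2 * Q ^ 3 * Real.exp (-(y / A)) * ((Q ^ 4 * T) ^ (1 / 100 : ℝ) * Real.exp (y / A) *
        ((n : ℝ) ^ (-(101 / 100 : ℝ)) * |j| ^ (-(101 / 100 : ℝ)))) :=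
        mul_le_mul_of_nonneg_left hinv (by positivity)
    _ = 2 * Q ^ 3 * (Q ^ 4 * T) ^ (1 / 100 : ℝ) *
        ((n : ℝ) ^ (-(101 / 100 : ℝ)) * |j| ^ (-(101 / 100 : ℝ))) *
        (Real.exp (-(y / A)) * Real.exp (y / A)) := by ring
    _ = _ := by
        rw [← Real.exp_add, neg_add_cancel, Real.exp_zero, mul_one]

/-- The constant. -/
private noncomputable def OffSum_K : ENNReal :=
  ∑' j : ℤ, ENNReal.ofReal (|(j : ℝ)| ^ (-(101 / 100 : ℝ)))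

private theorem OffSum_K_ne_top : OffSum_K ≠ ⊤ := by
  have h := Real.summable_abs_int_rpow (b := 101 / 100) (by norm_num)
  unfold OffSum_K
  rw [← ENNReal.ofReal_tsum_of_nonneg (fun _ => by positivity) h]
  exact ENNReal.ofReal_ne_top

/-- The kernel. -/
private noncomputable def OffSum_H (T u u' : ℝ) : ENNReal :=
  open Classical in
  if u ≠ u' then ENNReal.ofReal (2 * Real.exp (-π * (u ^ 2 + u' ^ 2) * Real.sin (1 / T)) /
      (π * |u ^ 2 - u' ^ 2| * Real.cos (1 / T))) else 0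

/-- The double sum for fixed weights. -/
private theorem OffSum_pair {T Q : ℝ} (hT : 1 ≤ T) (hQ : 1 ≤ Q) {q q' : ℕ × ℕ} (ha : q.1 ≠ 0)
    (hb : q.2 ≠ 0) (ha' : q'.1 ≠ 0) (hb' : q'.2 ≠ 0) (haQ : (q.1 : ℝ) ≤ Q) (hbQ : (q.2 : ℝ) ≤ Q)
    (haQ' : (q'.1 : ℝ) ≤ Q) (hbQ' : (q'.2 : ℝ) ≤ Q) :
    ∑' n : ℕ, (if n ≠ 0 then ∑' n' : ℕ, (if n' ≠ 0 then
      OffSum_H T ((n : ℝ) * q.1 / q.2) ((n' : ℝ) * q'.1 / q'.2) else 0) else 0) ≤
      ENNReal.ofReal (2 * Q ^ 3 * (Q ^ 4 * T) ^ (1 / 100 : ℝ)) * (OffSum_K * OffSum_K) := by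
  have hQ0 : 0 < Q := by linarith
  have hT0 : 0 < T := by linarith
  have h1 : ∀ n : ℕ, (if n ≠ 0 then ∑' n' : ℕ, (if n' ≠ 0 then
      OffSum_H T ((n : ℝ) * q.1 / q.2) ((n' : ℝ) * q'.1 / q'.2) else 0) else 0) ≤
      ENNReal.ofReal (2 * Q ^ 3 * (Q ^ 4 * T) ^ (1 / 100 : ℝ)) * OffSum_K *
        ENNReal.ofReal (|((n : ℤ) : ℝ)| ^ (-(101 / 100 : ℝ))) := by
    intro n
    by_cases hn : n ≠ 0
    · rw [if_pos hn]
      have h2 : ∀ n' : ℕ, (if n' ≠ 0 then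
          OffSum_H T ((n : ℝ) * q.1 / q.2) ((n' : ℝ) * q'.1 / q'.2) else 0) ≤
          ENNReal.ofReal (2 * Q ^ 3 * (Q ^ 4 * T) ^ (1 / 100 : ℝ)) *
            ENNReal.ofReal (|((n : ℤ) : ℝ)| ^ (-(101 / 100 : ℝ))) *
            ENNReal.ofReal (|((((n : ℤ) * (q.1 * q'.2) - (n' : ℤ) * (q'.1 * q.2) : ℤ)) : ℝ)|
              ^ (-(101 / 100 : ℝ))) := by
        intro n'
        by_cases hn' : n' ≠ 0
        · rw [if_pos hn']
          unfold OffSum_H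
          split_ifs with hne
          · rw [← ENNReal.ofReal_mul (by positivity), ← ENNReal.ofReal_mul (by positivity)]
            apply ENNReal.ofReal_le_ofReal
            refine (OffSum_point hT hQ ha hb ha' hb' haQ hbQ haQ' hbQ' hn hn' hne).trans
              (le_of_eq ?_)
            rw [mul_assoc (2 * Q ^ 3 * (Q ^ 4 * T) ^ (1 / 100 : ℝ))]
          · exact zero_le
        · rw [if_neg hn']
          exact zero_le
      calc ∑' n' : ℕ, (if n' ≠ 0 then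
          OffSum_H T ((n : ℝ) * q.1 / q.2) ((n' : ℝ) * q'.1 / q'.2) else 0)
          ≤ ∑' n' : ℕ, ENNReal.ofReal (2 * Q ^ 3 * (Q ^ 4 * T) ^ (1 / 100 : ℝ)) *
            ENNReal.ofReal (|((n : ℤ) : ℝ)| ^ (-(101 / 100 : ℝ))) *
            ENNReal.ofReal (|((((n : ℤ) * (q.1 * q'.2) - (n' : ℤ) * (q'.1 * q.2) : ℤ)) : ℝ)|
              ^ (-(101 / 100 : ℝ))) := ENNReal.tsum_le_tsum h2
        _ = ENNReal.ofReal (2 * Q ^ 3 * (Q ^ 4 * T) ^ (1 / 100 : ℝ)) *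
            ENNReal.ofReal (|((n : ℤ) : ℝ)| ^ (-(101 / 100 : ℝ))) *
            ∑' n' : ℕ, ENNReal.ofReal
              (|((((n : ℤ) * (q.1 * q'.2) - (n' : ℤ) * (q'.1 * q.2) : ℤ)) : ℝ)|
              ^ (-(101 / 100 : ℝ))) := ENNReal.tsum_mul_left
        _ ≤ ENNReal.ofReal (2 * Q ^ 3 * (Q ^ 4 * T) ^ (1 / 100 : ℝ)) *
            ENNReal.ofReal (|((n : ℤ) : ℝ)| ^ (-(101 / 100 : ℝ))) * OffSum_K := by
            refine mul_le_mul_right ?_ _
            unfold OffSum_K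
            refine ENNReal.tsum_comp_le_tsum_of_injective
              (f := fun n' : ℕ => (n : ℤ) * (q.1 * q'.2) - (n' : ℤ) * (q'.1 * q.2)) ?_
              (fun j : ℤ => ENNReal.ofReal (|(j : ℝ)| ^ (-(101 / 100 : ℝ))))
            intro m m' hm
            have h3 : (m : ℤ) * (q'.1 * q.2) = (m' : ℤ) * (q'.1 * q.2) := by
              have hm' : (n : ℤ) * (q.1 * q'.2) - (m : ℤ) * (q'.1 * q.2) =
                (n : ℤ) * (q.1 * q'.2) - (m' : ℤ) * (q'.1 * q.2) := hm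
              linarith
            have h4 : ((q'.1 : ℤ) * q.2) ≠ 0 := by
              exact_mod_cast mul_ne_zero ha' hb
            exact_mod_cast mul_right_cancel₀ h4 h3
        _ = _ := by rw [mul_assoc, mul_comm (ENNReal.ofReal (|((n : ℤ) : ℝ)| ^ _)), ← mul_assoc]
    · rw [if_neg hn]
      exact zero_le
  calc ∑' n : ℕ, (if n ≠ 0 then ∑' n' : ℕ, (if n' ≠ 0 then
      OffSum_H T ((n : ℝ) * q.1 / q.2) ((n' : ℝ) * q'.1 / q'.2) else 0) else 0)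
      ≤ ∑' n : ℕ, ENNReal.ofReal (2 * Q ^ 3 * (Q ^ 4 * T) ^ (1 / 100 : ℝ)) * OffSum_K *
        ENNReal.ofReal (|((n : ℤ) : ℝ)| ^ (-(101 / 100 : ℝ))) := ENNReal.tsum_le_tsum h1
    _ = ENNReal.ofReal (2 * Q ^ 3 * (Q ^ 4 * T) ^ (1 / 100 : ℝ)) * OffSum_K *
        ∑' n : ℕ, ENNReal.ofReal (|((n : ℤ) : ℝ)| ^ (-(101 / 100 : ℝ))) := ENNReal.tsum_mul_left
    _ ≤ ENNReal.ofReal (2 * Q ^ 3 * (Q ^ 4 * T) ^ (1 / 100 : ℝ)) * OffSum_K * OffSum_K := by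
        refine mul_le_mul_right ?_ _
        unfold OffSum_K
        exact ENNReal.tsum_comp_le_tsum_of_injective
          (f := fun n : ℕ => (n : ℤ)) Nat.cast_injective
          (fun j : ℤ => ENNReal.ofReal (|(j : ℝ)| ^ (-(101 / 100 : ℝ))))
    _ = _ := by rw [mul_assoc]

open Classical in
theorem off_sum : ∃ T0 : ℝ, 1 ≤ T0 ∧ ∀ (T : ℝ) (M : ℕ) (F : Finset (ℕ × ℕ)) (w : ℕ × ℕ → ℂ),
    T0 ≤ T → (∀ q ∈ F, q.1 ∈ Nat.smoothNumbers M ∧ q.2 ∈ Nat.smoothNumbers M) →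
    (∀ q ∈ F, (q.1 : ℝ) ≤ T ^ (1 / 100 : ℝ) ∧ (q.2 : ℝ) ≤ T ^ (1 / 100 : ℝ)) →
    ∑ q ∈ F, ‖w q‖ ≤ T ^ (1 / 100 : ℝ) →
    ∑' k : ℚ × ℕ, ∑' k' : ℚ × ℕ, (if Rough M k.2 ∧ Rough M k'.2 ∧ k.1 * k.2 ≠ k'.1 * k'.2 then
      ENNReal.ofReal (‖cs M F w k.1‖ * ‖cs M F w k'.1‖ *
        (2 * Real.exp (-π * (((k.1 : ℝ) * k.2) ^ 2 + ((k'.1 : ℝ) * k'.2) ^ 2) * Real.sin (1 / T)) /
          (π * |((k.1 : ℝ) * k.2) ^ 2 - ((k'.1 : ℝ) * k'.2) ^ 2| * Real.cos (1 / T)))) else 0) ≤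
      ENNReal.ofReal (T ^ (1 / 10 : ℝ)) := by
  obtain ⟨K, hK⟩ : ∃ K : ℝ, K = (OffSum_K * OffSum_K).toReal := ⟨_, rfl⟩
  have hKtop : OffSum_K * OffSum_K ≠ ⊤ := ENNReal.mul_ne_top OffSum_K_ne_top OffSum_K_ne_top
  have hK0 : 0 ≤ K := by rw [hK]; exact ENNReal.toReal_nonneg
  have hKof : OffSum_K * OffSum_K = ENNReal.ofReal K := by rw [hK, ENNReal.ofReal_toReal hKtop]
  have hlim := tendsto_rpow_atTop (by norm_num : (0 : ℝ) < 74 / 2500)
  obtain ⟨T1, hT1⟩ := (hlim.eventually_ge_atTop (2 * K)).exists_forall_of_atTop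
  refine ⟨max 1 T1, le_max_left _ _, ?_⟩
  intro T M F w hT hsm hsz hl1
  have hT1' : 1 ≤ T := (le_max_left _ _).trans hT
  have hT0 : 0 < T := by linarith
  have hTK : 2 * K ≤ T ^ (74 / 2500 : ℝ) := hT1 T ((le_max_right _ _).trans hT)
  obtain ⟨Q, hQ⟩ : ∃ Q : ℝ, Q = T ^ (1 / 100 : ℝ) := ⟨_, rfl⟩
  rw [← hQ] at hsz hl1
  have hQ1 : 1 ≤ Q := by rw [hQ]; exact Real.one_le_rpow hT1' (by norm_num)
  have hQ0 : 0 < Q := by linarith
  have hne : ∀ q ∈ F, q.1 ≠ 0 ∧ q.2 ≠ 0 := fun q hq =>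
    ⟨Nat.ne_zero_of_mem_smoothNumbers (hsm q hq).1, Nat.ne_zero_of_mem_smoothNumbers (hsm q hq).2⟩
  -- the weights
  have hwa : ∑ q ∈ F, ENNReal.ofReal ‖wa (1 / 2) w q‖ ≤ ENNReal.ofReal (Q ^ (1 / 2 : ℝ) * Q) := by
    rw [← ENNReal.ofReal_sum_of_nonneg fun _ _ => norm_nonneg _]
    apply ENNReal.ofReal_le_ofReal
    calc ∑ q ∈ F, ‖wa (1 / 2) w q‖ ≤ ∑ q ∈ F, Q ^ (1 / 2 : ℝ) * ‖w q‖ := by
          refine Finset.sum_le_sum fun q hq => ?_
          unfold wa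
          rw [norm_mul, Complex.norm_real, Real.norm_of_nonneg (by positivity), mul_comm]
          refine mul_le_mul_of_nonneg_right ?_ (norm_nonneg _)
          apply Real.rpow_le_rpow (by positivity) _ (by norm_num)
          have h1 : (1 : ℝ) ≤ q.2 := by exact_mod_cast Nat.pos_of_ne_zero (hne q hq).2
          exact (div_le_self (Nat.cast_nonneg _) h1).trans (hsz q hq).1
      _ = Q ^ (1 / 2 : ℝ) * ∑ q ∈ F, ‖w q‖ := by rw [Finset.mul_sum]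
      _ ≤ Q ^ (1 / 2 : ℝ) * Q := mul_le_mul_of_nonneg_left hl1 (by positivity)
  -- rewriting the sum
  have e1 : ∀ k k' : ℚ × ℕ, (if Rough M k.2 ∧ Rough M k'.2 ∧ k.1 * k.2 ≠ k'.1 * k'.2 then
      ENNReal.ofReal (‖cs M F w k.1‖ * ‖cs M F w k'.1‖ *
        (2 * Real.exp (-π * (((k.1 : ℝ) * k.2) ^ 2 + ((k'.1 : ℝ) * k'.2) ^ 2) * Real.sin (1 / T)) /
          (π * |((k.1 : ℝ) * k.2) ^ 2 - ((k'.1 : ℝ) * k'.2) ^ 2| * Real.cos (1 / T)))) else 0) =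
      (if Rough M k.2 then ENNReal.ofReal ‖cs M F w k.1‖ else 0) *
        (if Rough M k'.2 then ENNReal.ofReal ‖cs M F w k'.1‖ *
          OffSum_H T ((k.1 : ℝ) * k.2) ((k'.1 : ℝ) * k'.2) else 0) := by
    intro k k'
    have hc : (k.1 * k.2 ≠ k'.1 * k'.2) ↔ ((k.1 : ℝ) * k.2 ≠ (k'.1 : ℝ) * k'.2) := by
      constructor
      · intro h h2
        apply h
        exact_mod_cast h2
      · intro h h2
        apply h
        exact_mod_cast h2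
    by_cases hr : Rough M k.2
    · by_cases hr' : Rough M k'.2
      · by_cases hkk : k.1 * k.2 ≠ k'.1 * k'.2
        · rw [if_pos ⟨hr, hr', hkk⟩, if_pos hr, if_pos hr']
          unfold OffSum_H
          rw [if_pos (hc.mp hkk), ← ENNReal.ofReal_mul (norm_nonneg _),
            ← ENNReal.ofReal_mul (norm_nonneg _)]
          congr 1
          ring
        · rw [if_neg (fun h => hkk h.2.2), if_pos hr, if_pos hr']
          unfold OffSum_H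
          rw [if_neg (fun h => hkk (hc.mpr h))]
          simp
      · rw [if_neg (fun h => hr' h.2.1), if_neg hr']
        simp
    · rw [if_neg (fun h => hr h.1), if_neg hr]
      simp
  simp_rw [e1]
  simp_rw [ENNReal.tsum_mul_left]
  obtain ⟨G1, hG1⟩ : ∃ G1 : ℝ → ENNReal, G1 = fun u => ∑' k' : ℚ × ℕ,
      (if Rough M k'.2 then ENNReal.ofReal ‖cs M F w k'.1‖ *
        OffSum_H T u ((k'.1 : ℝ) * k'.2) else 0) := ⟨_, rfl⟩
  have hG1le : ∀ u, G1 u ≤ ∑ q' ∈ F, ENNReal.ofReal ‖wa (1 / 2) w q'‖ *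
      ∑' n' : ℕ, (if n' ≠ 0 then OffSum_H T u ((n' : ℝ) * q'.1 / q'.2) else 0) := by
    intro u
    rw [hG1]
    exact OffSum_push hsm (fun v => OffSum_H T u v)
  have e2 : ∀ k : ℚ × ℕ, (if Rough M k.2 then ENNReal.ofReal ‖cs M F w k.1‖ else 0) *
      ∑' k' : ℚ × ℕ, (if Rough M k'.2 then ENNReal.ofReal ‖cs M F w k'.1‖ *
        OffSum_H T ((k.1 : ℝ) * k.2) ((k'.1 : ℝ) * k'.2) else 0) =
      (if Rough M k.2 then ENNReal.ofReal ‖cs M F w k.1‖ * G1 ((k.1 : ℝ) * k.2) else 0) := by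
    intro k
    rw [hG1]
    split_ifs
    · rfl
    · simp
  simp_rw [e2]
  refine (OffSum_push hsm G1).trans ?_
  have h3 : ∀ q ∈ F, ∑' n : ℕ, (if n ≠ 0 then G1 ((n : ℝ) * q.1 / q.2) else 0) ≤
      ENNReal.ofReal (Q ^ (1 / 2 : ℝ) * Q) *
        (ENNReal.ofReal (2 * Q ^ 3 * (Q ^ 4 * T) ^ (1 / 100 : ℝ)) * (OffSum_K * OffSum_K)) := by
    intro q hq
    calc ∑' n : ℕ, (if n ≠ 0 then G1 ((n : ℝ) * q.1 / q.2) else 0)
        ≤ ∑' n : ℕ, ∑ q' ∈ F, ENNReal.ofReal ‖wa (1 / 2) w q'‖ * (if n ≠ 0 then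
          ∑' n' : ℕ, (if n' ≠ 0 then
            OffSum_H T ((n : ℝ) * q.1 / q.2) ((n' : ℝ) * q'.1 / q'.2) else 0) else 0) := by
          refine ENNReal.tsum_le_tsum fun n => ?_
          by_cases hn : n ≠ 0
          · simp only [if_pos hn]
            exact hG1le _
          · rw [if_neg hn]
            exact zero_le
      _ = ∑ q' ∈ F, ENNReal.ofReal ‖wa (1 / 2) w q'‖ * ∑' n : ℕ, (if n ≠ 0 then
          ∑' n' : ℕ, (if n' ≠ 0 then
            OffSum_H T ((n : ℝ) * q.1 / q.2) ((n' : ℝ) * q'.1 / q'.2) else 0) else 0) := by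
          rw [Summable.tsum_finsetSum (fun _ _ => ENNReal.summable)]
          refine Finset.sum_congr rfl fun q' _ => ?_
          rw [ENNReal.tsum_mul_left]
      _ ≤ ∑ q' ∈ F, ENNReal.ofReal ‖wa (1 / 2) w q'‖ *
          (ENNReal.ofReal (2 * Q ^ 3 * (Q ^ 4 * T) ^ (1 / 100 : ℝ)) * (OffSum_K * OffSum_K)) := by
          refine Finset.sum_le_sum fun q' hq' => mul_le_mul_right ?_ _
          exact OffSum_pair hT1' hQ1 (hne q hq).1 (hne q hq).2 (hne q' hq').1 (hne q' hq').2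
            (hsz q hq).1 (hsz q hq).2 (hsz q' hq').1 (hsz q' hq').2
      _ ≤ _ := by
          rw [← Finset.sum_mul]
          exact mul_le_mul_left hwa _
  calc ∑ q ∈ F, ENNReal.ofReal ‖wa (1 / 2) w q‖ *
      ∑' n : ℕ, (if n ≠ 0 then G1 ((n : ℝ) * q.1 / q.2) else 0)
      ≤ ∑ q ∈ F, ENNReal.ofReal ‖wa (1 / 2) w q‖ * (ENNReal.ofReal (Q ^ (1 / 2 : ℝ) * Q) *
        (ENNReal.ofReal (2 * Q ^ 3 * (Q ^ 4 * T) ^ (1 / 100 : ℝ)) * (OffSum_K * OffSum_K))) :=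
        Finset.sum_le_sum fun q hq => mul_le_mul_right (h3 q hq) _
    _ ≤ ENNReal.ofReal (Q ^ (1 / 2 : ℝ) * Q) * (ENNReal.ofReal (Q ^ (1 / 2 : ℝ) * Q) *
        (ENNReal.ofReal (2 * Q ^ 3 * (Q ^ 4 * T) ^ (1 / 100 : ℝ)) * (OffSum_K * OffSum_K))) := by
        rw [← Finset.sum_mul]
        exact mul_le_mul_left hwa _
    _ = ENNReal.ofReal (Q ^ (1 / 2 : ℝ) * Q * (Q ^ (1 / 2 : ℝ) * Q *
        (2 * Q ^ 3 * (Q ^ 4 * T) ^ (1 / 100 : ℝ) * K))) := by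
        rw [hKof, ← ENNReal.ofReal_mul (by positivity), ← ENNReal.ofReal_mul (by positivity),
          ← ENNReal.ofReal_mul (by positivity)]
    _ ≤ _ := by
        apply ENNReal.ofReal_le_ofReal
        have hQn : ∀ m : ℕ, Q ^ m = T ^ ((m : ℝ) / 100) := by
          intro m
          rw [hQ, ← Real.rpow_natCast, ← Real.rpow_mul hT0.le]
          congr 1
          ring
        have hQ2 : Q ^ (1 / 2 : ℝ) * Q * (Q ^ (1 / 2 : ℝ) * Q) = Q ^ 3 := by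
          have : Q ^ (1 / 2 : ℝ) * Q ^ (1 / 2 : ℝ) = Q := by
            rw [← Real.rpow_add hQ0]
            norm_num
          calc Q ^ (1 / 2 : ℝ) * Q * (Q ^ (1 / 2 : ℝ) * Q)
              = (Q ^ (1 / 2 : ℝ) * Q ^ (1 / 2 : ℝ)) * Q ^ 2 := by ring
            _ = Q ^ 3 := by rw [this]; ring
        have hA : (Q ^ 4 * T) ^ (1 / 100 : ℝ) = T ^ (26 / 2500 : ℝ) := by
          have h4 : Q ^ 4 * T = T ^ (104 / 100 : ℝ) := by
            rw [hQn 4]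
            nth_rewrite 2 [← Real.rpow_one T]
            rw [← Real.rpow_add hT0]
            norm_num
          rw [h4, ← Real.rpow_mul hT0.le]
          norm_num
        calc Q ^ (1 / 2 : ℝ) * Q * (Q ^ (1 / 2 : ℝ) * Q *
              (2 * Q ^ 3 * (Q ^ 4 * T) ^ (1 / 100 : ℝ) * K))
            = (Q ^ (1 / 2 : ℝ) * Q * (Q ^ (1 / 2 : ℝ) * Q)) * Q ^ 3 *
              (Q ^ 4 * T) ^ (1 / 100 : ℝ) * (2 * K) := by ring
          _ = Q ^ 6 * T ^ (26 / 2500 : ℝ) * (2 * K) := by rw [hQ2, hA]; ring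
          _ ≤ Q ^ 6 * T ^ (26 / 2500 : ℝ) * T ^ (74 / 2500 : ℝ) :=
              mul_le_mul_of_nonneg_left hTK (by positivity)
          _ = T ^ (1 / 10 : ℝ) := by
              rw [hQn 6, ← Real.rpow_add hT0, ← Real.rpow_add hT0]
              norm_num

end Pool.Agent.GH
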