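import Pool.Agent.Lib.MP_69b2e4_nt.GH.Basic

/-! The parameter system: definitions for the second half of the proof (NOT a task). -/

set_option autoImplicit false

namespace Pool.Agent.GH

open Complex MeasureTheory Finset
open scoped Real ComplexConjugate

/-- The parameters `k, θ, T`, the bound `p0` of the small primes, and the coarse blocks
`R 0, ..., R J` with the truncation lengths `l j` and upper ends `N j`. -/
structure Sys where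
  k : ℝ
  θ : ℝ
  T : ℝ
  p0 : ℕ
  J : ℕ
  R : ℕ → Finset ℕ
  l : ℕ → ℕ
  N : ℕ → ℝ

namespace Sys

variable (S : Sys)

noncomputable def L : ℝ := Real.log S.T

noncomputable def A : ℝ := 1 / S.θ ^ 3

/-- the length of the windows -/
noncomputable def h : ℝ := S.A / S.L

noncomputable def M : ℕ := Mof S.θ S.T

noncomputable def al : ℝ := (S.k + 1) / 2

noncomputable def be : ℝ := S.k / 2

/-- the small primes -/
noncomputable def R0 : Finset ℕ := (Nat.primesBelow S.M).filter (· ≤ S.p0)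

open Classical in
/-- the fine primes -/
noncomputable def Rf : Finset ℕ :=
  (Nat.primesBelow S.M).filter (fun p => S.θ ^ 5 * S.L < Real.log p)

noncomputable def lf : ℕ := ⌊1 / (1000 * S.θ)⌋₊

/-- threshold for the size of the prime polynomials -/
noncomputable def lam (j : ℕ) : ℝ := S.l j / (10 * (S.k + 1))

/-- the size of everything -/
noncomputable def Lam : ℝ := Real.exp (S.k ^ 2 * ∑ j ∈ Finset.range (S.J + 1), sR (S.R j))

noncomputable def Vc (χ : ℕ →*₀ ℂ) : ℂ :=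
  ∏ j ∈ Finset.range (S.J + 1), Ex (S.l j) (-S.al * PS (S.R j) χ)

noncomputable def V (χ : ℕ →*₀ ℂ) : ℂ := S.Vc χ * Ex S.lf (-(1 / 2 : ℝ) * PS S.Rf χ)

noncomputable def Y (χ : ℕ →*₀ ℂ) : ℂ :=
  ∏ j ∈ Finset.range (S.J + 1), Ex (S.l j) (-S.be * PS (S.R j) χ)

/-- `|Y|²` on the line -/
noncomputable def yf (t : ℝ) : ℝ := ‖S.Y (nC (1 / 2 + t * I))‖ ^ 2

/-- `|V|²` on the line -/
noncomputable def vf (t : ℝ) : ℝ := ‖S.V (nC (1 / 2 + t * I))‖ ^ 2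

/-- `|V_c|⁴` on the line -/
noncomputable def kf (t : ℝ) : ℝ := ‖S.Vc (nC (1 / 2 + t * I))‖ ^ 4

/-- the window integral -/
noncomputable def Jf (t : ℝ) : ℝ := ∫ u in t..(t + S.h), ‖riemannZeta (1 / 2 + u * I)‖ * S.vf u

/-- some prime polynomial is large -/
def bad : Set ℝ := {t | ∃ j ≤ S.J, S.lam j < ‖PS (S.R j) (nC (1 / 2 + t * I))‖}

end Sys

/-- the local mean square of zeta over a square of side `6h` around `1/2+it` -/
noncomputable def M2 (h t : ℝ) : ℝ := 1 / h ^ 2 *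
  ∫ a in (-(3 * h))..(3 * h), ∫ b in (-(3 * h))..(3 * h), ‖riemannZeta (1 / 2 + t * I + a + b * I)‖ ^ 2

/-- no zero `1/2+iu` with `t < u < t+h` -/
def noz (h : ℝ) : Set ℝ := {t | ∀ u : ℝ, t < u → u < t + h → riemannZeta (1 / 2 + u * I) ≠ 0}

/-- The numerical properties of the parameter system, for a large constant `C` and a small `c`. -/
structure Good (S : Sys) (C c : ℝ) : Prop where
  k_pos : 0 < S.k
  θ_pos : 0 < S.θ
  θ_le : S.θ ≤ 1 / 100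
  C_pos : 0 ≤ C
  c_pos : 0 < c
  T_ge : 1 ≤ S.T
  L_ge : 1 / S.θ ^ 10 ≤ S.L
  p0_ge : 2 ≤ S.p0
  p0_le : Real.log S.p0 ≤ S.θ ^ 5 * S.L
  prime : ∀ j ≤ S.J, ∀ p ∈ S.R j, p.Prime ∧ S.p0 < p ∧ Real.log p ≤ S.θ ^ 5 * S.L ∧ (p : ℝ) ≤ S.N j
  disj : ∀ i ≤ S.J, ∀ j ≤ S.J, i ≠ j → Disjoint (S.R i) (S.R j)
  cover : ∀ p : ℕ, p.Prime → S.p0 < p → Real.log p ≤ S.θ ^ 5 * S.L → ∃ j ≤ S.J, p ∈ S.R j
  N_ge : ∀ j ≤ S.J, 1 ≤ S.N j
  l_ge : ∀ j ≤ S.J, 1 ≤ S.l j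
  trunc : ∑ j ∈ Finset.range (S.J + 1), (2 : ℝ)⁻¹ ^ (S.l j) * Real.exp (C * (sR (S.R j) + 1)) ≤ S.θ ^ 2
  half : ∑ j ∈ Finset.range (S.J + 1), (2 : ℝ)⁻¹ ^ ((S.l j : ℝ) / 2) ≤ 1 / 2
  truncf : (2 : ℝ)⁻¹ ^ S.lf * Real.exp (C * (sR S.Rf + 1)) ≤ 1
  len : ∑ j ∈ Finset.range (S.J + 1), ((S.l j : ℝ) * Real.log (S.N j) + S.k + 10) ≤ S.L / 4000
  large : ∑ j ∈ Finset.range (S.J + 1), Real.exp (C * (sR (S.R j) + 1)) *
    (2 * S.l j * sR (S.R j) / S.lam j ^ 2) ^ (S.l j) ≤ S.θ ^ 2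
  lam_ge : c * S.L ^ (S.k ^ 2) ≤ S.Lam
  logp : ∑ p ∈ Nat.primesBelow S.M, Real.log p / p ≤ 2 * S.θ * S.L
  logc : ∑ j ∈ Finset.range (S.J + 1), ∑ p ∈ S.R j, Real.log p / p ≤ 2 * S.θ ^ 5 * S.L
  sf : sR S.Rf ≤ 5 * Real.log (1 / S.θ)

end Pool.Agent.GH
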