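import Pool.Agent.Lib.MP_69b2e4_nt.Mg.G039
import Pool.Agent.Lib.MP_69b2e4_nt.Mg.G040

/-! TASK PW. The window mean square.
Proof. Let `G = GG T F w` (integrable: `integrable_gg` with `a = 0`, translations). As in PSh (with `a = 0`) `∫ G(y) e^{iuy} dy = WW F w u * exp(-(ang/4) I) * xi T 0 u`. By Fubini
`∫_t^{t+h} (∫ G(y) e^{iuy} dy) du = ∫ G(y) e^{ity} (e^{ihy}-1)/(iy) dy` (the factor is `∫_0^h e^{ivy} dv`, bounded by `h`). `plancherel_le` for
`f(y) = G(y) ∫_0^h e^{ivy} dv`: the left side is at most `2π ∫ |G|² |∫_0^h e^{ivy}dv|²`, and `|∫_0^h e^{ivy} dv|² ≤ min(h², 4/y²) ≤ KK h y`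
(if `|hy| ≤ 2`: `1 ≤ 5/(1+h²y²)`; if `|hy| > 2`: `4/(hy)² ≤ 5/(1+(hy)²)`). `KK h` is even and `‖G(-y)‖ = ‖G(y)‖` (`gg_neg` and `herm`, as in PSh), so `∫_ℝ = 2 ∫_0^∞`. -/

set_option autoImplicit false

namespace Pool.Agent.GH

open Complex MeasureTheory Finset
open scoped Real ComplexConjugate

/-- The integrand of one term. -/
theorem PW_pint_term {T : ℝ} (hT : 1 ≤ T) {a : ℝ} (ha : |a| < 1 / 2) (b : ℝ) :
    Integrable fun y : ℝ => (Real.exp (a * y) : ℂ) * gg T (y + b) := by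
  have h := (integrable_gg hT ha).comp_add_right b
  have h2 := h.const_mul ((Real.exp (-(a * b)) : ℝ) : ℂ)
  refine h2.congr (Filter.Eventually.of_forall fun y => ?_)
  show ((Real.exp (-(a * b)) : ℝ) : ℂ) * ((Real.exp (a * (y + b)) : ℂ) * gg T (y + b)) = _
  rw [← mul_assoc, ← Complex.ofReal_mul, ← Real.exp_add]
  congr 3
  ring

/-- The Fourier transform of one term. -/
theorem PW_pft_term {T : ℝ} (hT : 1 ≤ T) {a : ℝ} (ha : |a| < 1 / 2) (b t : ℝ) :
    ∫ y : ℝ, cexp (t * y * I) * ((Real.exp (a * y) : ℂ) * gg T (y + b)) =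
      cexp (-(a + t * I) * b) * (cexp (-(ang T / 2) * I * (1 / 2 + a)) * xi T a t) := by
  rw [← gg_ft hT ha t, ← integral_const_mul]
  rw [← integral_add_right_eq_self (fun y : ℝ => cexp (-(a + t * I) * b) *
    (cexp ((a + t * I) * y) * gg T y)) b]
  refine integral_congr_ae (Filter.Eventually.of_forall fun y => ?_)
  show cexp (t * y * I) * ((Real.exp (a * y) : ℂ) * gg T (y + b)) =
    cexp (-(a + t * I) * b) * (cexp ((a + t * I) * ((y + b : ℝ) : ℂ)) * gg T (y + b))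
  rw [← mul_assoc, ← mul_assoc, Complex.ofReal_exp, ← Complex.exp_add, ← Complex.exp_add]
  congr 2
  push_cast
  ring

/-- The weighted sum. -/
theorem PW_pint {T : ℝ} (hT : 1 ≤ T) {a : ℝ} (ha : |a| < 1 / 2) (F : Finset (ℕ × ℕ))
    (w : ℕ × ℕ → ℂ) :
    Integrable fun y : ℝ => (Real.exp (a * y) : ℂ) * GG T F w y := by
  have h : (fun y : ℝ => (Real.exp (a * y) : ℂ) * GG T F w y) =
      fun y : ℝ => ∑ q ∈ F, w q * ((Real.exp (a * y) : ℂ) *
        gg T (y + (Real.log q.1 - Real.log q.2))) := by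
    funext y
    unfold GG
    rw [Finset.mul_sum]
    refine Finset.sum_congr rfl fun q _ => ?_
    ring
  rw [h]
  exact integrable_finsetSum _ fun q _ => (PW_pint_term hT ha _).const_mul _

theorem PW_pft {T : ℝ} (hT : 1 ≤ T) {a : ℝ} (ha : |a| < 1 / 2) (F : Finset (ℕ × ℕ))
    (w : ℕ × ℕ → ℂ) (hF : ∀ q ∈ F, q.1 ≠ 0 ∧ q.2 ≠ 0) (t : ℝ) :
    ∫ y : ℝ, cexp (t * y * I) * ((Real.exp (a * y) : ℂ) * GG T F (wa a w) y) =
      cexp (-(ang T / 2) * I * (1 / 2 + a)) * (xi T a t * WW F w t) := by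
  have h : (fun y : ℝ => cexp (t * y * I) * ((Real.exp (a * y) : ℂ) * GG T F (wa a w) y)) =
      fun y : ℝ => ∑ q ∈ F, wa a w q * (cexp (t * y * I) * ((Real.exp (a * y) : ℂ) *
        gg T (y + (Real.log q.1 - Real.log q.2)))) := by
    funext y
    unfold GG
    rw [Finset.mul_sum, Finset.mul_sum]
    refine Finset.sum_congr rfl fun q _ => ?_
    ring
  rw [h, integral_finsetSum]
  · unfold WW
    rw [Finset.mul_sum, Finset.mul_sum]
    refine Finset.sum_congr rfl fun q hq => ?_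
    rw [integral_const_mul, PW_pft_term hT ha]
    obtain ⟨h1, h2⟩ := hF q hq
    have h1' : (0 : ℝ) < q.1 := by exact_mod_cast Nat.pos_of_ne_zero h1
    have h2' : (0 : ℝ) < q.2 := by exact_mod_cast Nat.pos_of_ne_zero h2
    have h3 : ((((q.1 : ℝ) / q.2) ^ a : ℝ) : ℂ) = cexp (a * (Real.log q.1 - Real.log q.2)) := by
      rw [Real.rpow_def_of_pos (div_pos h1' h2'), Real.log_div h1'.ne' h2'.ne']
      push_cast
      rw [mul_comm]
    unfold wa
    rw [h3]
    have h4 : cexp (a * (Real.log q.1 - Real.log q.2)) *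
        cexp (-(a + t * I) * ((Real.log q.1 - Real.log q.2 : ℝ) : ℂ)) =
        cexp ((t * (Real.log q.2 - Real.log q.1) : ℝ) * I) := by
      rw [← Complex.exp_add]
      congr 1
      push_cast
      ring
    calc w q * cexp (a * (Real.log q.1 - Real.log q.2)) *
        (cexp (-(a + t * I) * ((Real.log q.1 - Real.log q.2 : ℝ) : ℂ)) *
          (cexp (-(ang T / 2) * I * (1 / 2 + a)) * xi T a t)) =
        w q * (cexp (a * (Real.log q.1 - Real.log q.2)) *
        cexp (-(a + t * I) * ((Real.log q.1 - Real.log q.2 : ℝ) : ℂ))) *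
          (cexp (-(ang T / 2) * I * (1 / 2 + a)) * xi T a t) := by ring
      _ = _ := by rw [h4]; ring
  · intro q _
    refine Integrable.const_mul ?_ _
    refine ((PW_pint_term hT ha (Real.log q.1 - Real.log q.2)).bdd_mul (c := 1) ?_ ?_)
    · exact (by fun_prop : Continuous fun y : ℝ => cexp (t * y * I)).aestronglyMeasurable
    · refine Filter.Eventually.of_forall fun y => ?_
      have : (t * y * I : ℂ) = ((t * y : ℝ) : ℂ) * I := by push_cast; ring
      rw [this, Complex.norm_exp_ofReal_mul_I]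

theorem PW_pnorm_exp (T a : ℝ) : ‖cexp (-(ang T / 2) * I * (1 / 2 + a))‖ = 1 := by
  have : (-(ang T / 2) * I * (1 / 2 + a) : ℂ) = ((-(ang T / 2) * (1 / 2 + a) : ℝ) : ℂ) * I := by
    push_cast; ring
  rw [this, Complex.norm_exp_ofReal_mul_I]

/-- The reflection. -/
theorem PW_pneg {T : ℝ} (hT : 1 ≤ T) (a : ℝ) (F : Finset (ℕ × ℕ))
    (w : ℕ × ℕ → ℂ) (h : Herm F w) (v : ℝ) :
    ‖GG T F (wa a w) (-v)‖ = ‖GG T F (wa (-a) w) v‖ := by
  have h1 : GG T F (wa a w) (-v) = omh T * conj (GG T F (wa (-a) w) v) := by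
    unfold GG
    rw [map_sum, Finset.mul_sum]
    refine Finset.sum_nbij' Prod.swap Prod.swap (fun q hq => (h.1 q hq).2.2)
      (fun q hq => (h.1 q hq).2.2) (fun q _ => Prod.swap_swap q) (fun q _ => Prod.swap_swap q) ?_
    intro q hq
    have h2 : -v + (Real.log q.1 - Real.log q.2) =
        -(v + (Real.log q.swap.1 - Real.log q.swap.2)) := by
      rw [Prod.fst_swap, Prod.snd_swap]; ring
    rw [h2, gg_neg hT, map_mul]
    have h3 : wa a w q = conj (wa (-a) w q.swap) := by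
      unfold wa
      rw [map_mul, h.2 q hq, Complex.conj_conj, Complex.conj_ofReal, Prod.fst_swap, Prod.snd_swap,
        Real.rpow_neg (by positivity), ← Real.inv_rpow (by positivity), inv_div]
    rw [h3]
    ring
  rw [h1, norm_mul, norm_omh, one_mul, Complex.norm_conj]

theorem PW_wa_zero (w : ℕ × ℕ → ℂ) : wa 0 w = w := by
  funext q
  unfold wa
  rw [Real.rpow_zero]; simp

/-- The Fourier kernel of the window. -/
noncomputable def PW_E (h y : ℝ) : ℂ := ∫ v in (0 : ℝ)..h, cexp (v * y * I)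

theorem PW_norm_cexp (u y : ℝ) : ‖cexp (u * y * I)‖ = 1 := by
  have : (u * y * I : ℂ) = ((u * y : ℝ) : ℂ) * I := by push_cast; ring
  rw [this, Complex.norm_exp_ofReal_mul_I]

theorem PW_E_le {h : ℝ} (hh : 0 < h) (y : ℝ) : ‖PW_E h y‖ ≤ h := by
  unfold PW_E
  have := intervalIntegral.norm_integral_le_of_norm_le_const (a := (0 : ℝ)) (b := h) (C := 1)
    (f := fun v : ℝ => cexp (v * y * I)) (fun v _ => (PW_norm_cexp v y).le)
  rw [sub_zero, abs_of_pos hh, one_mul] at this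
  exact this

theorem PW_E_eq {h y : ℝ} (hy : y ≠ 0) : PW_E h y = (cexp (h * y * I) - 1) / (y * I) := by
  unfold PW_E
  have hc : (y * I : ℂ) ≠ 0 := mul_ne_zero (by exact_mod_cast hy) Complex.I_ne_zero
  have := integral_exp_mul_complex (a := (0 : ℝ)) (b := h) hc
  have h2 : ∀ v : ℝ, cexp (v * y * I) = cexp (y * I * v) := fun v => by congr 1; ring
  simp_rw [h2]
  rw [this]
  simp [mul_comm, mul_left_comm]

theorem PW_E_sq {h : ℝ} (hh : 0 < h) (y : ℝ) : ‖PW_E h y‖ ^ 2 ≤ KK h y := by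
  unfold KK
  have hpos : 0 < 1 + h ^ 2 * y ^ 2 := by positivity
  rw [le_div_iff₀ hpos]
  have h1 := PW_E_le hh y
  have h0 := norm_nonneg (PW_E h y)
  by_cases hc : h ^ 2 * y ^ 2 ≤ 4
  · have : ‖PW_E h y‖ ^ 2 ≤ h ^ 2 := by nlinarith
    nlinarith [sq_nonneg ‖PW_E h y‖, sq_nonneg (h * y)]
  · have hy : y ≠ 0 := by rintro rfl; apply hc; norm_num
    have h2 : ‖PW_E h y‖ * |y| ≤ 2 := by
      rw [PW_E_eq hy, norm_div, norm_mul, Complex.norm_I, mul_one, Complex.norm_real,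
        Real.norm_eq_abs, div_mul_cancel₀ _ (abs_ne_zero.mpr hy)]
      calc ‖cexp (h * y * I) - 1‖ ≤ ‖cexp (h * y * I)‖ + ‖(1 : ℂ)‖ := norm_sub_le _ _
        _ = 2 := by rw [PW_norm_cexp, norm_one]; norm_num
    have h3 : ‖PW_E h y‖ ^ 2 * y ^ 2 ≤ 4 := by
      have : (‖PW_E h y‖ * |y|) ^ 2 ≤ 2 ^ 2 := by
        apply pow_le_pow_left₀ (by positivity) h2
      rw [mul_pow, sq_abs] at this
      linarith
    have h4 : ‖PW_E h y‖ ^ 2 ≤ h ^ 2 := by nlinarith
    have h5 : ‖PW_E h y‖ ^ 2 * (h ^ 2 * y ^ 2) ≤ 4 * h ^ 2 := by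
      nlinarith [sq_nonneg h]
    nlinarith

theorem PW_E_cont (h : ℝ) : Continuous (PW_E h) := by
  unfold PW_E
  apply intervalIntegral.continuous_parametric_intervalIntegral_of_continuous
  · fun_prop
  · exact continuous_const

theorem PW_swap {T : ℝ} (hT : 1 ≤ T) {h : ℝ} (hh : 0 < h) (F : Finset (ℕ × ℕ))
    (w : ℕ × ℕ → ℂ) (hF : ∀ q ∈ F, q.1 ≠ 0 ∧ q.2 ≠ 0) (hG : Integrable (GG T F w)) (t : ℝ) :
    cexp (-(ang T / 2) * I * (1 / 2 + (0 : ℝ))) * ∫ u in t..(t + h), xi T 0 u * WW F w u =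
      ∫ y : ℝ, cexp (t * y * I) * (PW_E h y * GG T F w y) := by
  have h1 : ∀ u : ℝ, cexp (-(ang T / 2) * I * (1 / 2 + (0 : ℝ))) * (xi T 0 u * WW F w u) =
      ∫ y : ℝ, cexp (u * y * I) * GG T F w y := by
    intro u
    have := PW_pft hT (a := 0) (by norm_num) F w hF u
    rw [PW_wa_zero] at this
    rw [← this]
    refine integral_congr_ae (Filter.Eventually.of_forall fun y => ?_)
    simp
  rw [← intervalIntegral.integral_const_mul]
  simp_rw [h1]
  rw [intervalIntegral.integral_of_le (by linarith)]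
  have hint : Integrable (Function.uncurry fun (u y : ℝ) => cexp (u * y * I) * GG T F w y)
      ((volume.restrict (Set.Ioc t (t + h))).prod volume) := by
    have h2 : Integrable (fun z : ℝ × ℝ => (1 : ℂ) * GG T F w z.2)
        ((volume.restrict (Set.Ioc t (t + h))).prod volume) :=
      (integrable_const (1 : ℂ)).mul_prod hG
    have h3 := h2.bdd_mul (c := 1) (f := fun z : ℝ × ℝ => cexp (z.1 * z.2 * I))
      (by fun_prop : Continuous fun z : ℝ × ℝ => cexp (z.1 * z.2 * I)).aestronglyMeasurable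
      (Filter.Eventually.of_forall fun z => (PW_norm_cexp z.1 z.2).le)
    refine h3.congr (Filter.Eventually.of_forall fun z => ?_)
    simp [Function.uncurry]
  rw [integral_integral_swap hint]
  refine integral_congr_ae (Filter.Eventually.of_forall fun y => ?_)
  show ∫ u in Set.Ioc t (t + h), cexp (u * y * I) * GG T F w y = _
  rw [integral_mul_const, ← intervalIntegral.integral_of_le (by linarith)]
  have h4 : ∫ u in t..(t + h), cexp (u * y * I) = cexp (t * y * I) * PW_E h y := by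
    unfold PW_E
    rw [← intervalIntegral.integral_const_mul]
    have h5 := intervalIntegral.integral_comp_add_right (a := (0 : ℝ)) (b := h)
      (fun u : ℝ => cexp (u * y * I)) t
    rw [zero_add, add_comm h t] at h5
    rw [← h5]
    refine intervalIntegral.integral_congr fun v _ => ?_
    show cexp (((v + t : ℝ) : ℂ) * y * I) = cexp (t * y * I) * cexp (v * y * I)
    rw [← Complex.exp_add]
    congr 1
    push_cast; ring
  rw [h4]
  ring

theorem window_planch {T : ℝ} (hT : 1 ≤ T) {h : ℝ} (hh : 0 < h) (F : Finset (ℕ × ℕ))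
    (w : ℕ × ℕ → ℂ) (hw : Herm F w) :
    ∫⁻ t : ℝ, ENNReal.ofReal (‖∫ u in t..(t + h), xi T 0 u * WW F w u‖ ^ 2) ≤
      ENNReal.ofReal (4 * π) *
        ∫⁻ y in Set.Ioi (0 : ℝ), ENNReal.ofReal (‖GG T F w y‖ ^ 2 * KK h y) := by
  have hF : ∀ q ∈ F, q.1 ≠ 0 ∧ q.2 ≠ 0 := fun q hq => ⟨(hw.1 q hq).1, (hw.1 q hq).2.1⟩
  have hG : Integrable (GG T F w) := by
    have := PW_pint hT (a := 0) (by norm_num) F w
    refine this.congr (Filter.Eventually.of_forall fun y => ?_)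
    simp
  have hf : Integrable fun y : ℝ => PW_E h y * GG T F w y :=
    hG.bdd_mul (c := h) (PW_E_cont h).aestronglyMeasurable
      (Filter.Eventually.of_forall fun y => PW_E_le hh y)
  have hpl := plancherel_le _ hf
  have h1 : ∀ t : ℝ, ‖∫ u in t..(t + h), xi T 0 u * WW F w u‖ ^ 2 =
      ‖∫ y : ℝ, cexp (t * y * I) * (PW_E h y * GG T F w y)‖ ^ 2 := by
    intro t
    rw [← PW_swap hT hh F w hF hG t, norm_mul, PW_pnorm_exp, one_mul]
  simp_rw [h1]
  refine hpl.trans ?_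
  have h2 : ∀ y : ℝ, ‖PW_E h y * GG T F w y‖ ^ 2 ≤ ‖GG T F w y‖ ^ 2 * KK h y := by
    intro y
    rw [norm_mul, mul_pow, mul_comm]
    exact mul_le_mul_of_nonneg_left (PW_E_sq hh y) (by positivity)
  have h3 : ∫⁻ y : ℝ, ENNReal.ofReal (‖PW_E h y * GG T F w y‖ ^ 2) ≤
      ∫⁻ y : ℝ, ENNReal.ofReal (‖GG T F w y‖ ^ 2 * KK h y) :=
    lintegral_mono fun y => ENNReal.ofReal_le_ofReal (h2 y)
  have h4 : ∫⁻ y in Set.Iic (0 : ℝ), ENNReal.ofReal (‖GG T F w y‖ ^ 2 * KK h y) =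
      ∫⁻ y in Set.Ioi (0 : ℝ), ENNReal.ofReal (‖GG T F w y‖ ^ 2 * KK h y) := by
    have hmp : MeasurePreserving (fun x : ℝ => -x) volume volume :=
      Measure.measurePreserving_neg volume
    have he : MeasurableEmbedding (fun x : ℝ => -x) := (MeasurableEquiv.neg ℝ).measurableEmbedding
    have := hmp.setLIntegral_comp_preimage_emb he
      (fun y => ENNReal.ofReal (‖GG T F w y‖ ^ 2 * KK h y)) (Set.Iic (0 : ℝ))
    rw [← this]
    have hpre : (fun x : ℝ => -x) ⁻¹' Set.Iic 0 = Set.Ici 0 := by ext x; simp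
    rw [hpre, setLIntegral_congr Ioi_ae_eq_Ici.symm]
    refine lintegral_congr fun y => ?_
    have h5 := PW_pneg hT 0 F w hw y
    rw [neg_zero, PW_wa_zero] at h5
    rw [h5]
    unfold KK
    rw [neg_sq]
  calc ENNReal.ofReal (2 * π) * ∫⁻ y : ℝ, ENNReal.ofReal (‖PW_E h y * GG T F w y‖ ^ 2)
      ≤ ENNReal.ofReal (2 * π) * ∫⁻ y : ℝ, ENNReal.ofReal (‖GG T F w y‖ ^ 2 * KK h y) := by
        gcongr
    _ = ENNReal.ofReal (2 * π) * ((∫⁻ y in Set.Ioi (0 : ℝ), ENNReal.ofReal (‖GG T F w y‖ ^ 2 * KK h y)) +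
        ∫⁻ y in Set.Ioi (0 : ℝ), ENNReal.ofReal (‖GG T F w y‖ ^ 2 * KK h y)) := by
        rw [← lintegral_add_compl _ (measurableSet_Ioi (a := (0 : ℝ))), Set.compl_Ioi, h4]
    _ = ENNReal.ofReal (4 * π) *
        ∫⁻ y in Set.Ioi (0 : ℝ), ENNReal.ofReal (‖GG T F w y‖ ^ 2 * KK h y) := by
        rw [← two_mul, ← mul_assoc]
        congr 1
        rw [← ENNReal.ofReal_ofNat 2, ← ENNReal.ofReal_mul (by positivity)]
        congr 1
        ring

end Pool.Agent.GH
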