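import Pool.Agent.Lib.MP_69b2e4_nt.Mg.G037
import Pool.Agent.Lib.MP_69b2e4_nt.Mg.G045

/-! TASK RM1. The second moment of the mollified Euler product over a block.
Write `P_i = PX R z_i w = ∑ u_{i,p} X_p`, `u_{i,p} = (p:ℂ)^(-(1/2+z_i))`; `|p^{-z}| ≤ e`, `‖u_{i,p}‖ ≤ e/√p`.
(a) `rm1_exp`: the exponential version. `‖Zt‖² exp(2Re(-a P_1)) exp(2Re(-a P_2)) = ∏_p ‖(1-u X_p)^{-1}‖² exp(2Re(c X_p))`, with
`u = p^{-σ} ≤ 2^{-1/4} ≤ 0.85` and `c = -a(u_{1,p}+u_{2,p})`, `‖c‖ ≤ 2ae/√p`. By `indep_primes` and `one_prime` (with `C0 = 2ae`) the integral is at most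
`∏ exp(‖u+c‖² + C(u³+‖c‖³))`. Here `u³ ≤ e³ p^{-3/2}` (as `|σ-1/2| log p ≤ 1`), `‖c‖³ ≤ C p^{-3/2}`, and
`‖u+c - (1-2a)p^{-1/2}‖ ≤ C δ log p/√p` (from `|p^{-z}-1| ≤ e|z| log p`), so `‖u+c‖² ≤ (1-2a)²/p + C δ log p/p` (use `δ log p ≤ 1`).
(b) truncation: by `norm_Ex_le_mul`, `‖Ex l (-aP_i)‖² ≤ ‖exp(-aP_i)‖² (1+ε_i)²`, `ε_i = 2^{-l} exp(3a‖P_i‖)`, so the integrand is at most
`U (1+ε_1)²(1+ε_2)²` with `U` the integrand of (a), and `(1+ε_1)²(1+ε_2)² ≤ 1 + 2^{-l} · 15 exp(12 a(‖P_1‖+‖P_2‖))`.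
`E U ≤ exp((1-2a)² s + C e)`; `E U exp(12a(..)) ≤ (E U²)^{1/2} (E exp(24a(‖P_1‖+‖P_2‖)))^{1/2}` and
`U ≤ C-power`: `‖Zt‖² ≤ ∏ (1-p^{-σ})^{-2}` is NOT bounded by `exp(Cs)`, so use for `E U²`: `U² = ∏ ‖(1-uX)^{-1}‖⁴ exp(4Re(cX))`, and
`‖(1-uX)^{-1}‖⁴ = ‖(1-uX)^{-1}‖² exp(2 Re(uX)) · exp(O(u²))` (`‖(1-z)^{-1}‖² ≤ exp(2Re z + K‖z‖²)` for `‖z‖ ≤ 0.85`), so by `one_prime`
`E U² ≤ exp(C (s + ∑ p^{-2σ})) ≤ exp(C s)` (all exponents are `O(1/p)`). Together: error term `≤ 2^{-l} exp(C(s+1))`, and it may be multiplied by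
`exp((1-2a)² s + C e) ≥ 1`. -/

set_option autoImplicit false

namespace Pool.Agent.GH

open Complex MeasureTheory Finset
open scoped Real ComplexConjugate

private theorem rm1_v {p : ℕ} (hp : p.Prime) {δ : ℝ} {z : ℂ} (hz : ‖z‖ ≤ δ)
    (hδ : δ * Real.log p ≤ 1) :
    ‖(p : ℂ) ^ (-(1 / 2 + z)) - (((p : ℝ) ^ (-(1 / 2 : ℝ)) : ℝ) : ℂ)‖ ≤
      2 * (δ * Real.log p) * (p : ℝ) ^ (-(1 / 2 : ℝ)) := by
  have hp0 : (p : ℂ) ≠ 0 := by exact_mod_cast hp.ne_zero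
  have hpp : (0 : ℝ) < p := by exact_mod_cast hp.pos
  have hlog : 0 ≤ Real.log p := Real.log_natCast_nonneg p
  have h1 : (p : ℂ) ^ (-(1 / 2 + z)) = (((p : ℝ) ^ (-(1 / 2 : ℝ)) : ℝ) : ℂ) *
      cexp (-(Real.log p * z)) := by
    have h2 : (((p : ℝ) ^ (-(1 / 2 : ℝ)) : ℝ) : ℂ) = (p : ℂ) ^ (-(1 / 2) : ℂ) := by
      rw [Complex.ofReal_cpow hpp.le]
      push_cast
      rfl
    have h3 : -(1 / 2 + z) = -(1 / 2) + -z := by ring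
    rw [h2, h3, Complex.cpow_add _ _ hp0]
    congr 1
    rw [Complex.cpow_def_of_ne_zero hp0, ← Complex.ofReal_natCast, ← Complex.ofReal_log hpp.le]
    congr 1
    ring
  have h4 : ‖-((Real.log p : ℂ) * z)‖ ≤ δ * Real.log p := by
    rw [norm_neg, norm_mul, Complex.norm_real, Real.norm_of_nonneg hlog, mul_comm]
    gcongr
  have h5 : ‖cexp (-(Real.log p * z)) - 1‖ ≤ 2 * (δ * Real.log p) :=
    (Complex.norm_exp_sub_one_le (h4.trans hδ)).trans (by gcongr)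
  have h6 : (p : ℂ) ^ (-(1 / 2 + z)) - (((p : ℝ) ^ (-(1 / 2 : ℝ)) : ℝ) : ℂ) =
      (((p : ℝ) ^ (-(1 / 2 : ℝ)) : ℝ) : ℂ) * (cexp (-(Real.log p * z)) - 1) := by
    rw [h1]
    ring
  rw [h6, norm_mul, Complex.norm_real, Real.norm_of_nonneg (by positivity), mul_comm]
  gcongr

private theorem rm1_u {p : ℕ} (hp : p.Prime) {δ σ : ℝ} (hσ : |σ - 1 / 2| ≤ δ)
    (hδ : δ * Real.log p ≤ 1) :
    ‖(((p : ℝ) ^ (-σ) : ℝ) : ℂ) - (((p : ℝ) ^ (-(1 / 2 : ℝ)) : ℝ) : ℂ)‖ ≤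
      2 * (δ * Real.log p) * (p : ℝ) ^ (-(1 / 2 : ℝ)) := by
  have hz : ‖((σ - 1 / 2 : ℝ) : ℂ)‖ ≤ δ := by
    rw [Complex.norm_real]
    exact hσ
  have h := rm1_v hp hz hδ
  have hpp : (0 : ℝ) < p := by exact_mod_cast hp.pos
  have h1 : (((p : ℝ) ^ (-σ) : ℝ) : ℂ) = (p : ℂ) ^ (-(1 / 2 + ((σ - 1 / 2 : ℝ) : ℂ))) := by
    rw [Complex.ofReal_cpow hpp.le]
    push_cast
    congr 1
    ring
  rw [h1]
  exact h

private theorem rm1_r {p : ℕ} (hp : p.Prime) :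
    0 < (p : ℝ) ^ (-(1 / 2 : ℝ)) ∧ (p : ℝ) ^ (-(1 / 2 : ℝ)) ≤ 1 ∧
      ((p : ℝ) ^ (-(1 / 2 : ℝ))) ^ 2 = 1 / p ∧
      ((p : ℝ) ^ (-(1 / 2 : ℝ))) ^ 3 = (p : ℝ) ^ (-(3 / 2 : ℝ)) := by
  have hpp : (0 : ℝ) < p := by exact_mod_cast hp.pos
  have hp1 : (1 : ℝ) ≤ p := by exact_mod_cast hp.one_le
  refine ⟨by positivity, Real.rpow_le_one_of_one_le_of_nonpos hp1 (by norm_num), ?_, ?_⟩
  · rw [← Real.rpow_natCast, ← Real.rpow_mul hpp.le]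
    norm_num
    rw [Real.rpow_neg_one]
  · rw [← Real.rpow_natCast, ← Real.rpow_mul hpp.le]
    norm_num

private theorem rm1_u_le {p : ℕ} (hp : p.Prime) {σ : ℝ} (hσ : 1 / 4 ≤ σ) :
    (p : ℝ) ^ (-σ) ≤ 17 / 20 := by
  have hp2 : (2 : ℝ) ≤ p := by exact_mod_cast hp.two_le
  have h1 : (p : ℝ) ^ (-σ) ≤ (2 : ℝ) ^ (-(1 / 4 : ℝ)) := by
    calc (p : ℝ) ^ (-σ) ≤ (p : ℝ) ^ (-(1 / 4 : ℝ)) :=
          Real.rpow_le_rpow_of_exponent_le (by linarith) (by linarith)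
      _ ≤ (2 : ℝ) ^ (-(1 / 4 : ℝ)) :=
          Real.rpow_le_rpow_of_nonpos (by norm_num) hp2 (by norm_num)
  refine h1.trans ?_
  have h2 : ((2 : ℝ) ^ (-(1 / 4 : ℝ))) ^ 4 = 1 / 2 := by
    rw [← Real.rpow_natCast, ← Real.rpow_mul (by norm_num)]
    norm_num
  by_contra hcon
  have h3 := not_le.mp hcon
  have h4 : (17 / 20 : ℝ) ^ 4 < ((2 : ℝ) ^ (-(1 / 4 : ℝ))) ^ 4 :=
    pow_lt_pow_left₀ h3 (by norm_num) (by norm_num)
  rw [h2] at h4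
  norm_num at h4

/-- The general form: linear coefficients `c p`. -/
private theorem rm1_gen (C0 : ℝ) : ∃ C1 : ℝ, 0 ≤ C1 ∧ ∀ (R : Finset ℕ) (σ : ℝ) (c : ℕ → ℂ),
    (∀ p ∈ R, p.Prime) → 1 / 4 ≤ σ → (∀ p ∈ R, ‖c p‖ ≤ C0) →
    ∫ w, ‖Zt R σ w‖ ^ 2 * Real.exp (2 * (∑ p ∈ R, c p * X p w).re) ∂mu ≤
      Real.exp (∑ p ∈ R, (‖(((p : ℝ) ^ (-σ) : ℝ) : ℂ) + c p‖ ^ 2 +
        C1 * (((p : ℝ) ^ (-σ)) ^ 3 + ‖c p‖ ^ 3))) := by
  obtain ⟨C1, hC1, h1⟩ := one_prime C0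
  refine ⟨C1, hC1, fun R σ c hR hσ hc => ?_⟩
  let F : ℕ → UnitAddCircle → ℝ := fun p x =>
    ‖(1 - (((p : ℝ) ^ (-σ) : ℝ) : ℂ) * (AddCircle.toCircle x : ℂ))⁻¹‖ ^ 2 *
      Real.exp (2 * (c p * (AddCircle.toCircle x : ℂ)).re)
  have hfac : ∀ w, ‖Zt R σ w‖ ^ 2 * Real.exp (2 * (∑ p ∈ R, c p * X p w).re) =
      ∏ p ∈ R, F p (w p) := by
    intro w
    change _ = ∏ p ∈ R, (‖(1 - (((p : ℝ) ^ (-σ) : ℝ) : ℂ) * X p w)⁻¹‖ ^ 2 *
      Real.exp (2 * (c p * X p w).re))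
    rw [Finset.prod_mul_distrib, ← Real.exp_sum, Zt, norm_prod, ← Finset.prod_pow]
    congr 2
    rw [Complex.re_sum, Finset.mul_sum]
  rw [integral_congr_ae (ae_of_all _ hfac), indep_primes R F]
  · rw [Real.exp_sum]
    refine Finset.prod_le_prod (fun p _ => integral_nonneg fun x => by positivity) fun p hp => ?_
    exact h1 _ _ (by positivity) (rm1_u_le (hR p hp) hσ) (hc p hp)
  · intro p hp
    have hm : Measurable fun x : UnitAddCircle => (AddCircle.toCircle x : ℂ) :=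
      (continuous_subtype_val.comp AddCircle.continuous_toCircle).measurable
    have h2 : Measurable fun x : UnitAddCircle =>
        ‖(1 - (((p : ℝ) ^ (-σ) : ℝ) : ℂ) * (AddCircle.toCircle x : ℂ))⁻¹‖ ^ 2 :=
      ((measurable_const.sub (measurable_const.mul hm)).inv.norm).pow_const 2
    have h3 : Measurable fun x : UnitAddCircle =>
        Real.exp (2 * (c p * (AddCircle.toCircle x : ℂ)).re) :=
      Real.measurable_exp.comp (measurable_const.mul (Complex.measurable_re.comp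
        (measurable_const.mul hm)))
    exact h2.mul h3

private theorem rm1_small {p : ℕ} {r ε : ℝ} {v : ℂ} (hr : 0 < r) (hε : ε ≤ 1)
    (h : ‖v - (r : ℂ)‖ ≤ 2 * ε * r) : ‖v‖ ≤ 3 * r := by
  have h1 : ‖v‖ ≤ ‖v - (r : ℂ)‖ + ‖(r : ℂ)‖ := by
    have h2 : v = (v - (r : ℂ)) + (r : ℂ) := by ring
    calc ‖v‖ = ‖(v - (r : ℂ)) + (r : ℂ)‖ := by rw [← h2]
      _ ≤ _ := norm_add_le _ _
  rw [Complex.norm_real, Real.norm_of_nonneg hr.le] at h1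
  nlinarith

private theorem rm1_crude (D : ℝ) (hD : 0 ≤ D) : ∃ C2 : ℝ, 0 ≤ C2 ∧
    ∀ (R : Finset ℕ) (σ δ : ℝ) (c : ℕ → ℂ),
    (∀ p ∈ R, p.Prime) → 1 / 4 ≤ σ → |σ - 1 / 2| ≤ δ → (∀ p ∈ R, δ * Real.log p ≤ 1) →
    (∀ p ∈ R, ‖c p‖ ≤ D * (p : ℝ) ^ (-(1 / 2 : ℝ))) →
    ∫ w, ‖Zt R σ w‖ ^ 2 * Real.exp (2 * (∑ p ∈ R, c p * X p w).re) ∂mu ≤
      Real.exp (C2 * sR R) := by
  obtain ⟨C1, hC1, h1⟩ := rm1_gen D
  refine ⟨(3 + D) ^ 2 + C1 * (27 + D ^ 3), by positivity, fun R σ δ c hR hσ hσδ hδ hc => ?_⟩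
  refine (h1 R σ c hR hσ fun p hp => (hc p hp).trans ?_).trans ?_
  · calc D * (p : ℝ) ^ (-(1 / 2 : ℝ)) ≤ D * 1 := by gcongr; exact (rm1_r (hR p hp)).2.1
      _ = D := mul_one D
  · apply Real.exp_le_exp.mpr
    rw [sR, Finset.mul_sum]
    refine Finset.sum_le_sum fun p hp => ?_
    obtain ⟨hr0, hr1, hr2, hr3⟩ := rm1_r (hR p hp)
    set r := (p : ℝ) ^ (-(1 / 2 : ℝ)) with hr
    have hu := rm1_small (p := p) hr0 (hδ p hp) (rm1_u (hR p hp) hσδ (hδ p hp))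
    have hu' : (p : ℝ) ^ (-σ) ≤ 3 * r := by
      rwa [Complex.norm_real, Real.norm_of_nonneg (by positivity)] at hu
    have hu0 : 0 ≤ (p : ℝ) ^ (-σ) := by positivity
    have hcp := hc p hp
    have ha : ‖(((p : ℝ) ^ (-σ) : ℝ) : ℂ) + c p‖ ≤ (3 + D) * r := by
      calc _ ≤ ‖(((p : ℝ) ^ (-σ) : ℝ) : ℂ)‖ + ‖c p‖ := norm_add_le _ _
        _ ≤ 3 * r + D * r := add_le_add hu hcp
        _ = _ := by ring
    have hb : ‖(((p : ℝ) ^ (-σ) : ℝ) : ℂ) + c p‖ ^ 2 ≤ (3 + D) ^ 2 * (1 / p) := by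
      calc _ ≤ ((3 + D) * r) ^ 2 := by gcongr
        _ = (3 + D) ^ 2 * (1 / p) := by rw [mul_pow, hr2]
    have hr32 : r ^ 3 ≤ 1 / p := by
      rw [← hr2]
      exact pow_le_pow_of_le_one hr0.le hr1 (by norm_num)
    have hc3 : ((p : ℝ) ^ (-σ)) ^ 3 ≤ 27 * (1 / p) := by
      calc ((p : ℝ) ^ (-σ)) ^ 3 ≤ (3 * r) ^ 3 := by gcongr
        _ = 27 * r ^ 3 := by ring
        _ ≤ 27 * (1 / p) := by gcongr
    have hd3 : ‖c p‖ ^ 3 ≤ D ^ 3 * (1 / p) := by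
      calc ‖c p‖ ^ 3 ≤ (D * r) ^ 3 := by gcongr
        _ = D ^ 3 * r ^ 3 := by ring
        _ ≤ D ^ 3 * (1 / p) := by gcongr
    calc _ ≤ (3 + D) ^ 2 * (1 / p) + C1 * (27 * (1 / p) + D ^ 3 * (1 / p)) := by gcongr
      _ = _ := by ring

private theorem rm1_PX (a : ℝ) {R : Finset ℕ} (hR : ∀ p ∈ R, p.Prime) (z1 z2 : ℂ) (w : Om) :
    -a * PX R z1 w + -a * PX R z2 w = ∑ p ∈ R, (-(a : ℂ) * ((p : ℂ) ^ (-(1 / 2 + z1)) +
      (p : ℂ) ^ (-(1 / 2 + z2)))) * X p w := by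
  rw [PX_eq R hR, PX_eq R hR, Finset.mul_sum, Finset.mul_sum, ← Finset.sum_add_distrib]
  refine Finset.sum_congr rfl fun p _ => ?_
  ring

private theorem rm1_integrand (a : ℝ) {R : Finset ℕ} (hR : ∀ p ∈ R, p.Prime) (σ : ℝ) (z1 z2 : ℂ)
    (w : Om) :
    ‖Zt R σ w‖ ^ 2 * ‖cexp (-a * PX R z1 w)‖ ^ 2 * ‖cexp (-a * PX R z2 w)‖ ^ 2 =
      ‖Zt R σ w‖ ^ 2 * Real.exp (2 * (∑ p ∈ R, (-(a : ℂ) * ((p : ℂ) ^ (-(1 / 2 + z1)) +
      (p : ℂ) ^ (-(1 / 2 + z2)))) * X p w).re) := by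
  rw [← rm1_PX a hR z1 z2 w, Complex.norm_exp, Complex.norm_exp, Complex.add_re, mul_assoc,
    ← Real.exp_nat_mul, ← Real.exp_nat_mul, ← Real.exp_add]
  congr 2
  push_cast
  ring


theorem rm1_exp (a : ℝ) (ha : 0 ≤ a) : ∃ C : ℝ, 0 ≤ C ∧ ∀ (R : Finset ℕ) (σ δ : ℝ) (z1 z2 : ℂ),
    (∀ p ∈ R, p.Prime) → 1 / 4 ≤ σ → |σ - 1 / 2| ≤ δ → ‖z1‖ ≤ δ → ‖z2‖ ≤ δ →
    (∀ p ∈ R, δ * Real.log p ≤ 1) →
    ∫ w, ‖Zt R σ w‖ ^ 2 * ‖cexp (-a * PX R z1 w)‖ ^ 2 * ‖cexp (-a * PX R z2 w)‖ ^ 2 ∂mu ≤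
      Real.exp ((1 - 2 * a) ^ 2 * sR R + C * eR R δ) := by
  obtain ⟨C1, hC1, h1⟩ := rm1_gen (6 * a)
  refine ⟨8 * (1 + 2 * a) ^ 2 + C1 * (27 + 216 * a ^ 3), by positivity,
    fun R σ δ z1 z2 hR hσ hσδ hz1 hz2 hδ => ?_⟩
  simp_rw [rm1_integrand a hR σ z1 z2]
  have hδ0 : 0 ≤ δ := (abs_nonneg _).trans hσδ
  have hc : ∀ p ∈ R, ‖-(a : ℂ) * ((p : ℂ) ^ (-(1 / 2 + z1)) + (p : ℂ) ^ (-(1 / 2 + z2)))‖ ≤
      6 * a * (p : ℝ) ^ (-(1 / 2 : ℝ)) := by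
    intro p hp
    obtain ⟨hr0, hr1, hr2, hr3⟩ := rm1_r (hR p hp)
    have h2 := rm1_small (p := p) hr0 (hδ p hp) (rm1_v (hR p hp) hz1 (hδ p hp))
    have h3 := rm1_small (p := p) hr0 (hδ p hp) (rm1_v (hR p hp) hz2 (hδ p hp))
    rw [norm_mul, norm_neg, Complex.norm_real, Real.norm_of_nonneg ha]
    calc a * ‖(p : ℂ) ^ (-(1 / 2 + z1)) + (p : ℂ) ^ (-(1 / 2 + z2))‖
        ≤ a * (3 * (p : ℝ) ^ (-(1 / 2 : ℝ)) + 3 * (p : ℝ) ^ (-(1 / 2 : ℝ))) := by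
          gcongr
          exact (norm_add_le _ _).trans (add_le_add h2 h3)
      _ = _ := by ring
  refine (h1 R σ _ hR hσ fun p hp => (hc p hp).trans ?_).trans ?_
  · calc 6 * a * (p : ℝ) ^ (-(1 / 2 : ℝ)) ≤ 6 * a * 1 := by gcongr; exact (rm1_r (hR p hp)).2.1
      _ = 6 * a := mul_one _
  · apply Real.exp_le_exp.mpr
    rw [sR, eR, Finset.mul_sum, Finset.mul_sum, ← Finset.sum_add_distrib]
    refine Finset.sum_le_sum fun p hp => ?_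
    obtain ⟨hr0, hr1, hr2, hr3⟩ := rm1_r (hR p hp)
    have hcp := hc p hp
    have hV1 := rm1_v (hR p hp) hz1 (hδ p hp)
    have hV2 := rm1_v (hR p hp) hz2 (hδ p hp)
    have hU := rm1_u (hR p hp) hσδ (hδ p hp)
    have hu := rm1_small (p := p) hr0 (hδ p hp) hU
    have hlog : 0 ≤ Real.log p := Real.log_natCast_nonneg p
    set r := (p : ℝ) ^ (-(1 / 2 : ℝ)) with hr
    set ε := δ * Real.log p with hε
    have hε0 : 0 ≤ ε := by positivity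
    have hε1 : ε ≤ 1 := hδ p hp
    set V1 := (p : ℂ) ^ (-(1 / 2 + z1))
    set V2 := (p : ℂ) ^ (-(1 / 2 + z2))
    have hu' : (p : ℝ) ^ (-σ) ≤ 3 * r := by
      rwa [Complex.norm_real, Real.norm_of_nonneg (by positivity)] at hu
    set U := (((p : ℝ) ^ (-σ) : ℝ) : ℂ) with hUdef
    have hu0 : 0 ≤ (p : ℝ) ^ (-σ) := by positivity
    have hA : ‖U + -(a : ℂ) * (V1 + V2)‖ ≤ |1 - 2 * a| * r + 2 * (1 + 2 * a) * ε * r := by
      have h5 : U + -(a : ℂ) * (V1 + V2) = ((1 - 2 * a : ℝ) : ℂ) * (r : ℂ) + (U - (r : ℂ)) +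
          (-(a : ℂ)) * (V1 - (r : ℂ)) + (-(a : ℂ)) * (V2 - (r : ℂ)) := by
        push_cast
        ring
      rw [h5]
      have h6 : ‖((1 - 2 * a : ℝ) : ℂ) * (r : ℂ)‖ = |1 - 2 * a| * r := by
        rw [norm_mul, Complex.norm_real, Complex.norm_real, Real.norm_of_nonneg hr0.le,
          Real.norm_eq_abs]
      have h7 : ‖(-(a : ℂ)) * (V1 - (r : ℂ))‖ ≤ a * (2 * ε * r) := by
        rw [norm_mul, norm_neg, Complex.norm_real, Real.norm_of_nonneg ha]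
        gcongr
      have h8 : ‖(-(a : ℂ)) * (V2 - (r : ℂ))‖ ≤ a * (2 * ε * r) := by
        rw [norm_mul, norm_neg, Complex.norm_real, Real.norm_of_nonneg ha]
        gcongr
      calc _ ≤ ‖((1 - 2 * a : ℝ) : ℂ) * (r : ℂ)‖ + ‖U - (r : ℂ)‖ +
            ‖(-(a : ℂ)) * (V1 - (r : ℂ))‖ + ‖(-(a : ℂ)) * (V2 - (r : ℂ))‖ := norm_add₄_le
        _ ≤ |1 - 2 * a| * r + 2 * ε * r + a * (2 * ε * r) + a * (2 * ε * r) := by
            rw [h6]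
            gcongr
        _ = _ := by ring
    have hB : ‖U + -(a : ℂ) * (V1 + V2)‖ ^ 2 ≤
        (1 - 2 * a) ^ 2 * (1 / p) + 8 * (1 + 2 * a) ^ 2 * (δ * (Real.log p / p)) := by
      have h9 : |1 - 2 * a| ≤ 1 + 2 * a := by
        rw [abs_le]
        constructor <;> linarith
      have h9' : 0 ≤ |1 - 2 * a| := abs_nonneg _
      have h10 : (|1 - 2 * a| + 2 * (1 + 2 * a) * ε) ^ 2 ≤
          (1 - 2 * a) ^ 2 + 8 * (1 + 2 * a) ^ 2 * ε := by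
        have h11 : |1 - 2 * a| ^ 2 = (1 - 2 * a) ^ 2 := sq_abs _
        have h12 : |1 - 2 * a| * ((1 + 2 * a) * ε) ≤ (1 + 2 * a) * ((1 + 2 * a) * ε) := by
          gcongr
        have h13 : (1 + 2 * a) ^ 2 * (ε * ε) ≤ (1 + 2 * a) ^ 2 * (ε * 1) := by
          gcongr
        nlinarith
      calc ‖U + -(a : ℂ) * (V1 + V2)‖ ^ 2
          ≤ (|1 - 2 * a| * r + 2 * (1 + 2 * a) * ε * r) ^ 2 := by gcongr
        _ = (|1 - 2 * a| + 2 * (1 + 2 * a) * ε) ^ 2 * r ^ 2 := by ring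
        _ ≤ ((1 - 2 * a) ^ 2 + 8 * (1 + 2 * a) ^ 2 * ε) * r ^ 2 := by gcongr
        _ = _ := by
            rw [hr2, hε]
            ring
    have hc3 : ((p : ℝ) ^ (-σ)) ^ 3 ≤ 27 * (p : ℝ) ^ (-(3 / 2 : ℝ)) := by
      calc ((p : ℝ) ^ (-σ)) ^ 3 ≤ (3 * r) ^ 3 := by gcongr
        _ = 27 * (p : ℝ) ^ (-(3 / 2 : ℝ)) := by rw [mul_pow, hr3]; norm_num
    have hd3 : ‖-(a : ℂ) * (V1 + V2)‖ ^ 3 ≤ 216 * a ^ 3 * (p : ℝ) ^ (-(3 / 2 : ℝ)) := by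
      calc ‖-(a : ℂ) * (V1 + V2)‖ ^ 3 ≤ (6 * a * r) ^ 3 := by gcongr
        _ = 216 * a ^ 3 * (p : ℝ) ^ (-(3 / 2 : ℝ)) := by
            rw [mul_pow, hr3]
            ring
    have hp32 : 0 ≤ (p : ℝ) ^ (-(3 / 2 : ℝ)) := by positivity
    have hdl : 0 ≤ δ * (Real.log p / p) := by positivity
    calc _ ≤ ((1 - 2 * a) ^ 2 * (1 / p) + 8 * (1 + 2 * a) ^ 2 * (δ * (Real.log p / p))) +
          C1 * (27 * (p : ℝ) ^ (-(3 / 2 : ℝ)) + 216 * a ^ 3 * (p : ℝ) ^ (-(3 / 2 : ℝ))) := by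
          gcongr
      _ ≤ _ := by
          have h14 : 0 ≤ 8 * (1 + 2 * a) ^ 2 * (p : ℝ) ^ (-(3 / 2 : ℝ)) := by positivity
          have h15 : 0 ≤ C1 * (27 + 216 * a ^ 3) * (δ * (Real.log p / p)) := by positivity
          nlinarith

/-- The four sign vectors. -/
private noncomputable def rm1_kap : Fin 4 → ℂ := ![1 - I, 1 + I, -1 - I, -1 + I]

private theorem rm1_kap_norm (i : Fin 4) : ‖rm1_kap i‖ ≤ 2 := by
  have h1 : ‖(1 : ℂ)‖ = 1 := norm_one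
  have h2 : ‖(-1 : ℂ)‖ = 1 := by rw [norm_neg, norm_one]
  have h3 : ‖I‖ = 1 := Complex.norm_I
  fin_cases i
  · change ‖(1 : ℂ) - I‖ ≤ 2
    exact (norm_sub_le _ _).trans (by rw [h1, h3]; norm_num)
  · change ‖(1 : ℂ) + I‖ ≤ 2
    exact (norm_add_le _ _).trans (by rw [h1, h3]; norm_num)
  · change ‖(-1 : ℂ) - I‖ ≤ 2
    exact (norm_sub_le _ _).trans (by rw [h2, h3]; norm_num)
  · change ‖(-1 : ℂ) + I‖ ≤ 2
    exact (norm_add_le _ _).trans (by rw [h2, h3]; norm_num)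

private theorem rm1_sgn (t : ℝ) (ht : 0 ≤ t) (z : ℂ) :
    Real.exp (t * ‖z‖) ≤ ∑ i, Real.exp (t * (rm1_kap i * z).re) := by
  have hz : ‖z‖ ≤ |z.re| + |z.im| := Complex.norm_le_abs_re_add_abs_im z
  have key : ∃ i, ‖z‖ ≤ (rm1_kap i * z).re := by
    rcases abs_cases z.re with ⟨h1, -⟩ | ⟨h1, -⟩ <;> rcases abs_cases z.im with ⟨h2, -⟩ | ⟨h2, -⟩
    · refine ⟨0, ?_⟩
      change ‖z‖ ≤ (((1 : ℂ) - I) * z).re
      simp only [Complex.mul_re, Complex.sub_re, Complex.sub_im, Complex.one_re, Complex.one_im,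
        Complex.I_re, Complex.I_im]
      linarith
    · refine ⟨1, ?_⟩
      change ‖z‖ ≤ (((1 : ℂ) + I) * z).re
      simp only [Complex.mul_re, Complex.add_re, Complex.add_im, Complex.one_re, Complex.one_im,
        Complex.I_re, Complex.I_im]
      linarith
    · refine ⟨2, ?_⟩
      change ‖z‖ ≤ (((-1 : ℂ) - I) * z).re
      simp only [Complex.mul_re, Complex.sub_re, Complex.sub_im, Complex.neg_re, Complex.neg_im,
        Complex.one_re, Complex.one_im, Complex.I_re, Complex.I_im]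
      linarith
    · refine ⟨3, ?_⟩
      change ‖z‖ ≤ (((-1 : ℂ) + I) * z).re
      simp only [Complex.mul_re, Complex.add_re, Complex.add_im, Complex.neg_re, Complex.neg_im,
        Complex.one_re, Complex.one_im, Complex.I_re, Complex.I_im]
      linarith
  obtain ⟨i, hi⟩ := key
  calc Real.exp (t * ‖z‖) ≤ Real.exp (t * (rm1_kap i * z).re) := by gcongr
    _ ≤ _ := Finset.single_le_sum (f := fun i => Real.exp (t * (rm1_kap i * z).re))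
        (fun j _ => (Real.exp_pos _).le) (Finset.mem_univ i)

/-- Moments with an extra exponential factor. -/
private theorem rm1_mom (a : ℝ) (ha : 0 ≤ a) : ∃ C2 : ℝ, 0 ≤ C2 ∧
    ∀ (R : Finset ℕ) (σ δ : ℝ) (z1 z2 : ℂ),
    (∀ p ∈ R, p.Prime) → 1 / 4 ≤ σ → |σ - 1 / 2| ≤ δ → ‖z1‖ ≤ δ → ‖z2‖ ≤ δ →
    (∀ p ∈ R, δ * Real.log p ≤ 1) →
    ∫ w, ‖Zt R σ w‖ ^ 2 * ‖cexp (-a * PX R z1 w)‖ ^ 2 * ‖cexp (-a * PX R z2 w)‖ ^ 2 *
      (Real.exp (6 * a * ‖PX R z1 w‖) * Real.exp (6 * a * ‖PX R z2 w‖)) ∂mu ≤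
      16 * Real.exp (C2 * sR R) := by
  obtain ⟨C2, hC2, h2⟩ := rm1_crude (42 * a) (by positivity)
  refine ⟨C2, hC2, fun R σ δ z1 z2 hR hσ hσδ hz1 hz2 hδ => ?_⟩
  have hσ0 : 0 < σ := by linarith
  let c : Fin 4 → Fin 4 → ℕ → ℂ := fun i j p =>
    -(a : ℂ) * ((p : ℂ) ^ (-(1 / 2 + z1)) + (p : ℂ) ^ (-(1 / 2 + z2))) +
      (3 * a * rm1_kap i * (p : ℂ) ^ (-(1 / 2 + z1)) + 3 * a * rm1_kap j * (p : ℂ) ^ (-(1 / 2 + z2)))
  have hc : ∀ i j, ∀ p ∈ R, ‖c i j p‖ ≤ 42 * a * (p : ℝ) ^ (-(1 / 2 : ℝ)) := by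
    intro i j p hp
    obtain ⟨hr0, hr1, hr2, hr3⟩ := rm1_r (hR p hp)
    have h3 := rm1_small (p := p) hr0 (hδ p hp) (rm1_v (hR p hp) hz1 (hδ p hp))
    have h4 := rm1_small (p := p) hr0 (hδ p hp) (rm1_v (hR p hp) hz2 (hδ p hp))
    have h5 : ‖-(a : ℂ) * ((p : ℂ) ^ (-(1 / 2 + z1)) + (p : ℂ) ^ (-(1 / 2 + z2)))‖ ≤
        a * (3 * (p : ℝ) ^ (-(1 / 2 : ℝ)) + 3 * (p : ℝ) ^ (-(1 / 2 : ℝ))) := by
      rw [norm_mul, norm_neg, Complex.norm_real, Real.norm_of_nonneg ha]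
      gcongr
      exact (norm_add_le _ _).trans (add_le_add h3 h4)
    have h6 : ∀ (i : Fin 4) (v : ℂ), ‖v‖ ≤ 3 * (p : ℝ) ^ (-(1 / 2 : ℝ)) →
        ‖3 * a * rm1_kap i * v‖ ≤ 3 * a * 2 * (3 * (p : ℝ) ^ (-(1 / 2 : ℝ))) := by
      intro i v hv
      have h7 : ‖(3 : ℂ)‖ = 3 := by norm_num
      rw [norm_mul, norm_mul, norm_mul, Complex.norm_real, Real.norm_of_nonneg ha, h7]
      have := rm1_kap_norm i
      gcongr
    calc ‖c i j p‖ ≤ _ + (_ + _) :=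
          (norm_add_le _ _).trans (add_le_add le_rfl (norm_add_le _ _))
      _ ≤ a * (3 * (p : ℝ) ^ (-(1 / 2 : ℝ)) + 3 * (p : ℝ) ^ (-(1 / 2 : ℝ))) +
          (3 * a * 2 * (3 * (p : ℝ) ^ (-(1 / 2 : ℝ))) + 3 * a * 2 * (3 * (p : ℝ) ^ (-(1 / 2 : ℝ)))) :=
          add_le_add h5 (add_le_add (h6 i _ h3) (h6 j _ h4))
      _ = _ := by ring
  have hsum : ∀ i j w, ∑ p ∈ R, c i j p * X p w = (-a * PX R z1 w + -a * PX R z2 w) +
      (3 * a * (rm1_kap i * PX R z1 w) + 3 * a * (rm1_kap j * PX R z2 w)) := by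
    intro i j w
    rw [rm1_PX a hR z1 z2 w, PX_eq R hR, PX_eq R hR, Finset.mul_sum, Finset.mul_sum,
      Finset.mul_sum, Finset.mul_sum, ← Finset.sum_add_distrib, ← Finset.sum_add_distrib]
    refine Finset.sum_congr rfl fun p _ => ?_
    change (_ + _) * X p w = _
    ring
  have hpt : ∀ w, ‖Zt R σ w‖ ^ 2 * ‖cexp (-a * PX R z1 w)‖ ^ 2 * ‖cexp (-a * PX R z2 w)‖ ^ 2 *
      (Real.exp (6 * a * ‖PX R z1 w‖) * Real.exp (6 * a * ‖PX R z2 w‖)) ≤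
      ∑ i, ∑ j, ‖Zt R σ w‖ ^ 2 * Real.exp (2 * (∑ p ∈ R, c i j p * X p w).re) := by
    intro w
    rw [rm1_integrand a hR σ z1 z2 w, ← rm1_PX a hR z1 z2 w]
    have h8 : Real.exp (6 * a * ‖PX R z1 w‖) * Real.exp (6 * a * ‖PX R z2 w‖) ≤
        (∑ i, Real.exp (6 * a * (rm1_kap i * PX R z1 w).re)) *
          ∑ j, Real.exp (6 * a * (rm1_kap j * PX R z2 w).re) :=
      mul_le_mul (rm1_sgn _ (by positivity) _) (rm1_sgn _ (by positivity) _)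
        (Real.exp_pos _).le (Finset.sum_nonneg fun i _ => (Real.exp_pos _).le)
    refine (mul_le_mul_of_nonneg_left h8 (by positivity)).trans (le_of_eq ?_)
    rw [Finset.sum_mul_sum, Finset.mul_sum]
    refine Finset.sum_congr rfl fun i _ => ?_
    rw [Finset.mul_sum]
    refine Finset.sum_congr rfl fun j _ => ?_
    rw [hsum, mul_assoc, ← Real.exp_add, ← Real.exp_add]
    congr 2
    have h9 : ∀ x : ℂ, (3 * (a : ℂ) * x).re = 3 * a * x.re := by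
      intro x
      have : (3 * (a : ℂ) * x) = ((3 * a : ℝ) : ℂ) * x := by push_cast; ring
      rw [this, Complex.re_ofReal_mul]
    rw [Complex.add_re _ (3 * (a : ℂ) * (rm1_kap i * PX R z1 w) + _), Complex.add_re (3 * _ * _) _,
      h9, h9]
    ring
  have hcont : ∀ i j, Continuous fun w => ‖Zt R σ w‖ ^ 2 *
      Real.exp (2 * (∑ p ∈ R, c i j p * X p w).re) := by
    intro i j
    refine ((continuous_Zt R hR hσ0).norm.pow 2).mul (Real.continuous_exp.comp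
      (continuous_const.mul (Complex.continuous_re.comp ?_)))
    exact continuous_finsetSum _ fun p _ => continuous_const.mul (continuous_X p)
  have hcontL : Continuous fun w => ‖Zt R σ w‖ ^ 2 * ‖cexp (-a * PX R z1 w)‖ ^ 2 *
      ‖cexp (-a * PX R z2 w)‖ ^ 2 *
      (Real.exp (6 * a * ‖PX R z1 w‖) * Real.exp (6 * a * ‖PX R z2 w‖)) := by
    have h10 := continuous_Zt R hR hσ0
    have h11 := continuous_PX R z1
    have h12 := continuous_PX R z2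
    fun_prop
  calc _ ≤ ∫ w, ∑ i, ∑ j, ‖Zt R σ w‖ ^ 2 * Real.exp (2 * (∑ p ∈ R, c i j p * X p w).re) ∂mu :=
        integral_mono (integrable_of_continuous hcontL)
          (integrable_finsetSum _ fun i _ => integrable_finsetSum _ fun j _ =>
            integrable_of_continuous (hcont i j)) hpt
    _ = ∑ i, ∑ j, ∫ w, ‖Zt R σ w‖ ^ 2 * Real.exp (2 * (∑ p ∈ R, c i j p * X p w).re) ∂mu := by
        rw [integral_finsetSum _ fun i _ => integrable_finsetSum _ fun j _ =>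
            integrable_of_continuous (hcont i j)]
        refine Finset.sum_congr rfl fun i _ => ?_
        rw [integral_finsetSum _ fun j _ => integrable_of_continuous (hcont i j)]
    _ ≤ ∑ i : Fin 4, ∑ j : Fin 4, Real.exp (C2 * sR R) :=
        Finset.sum_le_sum fun i _ => Finset.sum_le_sum fun j _ =>
          h2 R σ δ (c i j) hR hσ hσδ hδ (hc i j)
    _ = 16 * Real.exp (C2 * sR R) := by
        simp only [Finset.sum_const, Finset.card_univ, Fintype.card_fin, nsmul_eq_mul]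
        ring

private theorem rm1_poly {η e1 e2 : ℝ} (hη : 0 ≤ η) (hη1 : η ≤ 1) (h1 : 1 ≤ e1) (h2 : 1 ≤ e2) :
    (1 + η * e1) ^ 2 * (1 + η * e2) ^ 2 ≤ 1 + 15 * (η * (e1 ^ 2 * e2 ^ 2)) := by
  set M := η * (e1 ^ 2 * e2 ^ 2) with hM
  have a1 : 1 ≤ e1 ^ 2 := one_le_pow₀ h1
  have a2 : 1 ≤ e2 ^ 2 := one_le_pow₀ h2
  have b1 : e1 ≤ e1 ^ 2 := by nlinarith
  have b2 : e2 ≤ e2 ^ 2 := by nlinarith
  have key : ∀ (i j : ℕ) (u v : ℝ), 0 ≤ u → 0 ≤ v → u ≤ e1 ^ 2 → v ≤ e2 ^ 2 →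
      η ^ (i + 1) * (u * v) ≤ M := by
    intro i j u v hu hv hu1 hv1
    rw [hM]
    have c1 : η ^ (i + 1) ≤ η := pow_le_of_le_one hη hη1 (Nat.succ_ne_zero i)
    have c2 : u * v ≤ e1 ^ 2 * e2 ^ 2 := mul_le_mul hu1 hv1 hv (by positivity)
    exact mul_le_mul c1 c2 (by positivity) hη
  have t1 := key 0 0 e1 1 (by positivity) (by positivity) b1 a2
  have t2 := key 0 0 1 e2 (by positivity) (by positivity) a1 b2
  have t3 := key 1 0 e1 e2 (by positivity) (by positivity) b1 b2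
  have t4 := key 1 0 (e1 ^ 2) 1 (by positivity) (by positivity) le_rfl a2
  have t5 := key 1 0 1 (e2 ^ 2) (by positivity) (by positivity) a1 le_rfl
  have t6 := key 2 0 (e1 ^ 2) e2 (by positivity) (by positivity) le_rfl b2
  have t7 := key 2 0 e1 (e2 ^ 2) (by positivity) (by positivity) b1 le_rfl
  have t8 := key 3 0 (e1 ^ 2) (e2 ^ 2) (by positivity) (by positivity) le_rfl le_rfl
  have e : (1 + η * e1) ^ 2 * (1 + η * e2) ^ 2 = 1 + 2 * (η ^ (0 + 1) * (e1 * 1)) +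
      2 * (η ^ (0 + 1) * (1 * e2)) + 4 * (η ^ (1 + 1) * (e1 * e2)) +
      η ^ (1 + 1) * (e1 ^ 2 * 1) + η ^ (1 + 1) * (1 * e2 ^ 2) +
      2 * (η ^ (2 + 1) * (e1 ^ 2 * e2)) + 2 * (η ^ (2 + 1) * (e1 * e2 ^ 2)) +
      η ^ (3 + 1) * (e1 ^ 2 * e2 ^ 2) := by ring
  rw [e]
  linarith


theorem rm1 (a : ℝ) (ha : 0 ≤ a) : ∃ C : ℝ, 0 ≤ C ∧
    ∀ (R : Finset ℕ) (l : ℕ) (σ δ : ℝ) (z1 z2 : ℂ),
    (∀ p ∈ R, p.Prime) → 1 / 4 ≤ σ → |σ - 1 / 2| ≤ δ → ‖z1‖ ≤ δ → ‖z2‖ ≤ δ →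
    (∀ p ∈ R, δ * Real.log p ≤ 1) →
    ∫ w, ‖Zt R σ w‖ ^ 2 * ‖Ex l (-a * PX R z1 w)‖ ^ 2 * ‖Ex l (-a * PX R z2 w)‖ ^ 2 ∂mu ≤
      Real.exp ((1 - 2 * a) ^ 2 * sR R + C * eR R δ) *
        (1 + (2 : ℝ)⁻¹ ^ l * Real.exp (C * (sR R + 1))) := by
  obtain ⟨Ca, hCa, hexp⟩ := rm1_exp a ha
  obtain ⟨C2, hC2, hmom⟩ := rm1_mom a ha
  refine ⟨Ca + C2 + 240, by positivity, fun R l σ δ z1 z2 hR hσ hσδ hz1 hz2 hδ => ?_⟩
  have hσ0 : 0 < σ := by linarith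
  have hδ0 : 0 ≤ δ := (abs_nonneg _).trans hσδ
  have hs : 0 ≤ sR R := Finset.sum_nonneg fun p _ => by positivity
  have he : 0 ≤ eR R δ := Finset.sum_nonneg fun p _ => by
    have : 0 ≤ Real.log p := Real.log_natCast_nonneg p
    positivity
  set η : ℝ := (2 : ℝ)⁻¹ ^ l with hη
  have hη0 : 0 ≤ η := by positivity
  have hη1 : η ≤ 1 := pow_le_one₀ (by norm_num) (by norm_num)
  have cZ := continuous_Zt R hR hσ0
  have c1 := continuous_PX R z1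
  have c2 := continuous_PX R z2
  let U : Om → ℝ := fun w => ‖Zt R σ w‖ ^ 2 * ‖cexp (-a * PX R z1 w)‖ ^ 2 *
    ‖cexp (-a * PX R z2 w)‖ ^ 2
  let V : Om → ℝ := fun w => U w * (Real.exp (6 * a * ‖PX R z1 w‖) *
    Real.exp (6 * a * ‖PX R z2 w‖))
  have cU : Continuous U := by
    change Continuous fun w => ‖Zt R σ w‖ ^ 2 * ‖cexp (-a * PX R z1 w)‖ ^ 2 *
      ‖cexp (-a * PX R z2 w)‖ ^ 2
    fun_prop
  have cV : Continuous V := by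
    change Continuous fun w => U w * (Real.exp (6 * a * ‖PX R z1 w‖) *
      Real.exp (6 * a * ‖PX R z2 w‖))
    fun_prop
  have cL : Continuous fun w => ‖Zt R σ w‖ ^ 2 * ‖Ex l (-a * PX R z1 w)‖ ^ 2 *
      ‖Ex l (-a * PX R z2 w)‖ ^ 2 :=
    ((cZ.norm.pow 2).mul (((continuous_Ex l).comp (continuous_const.mul c1)).norm.pow 2)).mul
      (((continuous_Ex l).comp (continuous_const.mul c2)).norm.pow 2)
  have hpt : ∀ w, ‖Zt R σ w‖ ^ 2 * ‖Ex l (-a * PX R z1 w)‖ ^ 2 * ‖Ex l (-a * PX R z2 w)‖ ^ 2 ≤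
      U w + 15 * η * V w := by
    intro w
    have hn : ∀ z, ‖-(a : ℂ) * z‖ = a * ‖z‖ := by
      intro z
      rw [norm_mul, norm_neg, Complex.norm_real, Real.norm_of_nonneg ha]
    have hE1 := norm_Ex_le_mul l (-a * PX R z1 w)
    have hE2 := norm_Ex_le_mul l (-a * PX R z2 w)
    rw [hn, ← hη] at hE1 hE2
    set P1 := ‖PX R z1 w‖
    set P2 := ‖PX R z2 w‖
    have hP1 : 0 ≤ P1 := norm_nonneg _
    have hP2 : 0 ≤ P2 := norm_nonneg _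
    set A1 := ‖cexp (-a * PX R z1 w)‖
    set A2 := ‖cexp (-a * PX R z2 w)‖
    have hA1 : 0 ≤ A1 := norm_nonneg _
    have hA2 : 0 ≤ A2 := norm_nonneg _
    set e1 := Real.exp (3 * (a * P1))
    set e2 := Real.exp (3 * (a * P2))
    have h1 : 1 ≤ e1 := Real.one_le_exp (by positivity)
    have h2 : 1 ≤ e2 := Real.one_le_exp (by positivity)
    have hs1 : Real.exp (6 * a * P1) = e1 ^ 2 := by
      rw [← Real.exp_nat_mul]
      congr 1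
      push_cast
      ring
    have hs2 : Real.exp (6 * a * P2) = e2 ^ 2 := by
      rw [← Real.exp_nat_mul]
      congr 1
      push_cast
      ring
    have hpoly := rm1_poly hη0 hη1 h1 h2
    have hU : U w = ‖Zt R σ w‖ ^ 2 * A1 ^ 2 * A2 ^ 2 := rfl
    have hV : V w = ‖Zt R σ w‖ ^ 2 * A1 ^ 2 * A2 ^ 2 * (e1 ^ 2 * e2 ^ 2) := by
      change ‖Zt R σ w‖ ^ 2 * A1 ^ 2 * A2 ^ 2 * (Real.exp (6 * a * P1) *
        Real.exp (6 * a * P2)) = _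
      rw [hs1, hs2]
    rw [hU, hV]
    calc _ ≤ ‖Zt R σ w‖ ^ 2 * (A1 * (1 + η * e1)) ^ 2 * (A2 * (1 + η * e2)) ^ 2 := by gcongr
      _ = ‖Zt R σ w‖ ^ 2 * A1 ^ 2 * A2 ^ 2 * ((1 + η * e1) ^ 2 * (1 + η * e2) ^ 2) := by ring
      _ ≤ ‖Zt R σ w‖ ^ 2 * A1 ^ 2 * A2 ^ 2 * (1 + 15 * (η * (e1 ^ 2 * e2 ^ 2))) := by gcongr
      _ = _ := by ring
  have hIU := hexp R σ δ z1 z2 hR hσ hσδ hz1 hz2 hδ
  have hIV := hmom R σ δ z1 z2 hR hσ hσδ hz1 hz2 hδ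
  have h3 : ∫ w, ‖Zt R σ w‖ ^ 2 * ‖Ex l (-a * PX R z1 w)‖ ^ 2 * ‖Ex l (-a * PX R z2 w)‖ ^ 2 ∂mu ≤
      Real.exp ((1 - 2 * a) ^ 2 * sR R + Ca * eR R δ) + 15 * η * (16 * Real.exp (C2 * sR R)) := by
    calc _ ≤ ∫ w, (U w + 15 * η * V w) ∂mu :=
          integral_mono (integrable_of_continuous cL)
            (integrable_of_continuous (cU.add (continuous_const.mul cV))) hpt
      _ = (∫ w, U w ∂mu) + 15 * η * ∫ w, V w ∂mu := by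
          rw [integral_add (integrable_of_continuous cU)
            ((integrable_of_continuous cV).const_mul _), integral_const_mul]
      _ ≤ _ := by
          have h4 : 0 ≤ 15 * η := by positivity
          exact add_le_add hIU (mul_le_mul_of_nonneg_left hIV h4)
  refine h3.trans ?_
  have h5 : Real.exp ((1 - 2 * a) ^ 2 * sR R + Ca * eR R δ) ≤
      Real.exp ((1 - 2 * a) ^ 2 * sR R + (Ca + C2 + 240) * eR R δ) := by
    apply Real.exp_le_exp.mpr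
    have : 0 ≤ (C2 + 240) * eR R δ := by positivity
    linarith
  have h6 : 240 * Real.exp (C2 * sR R) ≤ Real.exp ((Ca + C2 + 240) * (sR R + 1)) := by
    have h7 : (240 : ℝ) ≤ Real.exp 240 := by linarith [Real.add_one_le_exp (240 : ℝ)]
    calc 240 * Real.exp (C2 * sR R) ≤ Real.exp 240 * Real.exp (C2 * sR R) := by gcongr
      _ = Real.exp (240 + C2 * sR R) := by rw [Real.exp_add]
      _ ≤ _ := by
          apply Real.exp_le_exp.mpr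
          have : 0 ≤ (Ca + 240) * sR R + Ca + C2 := by positivity
          linarith
  have h8 : 1 ≤ Real.exp ((1 - 2 * a) ^ 2 * sR R + (Ca + C2 + 240) * eR R δ) :=
    Real.one_le_exp (by positivity)
  calc _ ≤ Real.exp ((1 - 2 * a) ^ 2 * sR R + (Ca + C2 + 240) * eR R δ) +
        η * Real.exp ((Ca + C2 + 240) * (sR R + 1)) := by
        have h9 : 15 * η * (16 * Real.exp (C2 * sR R)) = η * (240 * Real.exp (C2 * sR R)) := by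
          ring
        rw [h9]
        gcongr
    _ ≤ Real.exp ((1 - 2 * a) ^ 2 * sR R + (Ca + C2 + 240) * eR R δ) +
        Real.exp ((1 - 2 * a) ^ 2 * sR R + (Ca + C2 + 240) * eR R δ) *
          (η * Real.exp ((Ca + C2 + 240) * (sR R + 1))) := by
        have h10 : 0 ≤ η * Real.exp ((Ca + C2 + 240) * (sR R + 1)) := by positivity
        have h11 := mul_le_mul_of_nonneg_right h8 h10
        rw [one_mul] at h11
        linarith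
    _ = _ := by ring

end Pool.Agent.GH
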