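import Pool.Agent.Lib.MP_69b2e4_nt.Mg.G037
import Pool.Agent.Lib.MP_69b2e4_nt.Mg.G038
import Pool.Agent.Lib.MP_69b2e4_nt.GH.RM1

/-! TASK RM3. The lower bound for one block.
Let `a = (k+1)/2`, `b = k/2`, `P = PX R 0 w`, `Pz = PX R z w`.
(a) exponential version: `Zt R (1/2) w * exp(-aP)^2 * conj(exp(-b Pz)^2) = ∏_p (1-uX_p)^{-1} e^{cX_p} conj(e^{dX_p})`, `u = p^{-1/2} ≤ 2^{-1/2}`,
`c = -2a p^{-1/2}`, `d = -2b p^{-(1/2+z)}`. By `indep_primes` the expectation is `∏ E_p`, and by `one_prime2`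
`‖E_p - 1 - (u+c) conj d‖ ≤ C p^{-2}`. Here `u + c = (1-2a)p^{-1/2} = -k p^{-1/2}`, `conj d = -k p^{-1/2} conj(p^{-z})`, so
`Re((u+c) conj d) ≥ k²/p - C δ log p/p` (from `|p^{-z}-1| ≤ e|z| log p ≤ e δ log p`). Hence
`‖E_p‖ ≥ 1 + k²/p - C(δ log p/p + p^{-3/2}) ≥ exp(k²/p - C'(δ log p/p + p^{-3/2}))` for `p > p0` (with `p0` such that `x = k²/p - C(..)` satisfies `|x| ≤ 1/2`;
note `δ log p ≤ 1`, so `δ log p/p ≤ 1/p`; `1+x ≥ exp(x - x²)` for `|x| ≤ 1/2` and `x² ≤ C p^{-2} ≤ C p^{-3/2}`). Product over `p ∈ R`.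
(b) truncation: `Ex l (-aP)^2 conj(Ex l (-bPz)^2) - exp(-aP)^2 conj(exp(-bPz)^2)` is at most `2^{-l} · 4 exp(C(‖P‖+‖Pz‖))` in norm
(`norm_Ex_sub_exp`, `norm_Ex_le`), so the difference of the expectations is at most `2^{-l} 4 E ‖Zt‖ exp(C(‖P‖+‖Pz‖))
≤ 2^{-l} 4 (E‖Zt‖²)^{1/2} (E exp(2C(..)))^{1/2} ≤ 2^{-l} exp(C(s+1))`: `E‖Zt R (1/2)‖² = ∏ (1-1/p)^{-1} ≤ exp(2s)` (`one_prime` or direct), `exp_moment`
and `exp(x+y) ≤ (exp 2x + exp 2y)/2`. Finally `exp(k² s - C e) - 2^{-l} exp(C(s+1)) ≥ exp(k² s - C e)(1 - 2^{-l} exp(C_4 (s+1)))` because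
`exp(-(k² s - C e)) ≤ exp(C e) ≤ exp(C·C_3 (s+1))`: `e(R,δ) ≤ ∑ (p^{-3/2} + 1/p) ≤ 2 s`. -/

set_option autoImplicit false

namespace Pool.Agent.GH

open Complex MeasureTheory Finset
open scoped Real ComplexConjugate

private theorem rm3_r {p : ℕ} (hp : p.Prime) :
    0 < (p : ℝ) ^ (-(1 / 2 : ℝ)) ∧ (p : ℝ) ^ (-(1 / 2 : ℝ)) ≤ 17 / 20 ∧
      ((p : ℝ) ^ (-(1 / 2 : ℝ))) ^ 2 = 1 / p ∧
      ((p : ℝ) ^ (-(1 / 2 : ℝ))) ^ 3 = (p : ℝ) ^ (-(3 / 2 : ℝ)) := by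
  have hpp : (0 : ℝ) < p := by exact_mod_cast hp.pos
  have hp2 : (2 : ℝ) ≤ p := by exact_mod_cast hp.two_le
  have h2 : ((p : ℝ) ^ (-(1 / 2 : ℝ))) ^ 2 = 1 / p := by
    rw [← Real.rpow_natCast, ← Real.rpow_mul hpp.le]
    norm_num
    rw [Real.rpow_neg_one]
  refine ⟨by positivity, ?_, h2, ?_⟩
  · have h3 : ((p : ℝ) ^ (-(1 / 2 : ℝ))) ^ 2 ≤ 1 / 2 := by
      rw [h2]
      exact one_div_le_one_div_of_le (by norm_num) hp2
    by_contra hcon
    have h4 := not_le.mp hcon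
    have h5 : (17 / 20 : ℝ) ^ 2 < ((p : ℝ) ^ (-(1 / 2 : ℝ))) ^ 2 :=
      pow_lt_pow_left₀ h4 (by norm_num) (by norm_num)
    linarith
  · rw [← Real.rpow_natCast, ← Real.rpow_mul hpp.le]
    norm_num

private theorem rm3_v {p : ℕ} (hp : p.Prime) {δ : ℝ} {z : ℂ} (hz : ‖z‖ ≤ δ)
    (hδ : δ * Real.log p ≤ 1) :
    ‖(p : ℂ) ^ (-(1 / 2 + z)) - (((p : ℝ) ^ (-(1 / 2 : ℝ)) : ℝ) : ℂ)‖ ≤
      2 * (δ * Real.log p) * (p : ℝ) ^ (-(1 / 2 : ℝ)) := by
  have hp0 : (p : ℂ) ≠ 0 := by exact_mod_cast hp.ne_zero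
  have hpp : (0 : ℝ) < p := by exact_mod_cast hp.pos
  have hlog : 0 ≤ Real.log p := Real.log_natCast_nonneg p
  have h1 : (p : ℂ) ^ (-(1 / 2 + z)) = (((p : ℝ) ^ (-(1 / 2 : ℝ)) : ℝ) : ℂ) *
      cexp (-(Real.log p * z)) := by
    have h2 : (((p : ℝ) ^ (-(1 / 2 : ℝ)) : ℝ) : ℂ) = (p : ℂ) ^ (-(1 / 2) : ℂ) := by
      rw [Complex.ofReal_cpow hpp.le]
      push_cast
      rfl
    have h3 : -(1 / 2 + z) = -(1 / 2) + -z := by ring
    rw [h2, h3, Complex.cpow_add _ _ hp0]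
    congr 1
    rw [Complex.cpow_def_of_ne_zero hp0, ← Complex.ofReal_natCast, ← Complex.ofReal_log hpp.le]
    congr 1
    ring
  have h4 : ‖-((Real.log p : ℂ) * z)‖ ≤ δ * Real.log p := by
    rw [norm_neg, norm_mul, Complex.norm_real, Real.norm_of_nonneg hlog, mul_comm]
    gcongr
  have h5 : ‖cexp (-(Real.log p * z)) - 1‖ ≤ 2 * (δ * Real.log p) :=
    (Complex.norm_exp_sub_one_le (h4.trans hδ)).trans (by gcongr)
  have h6 : (p : ℂ) ^ (-(1 / 2 + z)) - (((p : ℝ) ^ (-(1 / 2 : ℝ)) : ℝ) : ℂ) =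
      (((p : ℝ) ^ (-(1 / 2 : ℝ)) : ℝ) : ℂ) * (cexp (-(Real.log p * z)) - 1) := by
    rw [h1]
    ring
  rw [h6, norm_mul, Complex.norm_real, Real.norm_of_nonneg (by positivity), mul_comm]
  gcongr

private theorem rm3_v0 {p : ℕ} (hp : p.Prime) :
    (p : ℂ) ^ (-(1 / 2 + (0 : ℂ))) = (((p : ℝ) ^ (-(1 / 2 : ℝ)) : ℝ) : ℂ) := by
  have h := rm3_v hp (δ := 0) (z := 0) (by simp) (by simp)
  rw [zero_mul, mul_zero, zero_mul] at h
  exact sub_eq_zero.mp (norm_le_zero_iff.mp h)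

private theorem rm3_exp_le {x : ℝ} (hx : |x| ≤ 1 / 2) : Real.exp (x - 2 * x ^ 2) ≤ 1 + x := by
  have hx1 := (abs_le.mp hx).1
  have hpos : 0 < 1 + x := by linarith
  have h1 : x / (1 + x) ≤ Real.log (1 + x) := by
    have h2 := Real.one_sub_inv_le_log_of_pos hpos
    have h3 : 1 - (1 + x)⁻¹ = x / (1 + x) := by
      field_simp
      ring
    rwa [h3] at h2
  have h4 : x - 2 * x ^ 2 ≤ x / (1 + x) := by
    rw [le_div_iff₀ hpos]
    nlinarith [sq_nonneg x]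
  calc Real.exp (x - 2 * x ^ 2) ≤ Real.exp (Real.log (1 + x)) :=
        Real.exp_le_exp.mpr (h4.trans h1)
    _ = 1 + x := Real.exp_log hpos

/-- The exponential version. -/
private theorem rm3_expv (k : ℝ) (hk : 0 < k) : ∃ (C : ℝ) (p0 : ℕ), 0 ≤ C ∧
    ∀ (R : Finset ℕ) (δ : ℝ) (z : ℂ),
    (∀ p ∈ R, p.Prime ∧ p0 < p) → ‖z‖ ≤ δ → (∀ p ∈ R, δ * Real.log p ≤ 1) →
    Real.exp (k ^ 2 * sR R - C * eR R δ) ≤
    ‖∫ w, Zt R (1 / 2) w * cexp (-((k + 1) / 2 : ℝ) * PX R 0 w) ^ 2 *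
      conj (cexp (-(k / 2 : ℝ) * PX R z w) ^ 2) ∂mu‖ := by
  obtain ⟨C1, hC1, h1⟩ := one_prime2 (3 * (k + 1))
  set D := C1 * (k + 2) ^ 2 * (9 * k ^ 2) with hD
  have hD0 : 0 ≤ D := by positivity
  set S := 3 * k ^ 2 + D with hS
  have hS0 : 0 ≤ S := by positivity
  refine ⟨2 * k ^ 2 + D + 2 * S ^ 2, ⌈2 * S⌉₊, by positivity, fun R δ z hR hz hδ => ?_⟩
  have hδ0 : 0 ≤ δ := (norm_nonneg _).trans hz
  let F : ℕ → UnitAddCircle → ℂ := fun p x =>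
    (1 - (((p : ℝ) ^ (-(1 / 2 : ℝ)) : ℝ) : ℂ) * (AddCircle.toCircle x : ℂ))⁻¹ *
      cexp ((-((k + 1 : ℝ) : ℂ) * (p : ℂ) ^ (-(1 / 2 + (0 : ℂ)))) * (AddCircle.toCircle x : ℂ)) *
      conj (cexp ((-(k : ℂ) * (p : ℂ) ^ (-(1 / 2 + z))) * (AddCircle.toCircle x : ℂ)))
  have hfac : ∀ w, Zt R (1 / 2) w * cexp (-((k + 1) / 2 : ℝ) * PX R 0 w) ^ 2 *
      conj (cexp (-(k / 2 : ℝ) * PX R z w) ^ 2) = ∏ p ∈ R, F p (w p) := by
    intro w
    change _ = ∏ p ∈ R, ((1 - (((p : ℝ) ^ (-(1 / 2 : ℝ)) : ℝ) : ℂ) * X p w)⁻¹ *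
      cexp ((-((k + 1 : ℝ) : ℂ) * (p : ℂ) ^ (-(1 / 2 + (0 : ℂ)))) * X p w) *
      conj (cexp ((-(k : ℂ) * (p : ℂ) ^ (-(1 / 2 + z))) * X p w)))
    rw [Finset.prod_mul_distrib, Finset.prod_mul_distrib, ← Complex.exp_sum, ← map_prod,
      ← Complex.exp_sum, Zt, ← Complex.exp_nat_mul, ← Complex.exp_nat_mul]
    have e1 : ((2 : ℕ) : ℂ) * (-(((k + 1) / 2 : ℝ) : ℂ) * PX R 0 w) =
        ∑ p ∈ R, (-((k + 1 : ℝ) : ℂ) * (p : ℂ) ^ (-(1 / 2 + (0 : ℂ)))) * X p w := by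
      rw [PX_eq R (fun p hp => (hR p hp).1), Finset.mul_sum, Finset.mul_sum]
      refine Finset.sum_congr rfl fun p _ => ?_
      push_cast
      ring
    have e2 : ((2 : ℕ) : ℂ) * (-((k / 2 : ℝ) : ℂ) * PX R z w) =
        ∑ p ∈ R, (-(k : ℂ) * (p : ℂ) ^ (-(1 / 2 + z))) * X p w := by
      rw [PX_eq R (fun p hp => (hR p hp).1), Finset.mul_sum, Finset.mul_sum]
      refine Finset.sum_congr rfl fun p _ => ?_
      push_cast
      ring
    rw [e1, e2]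
  have hmeas : ∀ p ∈ R, Measurable (F p) := by
    intro p hp
    have hm : Measurable fun x : UnitAddCircle => (AddCircle.toCircle x : ℂ) :=
      (continuous_subtype_val.comp AddCircle.continuous_toCircle).measurable
    have m1 : Measurable fun x : UnitAddCircle =>
        (1 - (((p : ℝ) ^ (-(1 / 2 : ℝ)) : ℝ) : ℂ) * (AddCircle.toCircle x : ℂ))⁻¹ :=
      (measurable_const.sub (measurable_const.mul hm)).inv
    have m2 : Measurable fun x : UnitAddCircle => cexp ((-((k + 1 : ℝ) : ℂ) *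
        (p : ℂ) ^ (-(1 / 2 + (0 : ℂ)))) * (AddCircle.toCircle x : ℂ)) :=
      Complex.measurable_exp.comp (measurable_const.mul hm)
    have m3 : Measurable fun x : UnitAddCircle => conj (cexp ((-(k : ℂ) *
        (p : ℂ) ^ (-(1 / 2 + z))) * (AddCircle.toCircle x : ℂ))) :=
      Complex.continuous_conj.measurable.comp (Complex.measurable_exp.comp
        (measurable_const.mul hm))
    exact (m1.mul m2).mul m3
  rw [integral_congr_ae (ae_of_all _ hfac), indep_primes R F hmeas, norm_prod]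
  rw [sR, eR, Finset.mul_sum, Finset.mul_sum, ← Finset.sum_sub_distrib, Real.exp_sum]
  refine Finset.prod_le_prod (fun p _ => (Real.exp_pos _).le) fun p hp => ?_
  obtain ⟨hr0, hr17, hr2, hr3⟩ := rm3_r (hR p hp).1
  have hV := rm3_v (hR p hp).1 hz (hδ p hp)
  have hV0 := rm3_v0 (hR p hp).1
  have hlog : 0 ≤ Real.log p := Real.log_natCast_nonneg p
  have hpp : (0 : ℝ) < p := by exact_mod_cast (hR p hp).1.pos
  have hp0 : 2 * S ≤ p := by
    have h2 : (⌈2 * S⌉₊ : ℝ) ≤ p := by exact_mod_cast (hR p hp).2.le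
    exact (Nat.le_ceil _).trans h2
  have hmain := h1 ((p : ℝ) ^ (-(1 / 2 : ℝ))) (-((k + 1 : ℝ) : ℂ) * (p : ℂ) ^ (-(1 / 2 + (0 : ℂ))))
    (-(k : ℂ) * (p : ℂ) ^ (-(1 / 2 + z))) hr0.le hr17
  rw [hV0] at hmain
  change _ ≤ ‖∫ x : UnitAddCircle,
    (1 - (((p : ℝ) ^ (-(1 / 2 : ℝ)) : ℝ) : ℂ) * (AddCircle.toCircle x : ℂ))⁻¹ *
      cexp ((-((k + 1 : ℝ) : ℂ) * (p : ℂ) ^ (-(1 / 2 + (0 : ℂ)))) * (AddCircle.toCircle x : ℂ)) *
      conj (cexp ((-(k : ℂ) * (p : ℂ) ^ (-(1 / 2 + z))) * (AddCircle.toCircle x : ℂ)))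
      ∂(AddCircle.haarAddCircle : Measure UnitAddCircle)‖
  rw [hV0]
  set r := (p : ℝ) ^ (-(1 / 2 : ℝ)) with hr
  set ε := δ * Real.log p with hε
  have hε0 : 0 ≤ ε := by positivity
  have hε1 : ε ≤ 1 := hδ p hp
  set V := (p : ℂ) ^ (-(1 / 2 + z)) with hVdef
  have hr1 : r ≤ 1 := by linarith
  have hVn : ‖V‖ ≤ 3 * r := by
    have h2 : V = (V - (r : ℂ)) + (r : ℂ) := by ring
    have h3 : ‖V‖ ≤ ‖V - (r : ℂ)‖ + ‖(r : ℂ)‖ := by
      calc ‖V‖ = ‖(V - (r : ℂ)) + (r : ℂ)‖ := by rw [← h2]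
        _ ≤ _ := norm_add_le _ _
    rw [Complex.norm_real, Real.norm_of_nonneg hr0.le] at h3
    nlinarith
  have hcn : ‖-((k + 1 : ℝ) : ℂ) * (r : ℂ)‖ = (k + 1) * r := by
    rw [norm_mul, norm_neg, Complex.norm_real, Complex.norm_real, Real.norm_of_nonneg (by positivity),
      Real.norm_of_nonneg hr0.le]
  have hdn : ‖-(k : ℂ) * V‖ ≤ 3 * k * r := by
    rw [norm_mul, norm_neg, Complex.norm_real, Real.norm_of_nonneg hk.le]
    calc k * ‖V‖ ≤ k * (3 * r) := by gcongr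
      _ = _ := by ring
  have hmain2 := hmain (by rw [hcn]; nlinarith) (by nlinarith [hdn])
  rw [hcn] at hmain2
  set E := ∫ x : UnitAddCircle,
    (1 - (r : ℂ) * (AddCircle.toCircle x : ℂ))⁻¹ *
      cexp ((-((k + 1 : ℝ) : ℂ) * (r : ℂ)) * (AddCircle.toCircle x : ℂ)) *
      conj (cexp ((-(k : ℂ) * V) * (AddCircle.toCircle x : ℂ)))
      ∂(AddCircle.haarAddCircle : Measure UnitAddCircle) with hE
  -- the error term
  have herr : ‖E - 1 - ((r : ℂ) + -((k + 1 : ℝ) : ℂ) * (r : ℂ)) * conj (-(k : ℂ) * V)‖ ≤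
      D * (p : ℝ) ^ (-(3 / 2 : ℝ)) := by
    refine hmain2.trans ?_
    have h2 : r + (k + 1) * r = (k + 2) * r := by ring
    rw [h2, ← hr3]
    have h3 : r ^ 4 ≤ r ^ 3 := pow_le_pow_of_le_one hr0.le hr1 (by norm_num)
    calc C1 * ((k + 2) * r) ^ 2 * ‖-(k : ℂ) * V‖ ^ 2 ≤
          C1 * ((k + 2) * r) ^ 2 * (3 * k * r) ^ 2 := by gcongr
      _ = D * r ^ 4 := by rw [hD]; ring
      _ ≤ D * r ^ 3 := by gcongr
  have hmainre : k ^ 2 * r ^ 2 - 2 * k ^ 2 * ε * r ^ 2 ≤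
      (((r : ℂ) + -((k + 1 : ℝ) : ℂ) * (r : ℂ)) * conj (-(k : ℂ) * V)).re := by
    have h2 : ((r : ℂ) + -((k + 1 : ℝ) : ℂ) * (r : ℂ)) * conj (-(k : ℂ) * V) =
        ((k ^ 2 * r ^ 2 : ℝ) : ℂ) + ((k ^ 2 * r : ℝ) : ℂ) * conj (V - (r : ℂ)) := by
      rw [map_mul, map_neg, Complex.conj_ofReal, map_sub, Complex.conj_ofReal]
      push_cast
      ring
    rw [h2, Complex.add_re, Complex.ofReal_re, Complex.re_ofReal_mul]
    have h3 : -(2 * ε * r) ≤ (conj (V - (r : ℂ))).re := by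
      rw [Complex.conj_re]
      have h4 := (Complex.abs_re_le_norm (V - (r : ℂ))).trans hV
      exact (abs_le.mp h4).1
    have h5 : k ^ 2 * r * (-(2 * ε * r)) ≤ k ^ 2 * r * (conj (V - (r : ℂ))).re := by gcongr
    nlinarith
  have hEre : 1 + (k ^ 2 * (1 / p) - 2 * k ^ 2 * (δ * (Real.log p / p)) -
      D * (p : ℝ) ^ (-(3 / 2 : ℝ))) ≤ ‖E‖ := by
    have h2 : E.re ≤ ‖E‖ := Complex.re_le_norm E
    have h3 : -(D * (p : ℝ) ^ (-(3 / 2 : ℝ))) ≤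
        (E - 1 - ((r : ℂ) + -((k + 1 : ℝ) : ℂ) * (r : ℂ)) * conj (-(k : ℂ) * V)).re := by
      have h4 := (Complex.abs_re_le_norm _).trans herr
      exact (abs_le.mp h4).1
    rw [Complex.sub_re, Complex.sub_re, Complex.one_re] at h3
    have h5 : k ^ 2 * r ^ 2 - 2 * k ^ 2 * ε * r ^ 2 =
        k ^ 2 * (1 / p) - 2 * k ^ 2 * (δ * (Real.log p / p)) := by
      rw [hr2, hε]
      ring
    rw [h5] at hmainre
    linarith
  refine le_trans ?_ hEre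
  set x := k ^ 2 * (1 / p) - 2 * k ^ 2 * (δ * (Real.log p / p)) -
      D * (p : ℝ) ^ (-(3 / 2 : ℝ)) with hx
  have hp32 : 0 ≤ (p : ℝ) ^ (-(3 / 2 : ℝ)) := by positivity
  have hp32' : (p : ℝ) ^ (-(3 / 2 : ℝ)) ≤ 1 / p := by
    rw [← hr3, ← hr2]
    exact pow_le_pow_of_le_one hr0.le hr1 (by norm_num)
  have hdl : 0 ≤ δ * (Real.log p / p) := by positivity
  have hdl' : δ * (Real.log p / p) ≤ 1 / p := by
    have h2 : δ * (Real.log p / p) = ε * (1 / p) := by rw [hε]; ring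
    rw [h2]
    calc ε * (1 / p) ≤ 1 * (1 / p) := by gcongr
      _ = _ := one_mul _
  have hip : (0 : ℝ) ≤ 1 / p := by positivity
  have hxabs : |x| ≤ S * (1 / p) := by
    have a1 : 0 ≤ k ^ 2 * (1 / p) := by positivity
    have a2 : k ^ 2 * (δ * (Real.log p / p)) ≤ k ^ 2 * (1 / p) := by gcongr
    have a3 : D * (p : ℝ) ^ (-(3 / 2 : ℝ)) ≤ D * (1 / p) := by gcongr
    have a4 : 0 ≤ D * (p : ℝ) ^ (-(3 / 2 : ℝ)) := by positivity
    have a5 : 0 ≤ k ^ 2 * (δ * (Real.log p / p)) := by positivity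
    have a6 : 0 ≤ D * (1 / p) := by positivity
    rw [abs_le, hS, hx]
    constructor <;> nlinarith
  have hxhalf : |x| ≤ 1 / 2 := by
    refine hxabs.trans ?_
    rw [mul_one_div, div_le_iff₀ hpp]
    linarith
  have hx2 : x ^ 2 ≤ S ^ 2 * (p : ℝ) ^ (-(3 / 2 : ℝ)) := by
    have h2 : x ^ 2 ≤ (S * (1 / p)) ^ 2 := by
      rw [← sq_abs x]
      gcongr
    have h3 : ((1 : ℝ) / p) ^ 2 ≤ (p : ℝ) ^ (-(3 / 2 : ℝ)) := by
      rw [← hr3, ← hr2, ← pow_mul]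
      exact pow_le_pow_of_le_one hr0.le hr1 (by norm_num)
    calc x ^ 2 ≤ (S * (1 / p)) ^ 2 := h2
      _ = S ^ 2 * (1 / p) ^ 2 := by ring
      _ ≤ _ := by gcongr
  refine le_trans ?_ (rm3_exp_le hxhalf)
  apply Real.exp_le_exp.mpr
  have b1 : 0 ≤ D * (δ * (Real.log p / p)) := by positivity
  have b2 : 0 ≤ S ^ 2 * (δ * (Real.log p / p)) := by positivity
  have b3 : 0 ≤ k ^ 2 * (p : ℝ) ^ (-(3 / 2 : ℝ)) := by positivity
  rw [hx]
  nlinarith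

private theorem rm3_trunc (l : ℕ) (V W : ℂ) :
    ‖Ex l V ^ 2 * conj (Ex l W ^ 2) - cexp V ^ 2 * conj (cexp W ^ 2)‖ ≤
      4 * (2 : ℝ)⁻¹ ^ l * Real.exp (3 * ‖V‖ + 3 * ‖W‖) := by
  set η : ℝ := (2 : ℝ)⁻¹ ^ l with hη
  have hη0 : 0 ≤ η := by positivity
  have hexpn : ∀ v : ℂ, ‖cexp v‖ ≤ Real.exp ‖v‖ := fun v => by
    rw [Complex.norm_exp]
    exact Real.exp_le_exp.mpr (Complex.re_le_norm v)
  have hsq : ∀ v : ℂ, ‖Ex l v ^ 2 - cexp v ^ 2‖ ≤ 2 * η * Real.exp (3 * ‖v‖) := by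
    intro v
    have h1 : Ex l v ^ 2 - cexp v ^ 2 = (Ex l v - cexp v) * (Ex l v + cexp v) := by ring
    rw [h1, norm_mul]
    have h2 : ‖Ex l v + cexp v‖ ≤ 2 * Real.exp ‖v‖ := by
      have h3 := norm_add_le (Ex l v) (cexp v)
      have h4 := norm_Ex_le l v
      have h5 := hexpn v
      linarith
    calc ‖Ex l v - cexp v‖ * ‖Ex l v + cexp v‖ ≤
          (η * Real.exp (2 * ‖v‖)) * (2 * Real.exp ‖v‖) := by
          gcongr
          exact norm_Ex_sub_exp l v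
      _ = 2 * η * (Real.exp (2 * ‖v‖) * Real.exp ‖v‖) := by ring
      _ = 2 * η * Real.exp (3 * ‖v‖) := by
          rw [← Real.exp_add]
          congr 2
          ring
  have h1 : Ex l V ^ 2 * conj (Ex l W ^ 2) - cexp V ^ 2 * conj (cexp W ^ 2) =
      (Ex l V ^ 2 - cexp V ^ 2) * conj (Ex l W ^ 2) + cexp V ^ 2 * conj (Ex l W ^ 2 - cexp W ^ 2) := by
    rw [map_sub]
    ring
  rw [h1]
  have e3 : ∀ v : ℂ, Real.exp ‖v‖ ^ 2 ≤ Real.exp (3 * ‖v‖) := by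
    intro v
    rw [← Real.exp_nat_mul]
    apply Real.exp_le_exp.mpr
    push_cast
    have := norm_nonneg v
    linarith
  have t1 : ‖(Ex l V ^ 2 - cexp V ^ 2) * conj (Ex l W ^ 2)‖ ≤
      2 * η * Real.exp (3 * ‖V‖) * Real.exp (3 * ‖W‖) := by
    rw [norm_mul, Complex.norm_conj, norm_pow]
    have h2 : ‖Ex l W‖ ^ 2 ≤ Real.exp (3 * ‖W‖) := by
      refine le_trans ?_ (e3 W)
      gcongr
      exact norm_Ex_le l W
    exact mul_le_mul (hsq V) h2 (by positivity) (by positivity)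
  have t2 : ‖cexp V ^ 2 * conj (Ex l W ^ 2 - cexp W ^ 2)‖ ≤
      Real.exp (3 * ‖V‖) * (2 * η * Real.exp (3 * ‖W‖)) := by
    rw [norm_mul, Complex.norm_conj, norm_pow]
    have h2 : ‖cexp V‖ ^ 2 ≤ Real.exp (3 * ‖V‖) := by
      refine le_trans ?_ (e3 V)
      gcongr
      exact hexpn V
    exact mul_le_mul h2 (hsq W) (by positivity) (by positivity)
  calc _ ≤ _ := norm_add_le _ _
    _ ≤ 2 * η * Real.exp (3 * ‖V‖) * Real.exp (3 * ‖W‖) +
        Real.exp (3 * ‖V‖) * (2 * η * Real.exp (3 * ‖W‖)) := add_le_add t1 t2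
    _ = 4 * η * Real.exp (3 * ‖V‖ + 3 * ‖W‖) := by
        rw [Real.exp_add]
        ring

private theorem rm3_Zt2 : ∃ C : ℝ, 0 ≤ C ∧ ∀ (R : Finset ℕ), (∀ p ∈ R, p.Prime) →
    ∫ w, ‖Zt R (1 / 2) w‖ ^ 2 ∂mu ≤ Real.exp (C * sR R) := by
  obtain ⟨C, hC, h⟩ := rm1_exp 0 le_rfl
  refine ⟨1 + C, by positivity, fun R hR => ?_⟩
  have h1 := h R (1 / 2) 0 0 0 hR (by norm_num) (by simp) (by simp) (by simp) (by simp)
  simp only [Complex.ofReal_zero, neg_zero, zero_mul, Complex.exp_zero, norm_one, one_pow,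
    mul_one, mul_zero, sub_zero, one_mul] at h1
  refine h1.trans (Real.exp_le_exp.mpr ?_)
  have h2 : eR R 0 ≤ sR R := by
    unfold eR sR
    refine Finset.sum_le_sum fun p hp => ?_
    obtain ⟨hr0, hr17, hr2, hr3⟩ := rm3_r (hR p hp)
    rw [zero_mul, add_zero, ← hr3, ← hr2]
    exact pow_le_pow_of_le_one hr0.le (by linarith) (by norm_num)
  nlinarith

private theorem rm3_mom (a : ℝ) (ha : 0 ≤ a) : ∃ C : ℝ, 0 ≤ C ∧
    ∀ (R : Finset ℕ) (z : ℂ), (∀ p ∈ R, p.Prime) → (∀ p ∈ R, ‖z‖ * Real.log p ≤ 1) →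
    ∫ w, ‖Zt R (1 / 2) w‖ * Real.exp (a * ‖PX R 0 w‖ + a * ‖PX R z w‖) ∂mu ≤
      5 * Real.exp (C * sR R) := by
  obtain ⟨C1, hC1, h1⟩ := rm3_Zt2
  obtain ⟨C2, hC2, h2⟩ := exp_moment (4 * a) (by positivity)
  refine ⟨C1 + C2, by positivity, fun R z hR hz => ?_⟩
  have hs : 0 ≤ sR R := Finset.sum_nonneg fun p _ => by positivity
  have cZ := continuous_Zt R hR (σ := 1 / 2) (by norm_num)
  have c1 := continuous_PX R 0
  have c2 := continuous_PX R z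
  have hpt : ∀ w, ‖Zt R (1 / 2) w‖ * Real.exp (a * ‖PX R 0 w‖ + a * ‖PX R z w‖) ≤
      1 / 2 * ‖Zt R (1 / 2) w‖ ^ 2 + (1 / 4 * Real.exp (4 * a * ‖PX R 0 w‖) +
        1 / 4 * Real.exp (4 * a * ‖PX R z w‖)) := by
    intro w
    set x := Real.exp (a * ‖PX R 0 w‖)
    set y := Real.exp (a * ‖PX R z w‖)
    have e1 : Real.exp (4 * a * ‖PX R 0 w‖) = x ^ 4 := by
      rw [← Real.exp_nat_mul]
      congr 1
      push_cast
      ring
    have e2 : Real.exp (4 * a * ‖PX R z w‖) = y ^ 4 := by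
      rw [← Real.exp_nat_mul]
      congr 1
      push_cast
      ring
    rw [Real.exp_add, e1, e2]
    nlinarith [sq_nonneg (‖Zt R (1 / 2) w‖ - x * y), sq_nonneg (x ^ 2 - y ^ 2)]
  have i1 : Integrable (fun w => 1 / 2 * ‖Zt R (1 / 2) w‖ ^ 2) mu :=
    integrable_of_continuous (by fun_prop)
  have i2 : Integrable (fun w => 1 / 4 * Real.exp (4 * a * ‖PX R 0 w‖)) mu :=
    integrable_of_continuous (by fun_prop)
  have i3 : Integrable (fun w => 1 / 4 * Real.exp (4 * a * ‖PX R z w‖)) mu :=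
    integrable_of_continuous (by fun_prop)
  have m1 : Real.exp (C1 * sR R) ≤ Real.exp ((C1 + C2) * sR R) := by
    apply Real.exp_le_exp.mpr
    nlinarith
  have m2 : Real.exp (C2 * sR R) ≤ Real.exp ((C1 + C2) * sR R) := by
    apply Real.exp_le_exp.mpr
    nlinarith
  have hm0 := h2 R 0 hR (by simp)
  have hmz := h2 R z hR hz
  have hz2 := h1 R hR
  calc _ ≤ ∫ w, (1 / 2 * ‖Zt R (1 / 2) w‖ ^ 2 + (1 / 4 * Real.exp (4 * a * ‖PX R 0 w‖) +
        1 / 4 * Real.exp (4 * a * ‖PX R z w‖))) ∂mu := by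
        refine integral_mono (integrable_of_continuous ?_) (i1.add (i2.add i3)) hpt
        fun_prop
    _ = 1 / 2 * (∫ w, ‖Zt R (1 / 2) w‖ ^ 2 ∂mu) + (1 / 4 * (∫ w, Real.exp (4 * a * ‖PX R 0 w‖) ∂mu) +
        1 / 4 * ∫ w, Real.exp (4 * a * ‖PX R z w‖) ∂mu) := by
        have h3 := integral_add i1 (i2.add i3)
        have h4 := integral_add i2 i3
        have h5 : ∫ w, ((fun w => 1 / 4 * Real.exp (4 * a * ‖PX R 0 w‖)) +
          fun w => 1 / 4 * Real.exp (4 * a * ‖PX R z w‖)) w ∂mu =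
          ∫ w, (1 / 4 * Real.exp (4 * a * ‖PX R 0 w‖) + 1 / 4 * Real.exp (4 * a * ‖PX R z w‖)) ∂mu := rfl
        rw [h5, h4] at h3
        rw [integral_const_mul, integral_const_mul, integral_const_mul] at h3
        exact h3
    _ ≤ 5 * Real.exp ((C1 + C2) * sR R) := by
        have : 0 < Real.exp ((C1 + C2) * sR R) := Real.exp_pos _
        linarith


theorem rm3 (k : ℝ) (hk : 0 < k) : ∃ (C : ℝ) (p0 : ℕ), 0 ≤ C ∧
    ∀ (R : Finset ℕ) (l : ℕ) (δ : ℝ) (z : ℂ),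
    (∀ p ∈ R, p.Prime ∧ p0 < p) → ‖z‖ ≤ δ → (∀ p ∈ R, δ * Real.log p ≤ 1) →
    Real.exp (k ^ 2 * sR R - C * eR R δ) * (1 - (2 : ℝ)⁻¹ ^ l * Real.exp (C * (sR R + 1))) ≤
    ‖∫ w, Zt R (1 / 2) w * Ex l (-((k + 1) / 2 : ℝ) * PX R 0 w) ^ 2 *
      conj (Ex l (-(k / 2 : ℝ) * PX R z w) ^ 2) ∂mu‖ := by
  obtain ⟨C1, p0, hC1, hexpv⟩ := rm3_expv k hk
  obtain ⟨C2, hC2, hmom⟩ := rm3_mom (3 * ((k + 1) / 2)) (by positivity)
  set C := 2 * C1 + C2 + 20 with hC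
  have hC0 : 0 ≤ C := by positivity
  refine ⟨C, p0, hC0, fun R l δ z hR hz hδ => ?_⟩
  have hδ0 : 0 ≤ δ := (norm_nonneg _).trans hz
  have hR' : ∀ p ∈ R, p.Prime := fun p hp => (hR p hp).1
  have hzl : ∀ p ∈ R, ‖z‖ * Real.log p ≤ 1 := fun p hp =>
    (mul_le_mul_of_nonneg_right hz (Real.log_natCast_nonneg p)).trans (hδ p hp)
  have hs : 0 ≤ sR R := Finset.sum_nonneg fun p _ => by positivity
  have he : 0 ≤ eR R δ := Finset.sum_nonneg fun p _ => by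
    have : 0 ≤ Real.log p := Real.log_natCast_nonneg p
    positivity
  have he2 : eR R δ ≤ 2 * sR R := by
    unfold eR sR
    rw [Finset.mul_sum]
    refine Finset.sum_le_sum fun p hp => ?_
    obtain ⟨hr0, hr17, hr2, hr3⟩ := rm3_r (hR' p hp)
    have h1 : (p : ℝ) ^ (-(3 / 2 : ℝ)) ≤ 1 / p := by
      rw [← hr3, ← hr2]
      exact pow_le_pow_of_le_one hr0.le (by linarith) (by norm_num)
    have h2 : δ * (Real.log p / p) ≤ 1 / p := by
      have h3 : δ * (Real.log p / p) = (δ * Real.log p) * (1 / p) := by ring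
      rw [h3]
      calc (δ * Real.log p) * (1 / p) ≤ 1 * (1 / p) := by
            gcongr
            exact hδ p hp
        _ = _ := one_mul _
    linarith
  set η : ℝ := (2 : ℝ)⁻¹ ^ l with hη
  have hη0 : 0 ≤ η := by positivity
  set E := Real.exp (C * (sR R + 1)) with hE
  have hE0 : 0 < E := Real.exp_pos _
  rcases le_or_gt 1 (η * E) with hcase | hcase
  · have h1 : Real.exp (k ^ 2 * sR R - C * eR R δ) * (1 - η * E) ≤ 0 :=
      mul_nonpos_of_nonneg_of_nonpos (Real.exp_pos _).le (by linarith)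
    exact h1.trans (norm_nonneg _)
  -- the truncation error
  have cZ := continuous_Zt R hR' (σ := 1 / 2) (by norm_num)
  have c1 := continuous_PX R 0
  have c2 := continuous_PX R z
  have cE := continuous_Ex l
  have hint1 : Integrable (fun w => Zt R (1 / 2) w * Ex l (-((k + 1) / 2 : ℝ) * PX R 0 w) ^ 2 *
      conj (Ex l (-(k / 2 : ℝ) * PX R z w) ^ 2)) mu := by
    refine integrable_of_continuous ?_
    exact (cZ.mul ((cE.comp (continuous_const.mul c1)).pow 2)).mul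
      (Complex.continuous_conj.comp ((cE.comp (continuous_const.mul c2)).pow 2))
  have hint2 : Integrable (fun w => Zt R (1 / 2) w * cexp (-((k + 1) / 2 : ℝ) * PX R 0 w) ^ 2 *
      conj (cexp (-(k / 2 : ℝ) * PX R z w) ^ 2)) mu := by
    refine integrable_of_continuous ?_
    exact (cZ.mul ((Complex.continuous_exp.comp (continuous_const.mul c1)).pow 2)).mul
      (Complex.continuous_conj.comp ((Complex.continuous_exp.comp (continuous_const.mul c2)).pow 2))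
  have hdiff : ‖(∫ w, Zt R (1 / 2) w * Ex l (-((k + 1) / 2 : ℝ) * PX R 0 w) ^ 2 *
      conj (Ex l (-(k / 2 : ℝ) * PX R z w) ^ 2) ∂mu) -
      ∫ w, Zt R (1 / 2) w * cexp (-((k + 1) / 2 : ℝ) * PX R 0 w) ^ 2 *
      conj (cexp (-(k / 2 : ℝ) * PX R z w) ^ 2) ∂mu‖ ≤ 20 * η * Real.exp (C2 * sR R) := by
    rw [← integral_sub hint1 hint2]
    have hb : ∀ w, ‖Zt R (1 / 2) w * Ex l (-((k + 1) / 2 : ℝ) * PX R 0 w) ^ 2 *
      conj (Ex l (-(k / 2 : ℝ) * PX R z w) ^ 2) -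
      Zt R (1 / 2) w * cexp (-((k + 1) / 2 : ℝ) * PX R 0 w) ^ 2 *
      conj (cexp (-(k / 2 : ℝ) * PX R z w) ^ 2)‖ ≤ 4 * η * (‖Zt R (1 / 2) w‖ *
        Real.exp (3 * ((k + 1) / 2) * ‖PX R 0 w‖ + 3 * ((k + 1) / 2) * ‖PX R z w‖)) := by
      intro w
      have h1 : Zt R (1 / 2) w * Ex l (-((k + 1) / 2 : ℝ) * PX R 0 w) ^ 2 *
        conj (Ex l (-(k / 2 : ℝ) * PX R z w) ^ 2) -
        Zt R (1 / 2) w * cexp (-((k + 1) / 2 : ℝ) * PX R 0 w) ^ 2 *
        conj (cexp (-(k / 2 : ℝ) * PX R z w) ^ 2) = Zt R (1 / 2) w *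
        (Ex l (-((k + 1) / 2 : ℝ) * PX R 0 w) ^ 2 * conj (Ex l (-(k / 2 : ℝ) * PX R z w) ^ 2) -
        cexp (-((k + 1) / 2 : ℝ) * PX R 0 w) ^ 2 *
        conj (cexp (-(k / 2 : ℝ) * PX R z w) ^ 2)) := by ring
      rw [h1, norm_mul]
      have h2 := rm3_trunc l (-((k + 1) / 2 : ℝ) * PX R 0 w) (-(k / 2 : ℝ) * PX R z w)
      have h3 : ‖-(((k + 1) / 2 : ℝ) : ℂ) * PX R 0 w‖ = (k + 1) / 2 * ‖PX R 0 w‖ := by
        rw [norm_mul, norm_neg, Complex.norm_real, Real.norm_of_nonneg (by positivity)]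
      have h4 : ‖-((k / 2 : ℝ) : ℂ) * PX R z w‖ = k / 2 * ‖PX R z w‖ := by
        rw [norm_mul, norm_neg, Complex.norm_real, Real.norm_of_nonneg (by positivity)]
      rw [h3, h4] at h2
      have h5 : Real.exp (3 * ((k + 1) / 2 * ‖PX R 0 w‖) + 3 * (k / 2 * ‖PX R z w‖)) ≤
          Real.exp (3 * ((k + 1) / 2) * ‖PX R 0 w‖ + 3 * ((k + 1) / 2) * ‖PX R z w‖) := by
        apply Real.exp_le_exp.mpr
        have := norm_nonneg (PX R z w)
        nlinarith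
      calc _ ≤ ‖Zt R (1 / 2) w‖ * (4 * η *
            Real.exp (3 * ((k + 1) / 2 * ‖PX R 0 w‖) + 3 * (k / 2 * ‖PX R z w‖))) := by gcongr
        _ ≤ ‖Zt R (1 / 2) w‖ * (4 * η *
            Real.exp (3 * ((k + 1) / 2) * ‖PX R 0 w‖ + 3 * ((k + 1) / 2) * ‖PX R z w‖)) := by gcongr
        _ = _ := by ring
    have hI : Integrable (fun w => ‖Zt R (1 / 2) w‖ *
        Real.exp (3 * ((k + 1) / 2) * ‖PX R 0 w‖ + 3 * ((k + 1) / 2) * ‖PX R z w‖)) mu :=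
      integrable_of_continuous (by fun_prop)
    calc _ ≤ ∫ w, 4 * η * (‖Zt R (1 / 2) w‖ *
        Real.exp (3 * ((k + 1) / 2) * ‖PX R 0 w‖ + 3 * ((k + 1) / 2) * ‖PX R z w‖)) ∂mu :=
          norm_integral_le_of_norm_le (hI.const_mul _) (ae_of_all _ hb)
      _ = 4 * η * ∫ w, ‖Zt R (1 / 2) w‖ *
        Real.exp (3 * ((k + 1) / 2) * ‖PX R 0 w‖ + 3 * ((k + 1) / 2) * ‖PX R z w‖) ∂mu :=
          integral_const_mul _ _
      _ ≤ 4 * η * (5 * Real.exp (C2 * sR R)) :=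
          mul_le_mul_of_nonneg_left (hmom R z hR' hzl) (by positivity)
      _ = _ := by ring
  have hlow := hexpv R δ z hR hz hδ
  set I1 := ∫ w, Zt R (1 / 2) w * Ex l (-((k + 1) / 2 : ℝ) * PX R 0 w) ^ 2 *
      conj (Ex l (-(k / 2 : ℝ) * PX R z w) ^ 2) ∂mu with hI1
  set I2 := ∫ w, Zt R (1 / 2) w * cexp (-((k + 1) / 2 : ℝ) * PX R 0 w) ^ 2 *
      conj (cexp (-(k / 2 : ℝ) * PX R z w) ^ 2) ∂mu with hI2
  set L := Real.exp (k ^ 2 * sR R - C1 * eR R δ) with hL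
  have hL0 : 0 < L := Real.exp_pos _
  have hge : L - 20 * η * Real.exp (C2 * sR R) ≤ ‖I1‖ := by
    have h1 : ‖I2‖ ≤ ‖I1‖ + ‖I1 - I2‖ := by
      have h2 : I2 = I1 - (I1 - I2) := by ring
      calc ‖I2‖ = ‖I1 - (I1 - I2)‖ := by rw [← h2]
        _ ≤ _ := norm_sub_le _ _
    linarith
  refine le_trans ?_ hge
  set L' := Real.exp (k ^ 2 * sR R - C * eR R δ) with hL'
  have hL'0 : 0 < L' := Real.exp_pos _
  have hLL : L' ≤ L := by
    apply Real.exp_le_exp.mpr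
    have : C1 * eR R δ ≤ C * eR R δ := by
      gcongr
      linarith
    linarith
  have hk2 : 0 ≤ k ^ 2 * sR R := by positivity
  have h19 : (20 : ℝ) ≤ Real.exp 19 := by linarith [Real.add_one_le_exp (19 : ℝ)]
  have h20 : (40 : ℝ) ≤ Real.exp 20 := by
    have h1 : Real.exp 20 = Real.exp 10 * Real.exp 10 := by rw [← Real.exp_add]; norm_num
    have h2 : (11 : ℝ) ≤ Real.exp 10 := by linarith [Real.add_one_le_exp (10 : ℝ)]
    rw [h1]
    nlinarith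
  rcases le_or_gt 1 ((C - C1) * eR R δ) with hB | hB
  · -- case B1
    have h1 : L' ≤ L / 2 := by
      have h2 : L' = L * Real.exp (-((C - C1) * eR R δ)) := by
        rw [hL, hL', ← Real.exp_add]
        congr 1
        ring
      have h3 : Real.exp (-((C - C1) * eR R δ)) ≤ 1 / 2 := by
        have h4 : Real.exp (-((C - C1) * eR R δ)) ≤ Real.exp (-1) :=
          Real.exp_le_exp.mpr (by linarith)
        have h5 : (2 : ℝ) ≤ Real.exp 1 := by linarith [Real.add_one_le_exp (1 : ℝ)]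
        rw [Real.exp_neg 1] at h4
        refine h4.trans ?_
        rw [one_div]
        exact inv_anti₀ (by norm_num) h5
      rw [h2]
      calc L * Real.exp (-((C - C1) * eR R δ)) ≤ L * (1 / 2) := by gcongr
        _ = L / 2 := by ring
    have h2 : L' * (1 - η * E) ≤ L / 2 := by
      have h3 : 1 - η * E ≤ 1 := by
        have : 0 ≤ η * E := by positivity
        linarith
      calc L' * (1 - η * E) ≤ L' * 1 := by gcongr
        _ = L' := mul_one _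
        _ ≤ _ := h1
    have h4 : 20 * η * Real.exp (C2 * sR R) ≤ L / 2 := by
      have h5 : η * Real.exp (C * (sR R + 1)) ≤ 1 := hcase.le
      have h6 : 40 * Real.exp (C2 * sR R) ≤ L * E := by
        have h7 : L * E = Real.exp (k ^ 2 * sR R - C1 * eR R δ + C * (sR R + 1)) := by
          rw [hL, hE, ← Real.exp_add]
        rw [h7]
        calc 40 * Real.exp (C2 * sR R) ≤ Real.exp 20 * Real.exp (C2 * sR R) := by gcongr
          _ = Real.exp (20 + C2 * sR R) := by rw [Real.exp_add]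
          _ ≤ _ := by
              apply Real.exp_le_exp.mpr
              have h8 : C1 * eR R δ ≤ C1 * (2 * sR R) := by gcongr
              rw [hC]
              nlinarith
      have h9 : 40 * Real.exp (C2 * sR R) * η ≤ L := by
        calc 40 * Real.exp (C2 * sR R) * η ≤ L * E * η := by gcongr
          _ = L * (η * E) := by ring
          _ ≤ L * 1 := by gcongr
          _ = L := mul_one _
      linarith
    linarith
  · -- case B2
    have h1 : 20 * Real.exp (C2 * sR R) ≤ L' * E := by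
      have h7 : L' * E = Real.exp (k ^ 2 * sR R - C * eR R δ + C * (sR R + 1)) := by
        rw [hL', hE, ← Real.exp_add]
      rw [h7]
      calc 20 * Real.exp (C2 * sR R) ≤ Real.exp 19 * Real.exp (C2 * sR R) := by gcongr
        _ = Real.exp (19 + C2 * sR R) := by rw [Real.exp_add]
        _ ≤ _ := by
            apply Real.exp_le_exp.mpr
            have h8 : C1 * eR R δ ≤ C1 * (2 * sR R) := by gcongr
            have h9 : C * eR R δ ≤ C1 * (2 * sR R) + 1 := by nlinarith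
            have h10 : C * (sR R + 1) = 2 * C1 * sR R + C2 * sR R + 20 * sR R + C := by
              rw [hC]
              ring
            have h11 : 20 ≤ C := by
              rw [hC]
              linarith
            rw [h10]
            linarith
    have h2 : 20 * η * Real.exp (C2 * sR R) ≤ L' * (η * E) := by
      calc 20 * η * Real.exp (C2 * sR R) = η * (20 * Real.exp (C2 * sR R)) := by ring
        _ ≤ η * (L' * E) := by gcongr
        _ = _ := by ring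
    have h3 : L' * (1 - η * E) = L' - L' * (η * E) := by ring
    rw [h3]
    linarith

end Pool.Agent.GH
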