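import Pool.Agent.Lib.MP_69b2e4_nt.GH.Defs

/-! TASK Square. The derivative is bounded by the mean square over a square.
Proof. For `0 < r ≤ 2h` Cauchy's formula on the circle `|z - z0| = r` (`Complex.two_pi_I_inv_smul_circleIntegral_sub_inv_smul` for the derivative:
`Complex.two_pi_I_inv_smul_circleIntegral_sub_sq_inv_smul_of_differentiable` or `Complex.norm_deriv_le_..`; here we need the mean square form): `f'(z0) = (1/2π) ∫_0^{2π} f(z0+re^{iφ}) e^{-iφ}/r dφ`, so by Cauchy-Schwarz
`r² ‖f'(z0)‖² ≤ (1/2π) ∫_0^{2π} ‖f(z0+re^{iφ})‖² dφ`. Multiply by `r` and integrate over `(0,2h)`: `4h⁴ ‖f'(z0)‖² ≤ (1/2π) ∫_{|z-z0|<2h} ‖f‖² dA` (polar coordinates,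
`Complex.integral_comp_polarCoord_symm` / `integral_comp_polarCoord_symm` on `ℝ × ℝ`) `≤ (1/2π) ∫_{square} ‖f‖²`, the square `|a|,|b| ≤ 2h` contains the disc. (`8π h⁴ ≥ h⁴`.)
`f` is continuous on the closed square (differentiable on a neighbourhood). -/

set_option autoImplicit false

namespace Pool.Agent.GH

open Complex MeasureTheory Finset
open scoped Real ComplexConjugate

/-- The mean square over a circle. -/
private theorem Square_circle {f : ℂ → ℂ} {z0 : ℂ} {R r : ℝ} (hr : 0 < r) (hrR : r < R)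
    (hf : DifferentiableOn ℂ f (Metric.ball z0 R)) :
    2 * π * r ^ 2 * ‖deriv f z0‖ ^ 2 ≤
      ∫ φ in (-π)..π, ‖f (circleMap z0 r φ)‖ ^ 2 := by
  have hsub : Metric.closedBall z0 r ⊆ Metric.ball z0 R := Metric.closedBall_subset_ball hrR
  have hC := Complex.two_pi_I_inv_smul_circleIntegral_sub_sq_inv_smul_of_differentiable
    Metric.isOpen_ball hsub hf (Metric.mem_ball_self hr)
  have hcont : Continuous fun φ : ℝ => f (circleMap z0 r φ) := by
    refine hf.continuousOn.comp_continuous (continuous_circleMap z0 r) fun φ => ?_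
    exact hsub (circleMap_mem_closedBall z0 hr.le φ)
  have hI : ∀ a b : ℝ, IntervalIntegrable (fun φ : ℝ => ‖f (circleMap z0 r φ)‖) volume a b :=
    fun a b => hcont.norm.intervalIntegrable a b
  have hI2 : ∀ a b : ℝ, IntervalIntegrable (fun φ : ℝ => ‖f (circleMap z0 r φ)‖ ^ 2) volume a b :=
    fun a b => (hcont.norm.pow 2).intervalIntegrable a b
  have hper : ∫ φ in (-π)..π, ‖f (circleMap z0 r φ)‖ ^ 2 =
      ∫ φ in (0 : ℝ)..(2 * π), ‖f (circleMap z0 r φ)‖ ^ 2 := by
    have hp : Function.Periodic (fun φ : ℝ => ‖f (circleMap z0 r φ)‖ ^ 2) (2 * π) := by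
      intro φ
      simp only [periodic_circleMap z0 r φ]
    have h := hp.intervalIntegral_add_eq (-π) 0
    rw [show -π + 2 * π = π by ring, zero_add] at h
    exact h
  rw [hper]
  -- the first power
  have h1 : 2 * π * r * ‖deriv f z0‖ ≤ ∫ φ in (0 : ℝ)..(2 * π), ‖f (circleMap z0 r φ)‖ := by
    have h2 : ‖∮ z in C(z0, r), ((z - z0) ^ 2)⁻¹ • f z‖ ≤
        ∫ φ in (0 : ℝ)..(2 * π), r⁻¹ * ‖f (circleMap z0 r φ)‖ := by
      unfold circleIntegral
      refine (intervalIntegral.norm_integral_le_integral_norm (by positivity)).trans (le_of_eq ?_)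
      congr 1
      ext φ
      rw [norm_smul, norm_smul, deriv_circleMap, norm_mul, norm_circleMap_zero, Complex.norm_I,
        norm_inv, norm_pow, circleMap_sub_center, norm_circleMap_zero, abs_of_pos hr, mul_one]
      field_simp
    rw [intervalIntegral.integral_const_mul] at h2
    rw [← hC, norm_smul, norm_inv]
    have h3 : ‖(2 * π * I : ℂ)‖ = 2 * π := by
      rw [norm_mul, norm_mul, Complex.norm_I, Complex.norm_real,
        Real.norm_of_nonneg Real.pi_pos.le]
      norm_num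
    rw [h3]
    calc 2 * π * r * ((2 * π)⁻¹ * ‖∮ z in C(z0, r), ((z - z0) ^ 2)⁻¹ • f z‖)
        = r * ‖∮ z in C(z0, r), ((z - z0) ^ 2)⁻¹ • f z‖ := by
          have := Real.pi_pos
          field_simp
      _ ≤ r * (r⁻¹ * ∫ φ in (0 : ℝ)..(2 * π), ‖f (circleMap z0 r φ)‖) := by gcongr
      _ = ∫ φ in (0 : ℝ)..(2 * π), ‖f (circleMap z0 r φ)‖ := by
          field_simp
  -- the second power
  obtain ⟨c, hc⟩ : ∃ c : ℝ, c = r * ‖deriv f z0‖ := ⟨_, rfl⟩
  have hc0 : 0 ≤ c := by
    rw [hc]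
    positivity
  have h4 : ∫ φ in (0 : ℝ)..(2 * π), (2 * c * ‖f (circleMap z0 r φ)‖ - c ^ 2) ≤
      ∫ φ in (0 : ℝ)..(2 * π), ‖f (circleMap z0 r φ)‖ ^ 2 := by
    refine intervalIntegral.integral_mono_on (by positivity)
      (((hI _ _).const_mul _).sub intervalIntegrable_const) (hI2 _ _) fun φ _ => ?_
    nlinarith [sq_nonneg (‖f (circleMap z0 r φ)‖ - c)]
  rw [intervalIntegral.integral_sub ((hI _ _).const_mul _) intervalIntegrable_const,
    intervalIntegral.integral_const_mul, intervalIntegral.integral_const, smul_eq_mul,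
    sub_zero] at h4
  refine le_trans ?_ h4
  have h5 : 2 * π * c ≤ ∫ φ in (0 : ℝ)..(2 * π), ‖f (circleMap z0 r φ)‖ := by
    rw [hc]
    calc 2 * π * (r * ‖deriv f z0‖) = 2 * π * r * ‖deriv f z0‖ := by ring
      _ ≤ _ := h1
  have h6 : 2 * π * r ^ 2 * ‖deriv f z0‖ ^ 2 = 2 * π * c ^ 2 := by
    rw [hc]
    ring
  rw [h6]
  nlinarith [mul_le_mul_of_nonneg_left h5 (by positivity : 0 ≤ 2 * c)]

private theorem Square_polar {G : ℂ → ENNReal} (hG : Measurable G) :
    ∫⁻ r in Set.Ioi (0 : ℝ), ENNReal.ofReal r * ∫⁻ φ in Set.Ioo (-π) π, G (circleMap 0 r φ) =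
      ∫⁻ z : ℂ, G z := by
  rw [← Complex.lintegral_comp_polarCoord_symm]
  have hm : Measurable fun p : ℝ × ℝ => ENNReal.ofReal p.1 * G (circleMap 0 p.1 p.2) := by
    refine (ENNReal.measurable_ofReal.comp measurable_fst).mul (hG.comp ?_)
    unfold circleMap
    fun_prop
  have h1 : ∫⁻ p in polarCoord.target, ENNReal.ofReal p.1 • G (Complex.polarCoord.symm p) =
      ∫⁻ p in Set.Ioi (0 : ℝ) ×ˢ Set.Ioo (-π) π,
        ENNReal.ofReal p.1 * G (circleMap 0 p.1 p.2) := by
    refine lintegral_congr fun p => ?_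
    rw [Complex.polarCoord_symm_apply, smul_eq_mul]
    unfold circleMap
    rw [zero_add, Complex.exp_mul_I]
    push_cast
    rfl
  rw [h1, Measure.volume_eq_prod, ← Measure.prod_restrict, lintegral_prod _ hm.aemeasurable]
  refine lintegral_congr fun r => ?_
  refine (lintegral_const_mul _ (hG.comp ?_)).symm
  unfold circleMap
  fun_prop

theorem square_bound {f : ℂ → ℂ} {z0 : ℂ} {h : ℝ} (hh : 0 < h)
    (hf : ∀ z : ℂ, |(z - z0).re| ≤ 2 * h → |(z - z0).im| ≤ 2 * h → DifferentiableAt ℂ f z) :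
    h ^ 4 * ‖deriv f z0‖ ^ 2 ≤
      ∫ a in (-(2 * h))..(2 * h), ∫ b in (-(2 * h))..(2 * h), ‖f (z0 + a + b * I)‖ ^ 2 := by
  have hball : ∀ z ∈ Metric.ball z0 (2 * h), DifferentiableAt ℂ f z := by
    intro z hz
    rw [Metric.mem_ball, dist_eq_norm] at hz
    exact hf z ((Complex.abs_re_le_norm _).trans hz.le) ((Complex.abs_im_le_norm _).trans hz.le)
  have hd : DifferentiableOn ℂ f (Metric.ball z0 (2 * h)) :=
    fun z hz => (hball z hz).differentiableWithinAt
  obtain ⟨G, hG⟩ : ∃ G : ℂ → ENNReal, G = Set.indicator (Metric.ball (0 : ℂ) (2 * h))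
      (fun z => ENNReal.ofReal (‖f (z0 + z)‖ ^ 2)) := ⟨_, rfl⟩
  have hGm : Measurable G := by
    have hco : ContinuousOn (fun z => ENNReal.ofReal (‖f (z0 + z)‖ ^ 2))
        (Metric.ball (0 : ℂ) (2 * h)) := by
      refine ENNReal.continuous_ofReal.comp_continuousOn ?_
      refine (ContinuousOn.norm ?_).pow 2
      refine hd.continuousOn.comp (Continuous.continuousOn (by fun_prop)) fun z hz => ?_
      rw [Metric.mem_ball, dist_eq_norm] at hz ⊢
      simpa using hz
    classical
    rw [hG]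
    have h1 := hco.measurable_piecewise (g := (0 : ℂ → ENNReal)) continuousOn_const
      Metric.isOpen_ball.measurableSet
    rwa [Set.piecewise_eq_indicator] at h1
  have h1 := Square_polar hGm
  -- lower bound
  have h2 : ENNReal.ofReal (8 * π * h ^ 4 * ‖deriv f z0‖ ^ 2) ≤ ∫⁻ z : ℂ, G z := by
    rw [← h1]
    have h3 : ENNReal.ofReal (8 * π * h ^ 4 * ‖deriv f z0‖ ^ 2) =
        ∫⁻ r in Set.Ioo (0 : ℝ) (2 * h),
          ENNReal.ofReal (r * (2 * π * r ^ 2 * ‖deriv f z0‖ ^ 2)) := by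
      rw [← ofReal_integral_eq_lintegral_ofReal]
      · congr 1
        rw [← integral_Ioc_eq_integral_Ioo, ← intervalIntegral.integral_of_le (by positivity)]
        have : (fun r : ℝ => r * (2 * π * r ^ 2 * ‖deriv f z0‖ ^ 2)) =
            fun r : ℝ => (2 * π * ‖deriv f z0‖ ^ 2) * r ^ 3 := by
          ext r
          ring
        rw [this, intervalIntegral.integral_const_mul, integral_pow]
        push_cast
        ring
      · refine (Continuous.integrableOn_Icc (by fun_prop)).mono_set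
          (Set.Ioo_subset_Icc_self (a := (0 : ℝ)) (b := 2 * h))
      · refine (ae_restrict_iff' measurableSet_Ioo).mpr (ae_of_all _ fun r hr => ?_)
        have := hr.1
        simp only [Pi.zero_apply]
        positivity
    rw [h3]
    refine le_trans (setLIntegral_mono' measurableSet_Ioo ?_)
      (lintegral_mono_set (Set.Ioo_subset_Ioi_self))
    intro r hr
    rw [ENNReal.ofReal_mul hr.1.le]
    refine mul_le_mul_right ?_ _
    refine (ENNReal.ofReal_le_ofReal (Square_circle hr.1 hr.2 hd)).trans (le_of_eq ?_)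
    have hpi : -π ≤ π := by linarith [Real.pi_pos]
    have hcont : Continuous fun φ : ℝ => ‖f (circleMap z0 r φ)‖ ^ 2 := by
      refine (Continuous.norm ?_).pow 2
      refine hd.continuousOn.comp_continuous (continuous_circleMap z0 r) fun φ => ?_
      exact Metric.closedBall_subset_ball hr.2 (circleMap_mem_closedBall z0 hr.1.le φ)
    rw [intervalIntegral.integral_of_le hpi, integral_Ioc_eq_integral_Ioo,
      ofReal_integral_eq_lintegral_ofReal]
    · refine setLIntegral_congr_fun measurableSet_Ioo fun φ _ => ?_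
      have hmem : circleMap 0 r φ ∈ Metric.ball (0 : ℂ) (2 * h) := by
        rw [Metric.mem_ball, dist_zero_right, norm_circleMap_zero, abs_of_pos hr.1]
        exact hr.2
      rw [hG, Set.indicator_of_mem hmem]
      simp [circleMap]
    · exact (hcont.integrableOn_Icc).mono_set Set.Ioo_subset_Icc_self
    · exact ae_of_all _ fun φ => by positivity
  -- upper bound
  have hsq : ∀ a ∈ Set.Icc (-(2 * h)) (2 * h), ∀ b ∈ Set.Icc (-(2 * h)) (2 * h),
      DifferentiableAt ℂ f (z0 + a + b * I) := by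
    intro a ha b hb
    refine hf _ ?_ ?_
    · have : (z0 + a + b * I - z0).re = a := by simp
      rw [this, abs_le]
      exact ha
    · have : (z0 + a + b * I - z0).im = b := by simp
      rw [this, abs_le]
      exact hb
  have hcsq : ContinuousOn (fun p : ℝ × ℝ => ‖f (z0 + p.1 + p.2 * I)‖ ^ 2)
      (Set.Icc (-(2 * h)) (2 * h) ×ˢ Set.Icc (-(2 * h)) (2 * h)) := by
    intro p hp
    refine ContinuousAt.continuousWithinAt ?_
    refine (ContinuousAt.norm ?_).pow 2
    exact ContinuousAt.comp (g := f) (f := fun p : ℝ × ℝ => z0 + (p.1 : ℂ) + p.2 * I)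
      (hsq p.1 hp.1 p.2 hp.2).continuousAt (by fun_prop)
  have hisq : IntegrableOn (fun p : ℝ × ℝ => ‖f (z0 + p.1 + p.2 * I)‖ ^ 2)
      (Set.Ioc (-(2 * h)) (2 * h) ×ˢ Set.Ioc (-(2 * h)) (2 * h)) :=
    (hcsq.integrableOn_compact (isCompact_Icc.prod isCompact_Icc)).mono_set
      (Set.prod_mono Set.Ioc_subset_Icc_self Set.Ioc_subset_Icc_self)
  have hle : -(2 * h) ≤ 2 * h := by linarith
  have h4 : ∫ a in (-(2 * h))..(2 * h), ∫ b in (-(2 * h))..(2 * h),
      ‖f (z0 + a + b * I)‖ ^ 2 =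
      ∫ p in Set.Ioc (-(2 * h)) (2 * h) ×ˢ Set.Ioc (-(2 * h)) (2 * h),
        ‖f (z0 + (p : ℝ × ℝ).1 + p.2 * I)‖ ^ 2 := by
    rw [Measure.volume_eq_prod, setIntegral_prod _ hisq, intervalIntegral.integral_of_le hle]
    simp_rw [intervalIntegral.integral_of_le hle]
  have h5 : ∫⁻ z : ℂ, G z ≤
      ENNReal.ofReal (∫ p in Set.Ioc (-(2 * h)) (2 * h) ×ˢ Set.Ioc (-(2 * h)) (2 * h),
        ‖f (z0 + (p : ℝ × ℝ).1 + p.2 * I)‖ ^ 2) := by
    rw [ofReal_integral_eq_lintegral_ofReal hisq (ae_of_all _ fun p => by positivity),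
      ← (Complex.volume_preserving_equiv_real_prod.symm).lintegral_comp_emb
        Complex.measurableEquivRealProd.symm.measurableEmbedding,
      ← lintegral_indicator (measurableSet_Ioc.prod measurableSet_Ioc)]
    refine lintegral_mono fun p => ?_
    by_cases hp : Complex.measurableEquivRealProd.symm p ∈ Metric.ball (0 : ℂ) (2 * h)
    · have hn : ‖Complex.measurableEquivRealProd.symm p‖ < 2 * h := by
        rwa [Metric.mem_ball, dist_zero_right] at hp
      have hp1 : |p.1| < 2 * h := (Complex.abs_re_le_norm _).trans_lt hn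
      have hp2 : |p.2| < 2 * h := (Complex.abs_im_le_norm _).trans_lt hn
      rw [abs_lt] at hp1 hp2
      rw [Set.indicator_of_mem (show p ∈ Set.Ioc (-(2 * h)) (2 * h) ×ˢ
        Set.Ioc (-(2 * h)) (2 * h) from ⟨⟨hp1.1, hp1.2.le⟩, ⟨hp2.1, hp2.2.le⟩⟩), hG,
        Set.indicator_of_mem hp]
      have he : Complex.measurableEquivRealProd.symm p = (p.1 : ℂ) + p.2 * I := by
        apply Complex.ext <;> simp [Complex.measurableEquivRealProd]
      rw [he, add_assoc]
    · rw [hG, Set.indicator_of_notMem hp]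
      exact zero_le
  rw [h4]
  have h6 := (ENNReal.ofReal_le_ofReal_iff (integral_nonneg fun p => by positivity)).mp
    (h2.trans h5)
  refine le_trans ?_ h6
  have h7 : 0 ≤ h ^ 4 * ‖deriv f z0‖ ^ 2 := by positivity
  nlinarith [Real.pi_gt_three]

end Pool.Agent.GH
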