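import Pool.Agent.Lib.MP_69b2e4_nt.Mg.G050
import Pool.Agent.Lib.MP_69b2e4_nt.Mg.G048
import Pool.Agent.Lib.MP_69b2e4_nt.Mg.G051

/-! TASK Step4. The local mean square of zeta with the weight `kf`.
The claim is only about `[T+3h, 2T]`, so that after a shift by `|b| ≤ 3h` we stay inside `[T,3T]`.
Fubini: `∫_{T+3h}^{2T} M2 kf dt = h^{-2} ∫_{|a|,|b| ≤ 3h} (∫_{T+3h}^{2T} ‖ζ(1/2+a+i(t+b))‖² kf t dt) da db`; for fixed `(a,b)` substitute `t → t - b`:
`∫_{T+3h+b}^{2T+b} ‖ζ(1/2+a+it)‖² ‖V_c(1/2+i(t-b))‖⁴ dt ≤` the integral over `[T,3T]`, bounded by `hfun` (with `A = 1/θ³`, `|a|,|b| ≤ 3h = 3A/log T`, `len_Vc`).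
Both quadratic forms `BF S.M S.Vc (1/2) (±a+ib)` are at most `C1 Lam` by `BF_Vc_le` (`‖±a+ib‖ ≤ 3√2 h ≤ 5h`), `exp(C|a|L) ≤ exp(3CA)` is a constant depending on `θ`, and
`T^{9/10} ≤ T Lam` for `T ≥ T0` (`Lam ≥ c`). The area of the square is `36 h²`. Total `≤ C4 T Lam`.
`continuous_M2`: parametric integral of a continuous function (`ζ` is continuous at `1/2+it+a+ib` as the real part is `< 1`). -/

set_option autoImplicit false

namespace Pool.Agent.GH

open Complex MeasureTheory Finset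
open scoped Real ComplexConjugate


/-- the clamp of `a` to `[-3h,3h]` -/
private noncomputable def Step4_cl (h a : ℝ) : ℝ := max (-(3 * h)) (min a (3 * h))

private theorem Step4_cl_of_mem {h a : ℝ} (h1 : -(3 * h) ≤ a) (h2 : a ≤ 3 * h) : Step4_cl h a = a := by
  rw [Step4_cl, min_eq_left h2, max_eq_right h1]

private theorem Step4_cl_le {h : ℝ} (hh : 0 < h) (a : ℝ) : Step4_cl h a ≤ 3 * h :=
  max_le (by linarith) (min_le_right _ _)

private theorem Step4_cl_cont (h : ℝ) : Continuous (Step4_cl h) :=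
  continuous_const.max (continuous_id.min continuous_const)

private noncomputable def Step4_Z (h t a b : ℝ) : ℝ :=
  ‖riemannZeta (1 / 2 + t * I + (Step4_cl h a : ℝ) + b * I)‖ ^ 2

private theorem Step4_Z_cont {h : ℝ} (hh : 0 < h) (hh1 : h ≤ 1 / 10) {X : Type*} [TopologicalSpace X]
    {t a b : X → ℝ} (ht : Continuous t) (ha : Continuous a) (hb : Continuous b) :
    Continuous fun p : X => Step4_Z h (t p) (a p) (b p) := by
  have h1 : Continuous fun p : X =>
      (1 / 2 + (t p : ℂ) * I + ((Step4_cl h (a p) : ℝ) : ℂ) + (b p : ℂ) * I) := by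
    have := (Step4_cl_cont h).comp ha
    have h7 : Continuous fun p => ((Step4_cl h (a p) : ℝ) : ℂ) := continuous_ofReal.comp this
    fun_prop
  have h2 : Continuous fun p : X =>
      riemannZeta (1 / 2 + (t p : ℂ) * I + ((Step4_cl h (a p) : ℝ) : ℂ) + (b p : ℂ) * I) := by
    rw [continuous_iff_continuousAt]
    intro p
    have h3 : (1 / 2 + (t p : ℂ) * I + ((Step4_cl h (a p) : ℝ) : ℂ) + (b p : ℂ) * I) ≠ 1 := by
      intro h4
      have h5 := congrArg Complex.re h4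
      have h6 := Step4_cl_le hh (a p)
      simp at h5
      norm_num at h5
      linarith
    exact ContinuousAt.comp (f := fun p : X =>
      (1 / 2 + (t p : ℂ) * I + ((Step4_cl h (a p) : ℝ) : ℂ) + (b p : ℂ) * I))
      (differentiableAt_riemannZeta h3).continuousAt h1.continuousAt
  exact (h2.norm).pow 2

private theorem Step4_M2 {h : ℝ} (hh : 0 < h) (t : ℝ) : M2 h t = 1 / h ^ 2 *
    ∫ a in (-(3 * h))..(3 * h), ∫ b in (-(3 * h))..(3 * h), Step4_Z h t a b := by
  rw [M2]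
  congr 1
  apply intervalIntegral.integral_congr
  intro a ha
  rw [Set.uIcc_of_le (by linarith)] at ha
  show (∫ b in (-(3 * h))..(3 * h), _) = ∫ b in (-(3 * h))..(3 * h), _
  simp only [Step4_Z, Step4_cl_of_mem ha.1 ha.2]

private theorem Step4_Z_eq {h a : ℝ} (h1 : -(3 * h) ≤ a) (h2 : a ≤ 3 * h) (t b : ℝ) :
    Step4_Z h t a b = ‖riemannZeta (1 / 2 + t * I + a + b * I)‖ ^ 2 := by
  rw [Step4_Z, Step4_cl_of_mem h1 h2]

private theorem Step4_Z_nonneg (h t a b : ℝ) : 0 ≤ Step4_Z h t a b := by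
  rw [Step4_Z]; positivity

attribute [irreducible] Step4_Z

theorem continuous_M2 {h : ℝ} (hh : 0 < h) (hh1 : h ≤ 1 / 10) : Continuous (M2 h) := by
  have h1 : M2 h = fun t => 1 / h ^ 2 *
      ∫ a in (-(3 * h))..(3 * h), ∫ b in (-(3 * h))..(3 * h), Step4_Z h t a b :=
    funext fun t => Step4_M2 hh t
  rw [h1]
  have h3 : Continuous fun q : ℝ × ℝ => ∫ b in (-(3 * h))..(3 * h), Step4_Z h q.1 q.2 b := by
    apply intervalIntegral.continuous_parametric_intervalIntegral_of_continuous'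
      (f := fun (q : ℝ × ℝ) b => Step4_Z h q.1 q.2 b)
    exact Step4_Z_cont (X := (ℝ × ℝ) × ℝ) hh hh1 (t := fun r => r.1.1) (a := fun r => r.1.2)
      (b := fun r => r.2) (by fun_prop) (by fun_prop) (by fun_prop)
  apply continuous_const.mul
  exact intervalIntegral.continuous_parametric_intervalIntegral_of_continuous'
    (f := fun t a => ∫ b in (-(3 * h))..(3 * h), Step4_Z h t a b) h3 _ _

/-- Bound of the triple integral from the bounds of the inner ones. -/
private theorem Step4_fubini {h : ℝ} (hh : 0 < h) (hh1 : h ≤ 1 / 10) (g : ℝ → ℝ) (hg : Continuous g)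
    (p q D : ℝ)
    (hD : ∀ a b : ℝ, -(3 * h) ≤ a → a ≤ 3 * h → -(3 * h) ≤ b → b ≤ 3 * h →
      |∫ t in p..q, Step4_Z h t a b * g t| ≤ D) :
    ∫ t in p..q, M2 h t * g t ≤ 36 * D := by
  have hF1 : Continuous fun q : ℝ × ℝ => ∫ b in (-(3 * h))..(3 * h), Step4_Z h q.1 q.2 b * g q.1 := by
    apply intervalIntegral.continuous_parametric_intervalIntegral_of_continuous'
      (f := fun (q : ℝ × ℝ) b => Step4_Z h q.1 q.2 b * g q.1)
    exact (Step4_Z_cont (X := (ℝ × ℝ) × ℝ) hh hh1 (t := fun r => r.1.1) (a := fun r => r.1.2)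
      (b := fun r => r.2) (by fun_prop) (by fun_prop) (by fun_prop)).mul
      (hg.comp (continuous_fst.comp continuous_fst))
  have hint : ∀ {f : ℝ × ℝ → ℝ} (_ : Continuous f) (a b c d : ℝ),
      IntegrableOn f (Set.uIoc a b ×ˢ Set.uIoc c d) := by
    intro f hf a b c d
    apply (hf.continuousOn.integrableOn_compact (isCompact_uIcc.prod isCompact_uIcc)).mono_set
    exact Set.prod_mono Set.uIoc_subset_uIcc Set.uIoc_subset_uIcc
  have e0 : ∀ t : ℝ, M2 h t * g t = 1 / h ^ 2 *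
      ∫ a in (-(3 * h))..(3 * h), ∫ b in (-(3 * h))..(3 * h), Step4_Z h t a b * g t := by
    intro t
    have e00 : ∀ a : ℝ, ∫ b in (-(3 * h))..(3 * h), Step4_Z h t a b * g t =
        (∫ b in (-(3 * h))..(3 * h), Step4_Z h t a b) * g t := fun a =>
      intervalIntegral.integral_mul_const (g t) (fun b => Step4_Z h t a b)
    simp only [e00]
    have e01 : ∫ a in (-(3 * h))..(3 * h), (∫ b in (-(3 * h))..(3 * h), Step4_Z h t a b) * g t =
        (∫ a in (-(3 * h))..(3 * h), ∫ b in (-(3 * h))..(3 * h), Step4_Z h t a b) * g t :=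
      intervalIntegral.integral_mul_const (g t)
        (fun a => ∫ b in (-(3 * h))..(3 * h), Step4_Z h t a b)
    rw [e01, Step4_M2 hh, mul_assoc]
  have e1 : ∫ t in p..q, M2 h t * g t = 1 / h ^ 2 *
      ∫ t in p..q, ∫ a in (-(3 * h))..(3 * h), ∫ b in (-(3 * h))..(3 * h), Step4_Z h t a b * g t := by
    simp only [e0]
    exact intervalIntegral.integral_const_mul (1 / h ^ 2)
      (fun t => ∫ a in (-(3 * h))..(3 * h), ∫ b in (-(3 * h))..(3 * h), Step4_Z h t a b * g t)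
  have e2 : ∫ t in p..q, ∫ a in (-(3 * h))..(3 * h), ∫ b in (-(3 * h))..(3 * h), Step4_Z h t a b * g t =
      ∫ a in (-(3 * h))..(3 * h), ∫ b in (-(3 * h))..(3 * h), ∫ t in p..q, Step4_Z h t a b * g t := by
    rw [MeasureTheory.intervalIntegral_intervalIntegral_swap
      (F := fun t a => ∫ b in (-(3 * h))..(3 * h), Step4_Z h t a b * g t) (hint hF1 _ _ _ _)]
    apply intervalIntegral.integral_congr
    intro a _
    show ∫ t in p..q, ∫ b in (-(3 * h))..(3 * h), Step4_Z h t a b * g t = _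
    rw [MeasureTheory.intervalIntegral_intervalIntegral_swap
      (F := fun t b => Step4_Z h t a b * g t)]
    apply hint
    exact (Step4_Z_cont (X := ℝ × ℝ) hh hh1 (t := fun r => r.1) (a := fun _ => a)
      (b := fun r => r.2) (by fun_prop) (by fun_prop) (by fun_prop)).mul
      (hg.comp continuous_fst)
  have h6 : |3 * h - -(3 * h)| = 6 * h := by
    rw [abs_of_nonneg (by linarith)]; ring
  have e3 : ‖∫ a in (-(3 * h))..(3 * h), ∫ b in (-(3 * h))..(3 * h), ∫ t in p..q,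
      Step4_Z h t a b * g t‖ ≤ D * (6 * h) * (6 * h) := by
    rw [← h6]
    apply intervalIntegral.norm_integral_le_of_norm_le_const
    intro a ha
    rw [Set.uIoc_of_le (by linarith)] at ha
    apply intervalIntegral.norm_integral_le_of_norm_le_const
    intro b hb
    rw [Set.uIoc_of_le (by linarith)] at hb
    rw [Real.norm_eq_abs]
    exact hD a b ha.1.le ha.2 hb.1.le hb.2
  rw [e1, e2]
  calc 1 / h ^ 2 * ∫ a in (-(3 * h))..(3 * h), ∫ b in (-(3 * h))..(3 * h), ∫ t in p..q,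
        Step4_Z h t a b * g t ≤ 1 / h ^ 2 * (D * (6 * h) * (6 * h)) :=
        mul_le_mul_of_nonneg_left ((le_abs_self _).trans e3) (by positivity)
    _ = 36 * D := by
        field_simp
        ring

private theorem Step4_li {f : ℝ → ℝ} (hf : Continuous f) (hf0 : ∀ x, 0 ≤ f x) (p q : ℝ)
    {B : ℝ} (hB : 0 ≤ B)
    (h : ∫⁻ t in Set.Icc p q, ENNReal.ofReal (f t) ≤ ENNReal.ofReal B) :
    ∫ t in Set.Icc p q, f t ≤ B := by
  rw [MeasureTheory.integral_eq_lintegral_of_nonneg_ae (Filter.Eventually.of_forall hf0)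
    hf.aestronglyMeasurable]
  exact ENNReal.toReal_le_of_le_ofReal hB h

theorem step4 (k : ℝ) (p0 : ℕ) : ∃ C0 : ℝ, ∀ c θ : ℝ, 0 < c → 0 < θ → ∃ C4 T0 : ℝ, 0 < C4 ∧
    ∀ (S : Sys) (C : ℝ), S.k = k → S.p0 = p0 → S.θ = θ → Good S C c → C0 ≤ C → T0 ≤ S.T →
    ∫ t in (S.T + 3 * S.h)..(2 * S.T), M2 S.h t * S.kf t ≤ C4 * S.T * S.Lam := by
  obtain ⟨C0, hC0⟩ := BF_Vc_le k p0
  obtain ⟨Ch, hCh1, hCh⟩ := hfun
  refine ⟨C0, fun c θ hc hθ => ?_⟩
  obtain ⟨C1, hC1, hBF⟩ := hC0 θ hθ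
  by_cases hθ1 : θ ≤ 1 / 100
  swap
  · refine ⟨1, 0, one_pos, fun S C _ _ hSθ hS _ _ => ?_⟩
    exact absurd (hSθ ▸ hS.θ_le) hθ1
  have hA1 : 1 ≤ 1 / θ ^ 3 := by
    rw [le_div_iff₀ (by positivity), one_mul]
    exact pow_le_one₀ hθ.le (by linarith)
  obtain ⟨T0, hT02, hT0⟩ := hCh θ (1 / θ ^ 3) hθ (by linarith) hA1
  set A : ℝ := 1 / θ ^ 3 with hA
  set D : ℝ := Ch * Real.exp (Ch * (3 * A)) / θ * (2 * C1 + 1 / c) with hD
  have hD0 : 0 < D := by positivity
  refine ⟨36 * D, T0, by positivity, fun S C hSk hSp hSθ hS hC hT => ?_⟩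
  have hT1 : 1 ≤ S.T := hS.T_ge
  have hLam : c ≤ S.Lam := by
    refine le_trans ?_ hS.lam_ge
    have hL1 : 1 ≤ S.L := by
      refine le_trans ?_ hS.L_ge
      rw [hSθ, le_div_iff₀ (by positivity), one_mul]
      exact pow_le_one₀ hθ.le (by linarith)
    have : 1 ≤ S.L ^ (S.k ^ 2) := Real.one_le_rpow hL1 (by positivity)
    nlinarith
  have hL : 1 / θ ^ 10 ≤ S.L := hSθ ▸ hS.L_ge
  have hL0 : 0 < S.L := lt_of_lt_of_le (by positivity) hL
  have hh : S.h = A / Real.log S.T := by rw [Sys.h, Sys.A, hSθ]; rfl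
  have hLlog : S.L = Real.log S.T := rfl
  have hh0 : 0 < S.h := by rw [hh, ← hLlog]; positivity
  have hhle : S.h ≤ 1 / 10 := by
    rw [hh, ← hLlog, div_le_iff₀ hL0]
    have h1 : A ≤ 1 / 10 * (1 / θ ^ 10) := by
      have h2 : θ ^ 7 ≤ 1 / 10 := by
        calc θ ^ 7 ≤ θ ^ 1 := pow_le_pow_of_le_one hθ.le (by linarith) (by norm_num)
          _ ≤ 1 / 10 := by rw [pow_one]; linarith
      have h3 : A = θ ^ 7 * (1 / θ ^ 10) := by
        rw [hA]
        field_simp
      rw [h3]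
      exact mul_le_mul_of_nonneg_right h2 (by positivity)
    calc A ≤ 1 / 10 * (1 / θ ^ 10) := h1
      _ ≤ 1 / 10 * S.L := mul_le_mul_of_nonneg_left hL (by norm_num)
  have hdp := len_Vc hS
  have hcont : Continuous fun t : ℝ => S.Vc (nC (1 / 2 + t * I)) := continuous_dp_line hdp
  have hkf : Continuous S.kf := by
    unfold Sys.kf
    exact (hcont.norm).pow 4
  have hM : S.M = Mof θ S.T := by rw [Sys.M, hSθ]
  have hdp' : IsDP (Nat.smoothNumbers (Mof θ S.T)) (S.T ^ (1 / 100 : ℝ)) (S.T ^ (1 / 250 : ℝ)) S.Vc := by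
    rw [← hM]
    exact hdp.mono subset_rfl (Real.rpow_le_rpow_of_exponent_le hT1 (by norm_num)) le_rfl
  have hmain : ∀ a b : ℝ, -(3 * S.h) ≤ a → a ≤ 3 * S.h → -(3 * S.h) ≤ b → b ≤ 3 * S.h →
      |∫ t in (S.T + 3 * S.h)..(2 * S.T), Step4_Z S.h t a b * S.kf t| ≤ D * S.T * S.Lam := by
    intro a b ha1 ha2 hb1 hb2
    set f : ℝ → ℝ := fun u => ‖riemannZeta (1 / 2 + a + u * I)‖ ^ 2 *
      ‖S.Vc (nC (1 / 2 + (u - b) * I))‖ ^ 4 with hf
    have hf0 : ∀ u, 0 ≤ f u := fun u => by positivity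
    have hfc : Continuous f := by
      have h1 := continuous_zeta_line a (by linarith)
      have h2 : Continuous fun u : ℝ => S.Vc (nC (1 / 2 + (u - b) * I)) := by
        have := hcont.comp (continuous_id.sub continuous_const : Continuous fun u : ℝ => u - b)
        have e : (fun u : ℝ => S.Vc (nC (1 / 2 + (u - b) * I))) =
            (fun t : ℝ => S.Vc (nC (1 / 2 + t * I))) ∘ (fun u : ℝ => u - b) := by
          funext u
          simp only [Function.comp_apply, Complex.ofReal_sub]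
        rw [e]
        exact this
      exact (h1.norm.pow 2).mul (h2.norm.pow 4)
    have hpq : S.T + 3 * S.h ≤ 2 * S.T := by linarith
    have e1 : ∫ t in (S.T + 3 * S.h)..(2 * S.T), Step4_Z S.h t a b * S.kf t =
        ∫ u in (S.T + 3 * S.h + b)..(2 * S.T + b), f u := by
      rw [← intervalIntegral.integral_comp_add_right]
      apply intervalIntegral.integral_congr
      intro t _
      show Step4_Z S.h t a b * S.kf t = f (t + b)
      rw [Step4_Z_eq ha1 ha2, Sys.kf, hf]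
      simp only
      have e2 : (1 / 2 + (t : ℂ) * I + a + b * I) = 1 / 2 + a + ((t + b : ℝ) : ℂ) * I := by
        push_cast; ring
      have e3 : (1 / 2 + (((t + b : ℝ) : ℂ) - b) * I) = 1 / 2 + (t : ℂ) * I := by
        push_cast; ring
      rw [e2, e3]
    have hle : S.T + 3 * S.h + b ≤ 2 * S.T + b := by linarith
    have e4 : ∫ u in (S.T + 3 * S.h + b)..(2 * S.T + b), f u ≤ ∫ t in Set.Icc S.T (3 * S.T), f t := by
      rw [intervalIntegral.integral_of_le hle]
      apply MeasureTheory.setIntegral_mono_set (hfc.continuousOn.integrableOn_compact isCompact_Icc)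
        (Filter.Eventually.of_forall hf0)
      apply Filter.Eventually.of_forall
      intro u hu
      exact ⟨by linarith [hu.1], by linarith [hu.2]⟩
    have e5 : 0 ≤ ∫ u in (S.T + 3 * S.h + b)..(2 * S.T + b), f u :=
      intervalIntegral.integral_nonneg hle fun u _ => hf0 u
    rw [e1, abs_of_nonneg e5]
    refine e4.trans ?_
    have habs : ∀ x : ℝ, -(3 * S.h) ≤ x → x ≤ 3 * S.h → |x| ≤ 3 * A / Real.log S.T := by
      intro x hx1 hx2
      have : 3 * A / Real.log S.T = 3 * S.h := by rw [hh]; ring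
      rw [this]
      exact abs_le.2 ⟨hx1, hx2⟩
    have h3 := hT0 S.T a b S.Vc hT (habs a ha1 ha2) (habs b hb1 hb2) hdp'
    have hnorm : ∀ s : ℝ, |s| = |a| → ‖((s : ℂ) + b * I)‖ ≤ 5 * S.h := by
      intro s hs
      rw [Complex.norm_add_mul_I, Real.sqrt_le_left (by positivity), ← sq_abs s, ← sq_abs b, hs]
      have h7 : |a| ≤ 3 * S.h := abs_le.2 ⟨ha1, ha2⟩
      have h8 : |b| ≤ 3 * S.h := abs_le.2 ⟨hb1, hb2⟩
      nlinarith [abs_nonneg a, abs_nonneg b, sq_nonneg S.h]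
    have hb1' : BF (Mof θ S.T) S.Vc (1 / 2) (a + b * I) ≤ C1 * S.Lam := by
      rw [← hM]
      exact hBF S C c _ hSk hSp hSθ hS hC (hnorm a rfl)
    have hb2' : BF (Mof θ S.T) S.Vc (1 / 2) (-a + b * I) ≤ C1 * S.Lam := by
      rw [← hM]
      refine hBF S C c _ hSk hSp hSθ hS hC ?_
      have := hnorm (-a) (abs_neg a)
      rwa [Complex.ofReal_neg] at this
    have hT9 : S.T ^ (9 / 10 : ℝ) ≤ S.T * (1 / c * S.Lam) := by
      have h7 : S.T ^ (9 / 10 : ℝ) ≤ S.T := by
        calc S.T ^ (9 / 10 : ℝ) ≤ S.T ^ (1 : ℝ) := Real.rpow_le_rpow_of_exponent_le hT1 (by norm_num)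
          _ = S.T := Real.rpow_one _
      have h8 : 1 ≤ 1 / c * S.Lam := by
        rw [one_div, ← div_eq_inv_mul, le_div_iff₀ hc, one_mul]
        exact hLam
      nlinarith
    have hexp : Real.exp (Ch * (|a| * Real.log S.T)) ≤ Real.exp (Ch * (3 * A)) := by
      apply Real.exp_le_exp.2
      apply mul_le_mul_of_nonneg_left _ (by linarith)
      have h7 := habs a ha1 ha2
      rw [le_div_iff₀ (hLlog ▸ hL0)] at h7
      exact h7
    have hin : S.T * (BF (Mof θ S.T) S.Vc (1 / 2) (a + b * I) + BF (Mof θ S.T) S.Vc (1 / 2) (-a + b * I)) +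
        S.T ^ (9 / 10 : ℝ) ≤ S.T * ((2 * C1 + 1 / c) * S.Lam) := by
      have h7 : S.T * (BF (Mof θ S.T) S.Vc (1 / 2) (a + b * I) +
          BF (Mof θ S.T) S.Vc (1 / 2) (-a + b * I)) ≤ S.T * (C1 * S.Lam + C1 * S.Lam) :=
        mul_le_mul_of_nonneg_left (add_le_add hb1' hb2') (by linarith)
      calc _ ≤ S.T * (C1 * S.Lam + C1 * S.Lam) + S.T * (1 / c * S.Lam) := add_le_add h7 hT9
        _ = _ := by ring
    have hLam0 : 0 < S.Lam := lt_of_lt_of_le hc hLam
    have hbound : Ch * Real.exp (Ch * (|a| * Real.log S.T)) / θ *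
        (S.T * (BF (Mof θ S.T) S.Vc (1 / 2) (a + b * I) + BF (Mof θ S.T) S.Vc (1 / 2) (-a + b * I)) +
        S.T ^ (9 / 10 : ℝ)) ≤ D * S.T * S.Lam := by
      calc _ ≤ Ch * Real.exp (Ch * (|a| * Real.log S.T)) / θ * (S.T * ((2 * C1 + 1 / c) * S.Lam)) :=
            mul_le_mul_of_nonneg_left hin (by positivity)
        _ ≤ Ch * Real.exp (Ch * (3 * A)) / θ * (S.T * ((2 * C1 + 1 / c) * S.Lam)) := by
            apply mul_le_mul_of_nonneg_right _ (by positivity)
            apply div_le_div_of_nonneg_right _ hθ.le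
            exact mul_le_mul_of_nonneg_left hexp (by linarith)
        _ = D * S.T * S.Lam := by rw [hD]; ring
    apply Step4_li hfc hf0 _ _ (by positivity)
    exact h3.trans (ENNReal.ofReal_le_ofReal hbound)
  have h := Step4_fubini hh0 hhle S.kf hkf (S.T + 3 * S.h) (2 * S.T) (D * S.T * S.Lam) hmain
  calc _ ≤ 36 * (D * S.T * S.Lam) := h
    _ = 36 * D * S.T * S.Lam := by ring

end Pool.Agent.GH
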