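import Pool.Agent.Lib.MP_69b2e4_nt.GH.Sys
import Pool.Agent.Lib.MP_69b2e4_nt.Mg.G041

/-! TASK SysEx. Existence of the parameter system.
Let `L = log T`, `N_j = exp(θ^5 e^{-j} L)`, `J` the least integer with `e^J ≥ (log log T)²` (so `J ≤ 2 log log log T + 1`), `R_j = ` primes in `(N_{j+1}, N_j]` for `j < J`,
`R_J = ` primes in `(p0, N_J]` (for `T` large `N_J > p0`), `l_j = ⌈(θ^5 e^{-j})^{-3/4}⌉`, `N j = N_j`. All primes in question: use floors of the `N_j` in `mertens_inv`, `mertens_log`.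
`s_j = sR R_j`: for `j < J` `s_j ≤ log(log N_j/log ⌊N_{j+1}⌋) + C/log N_{j+1} ≤ 2` for `T` large; `s_J ≤ log log N_J + C ≤ log log T + C`.
`l_j ≥ θ^{-15/4} e^{3j/4}`; `l_J ≥ θ^{-15/4} (log log T)^{3/2}`; `l_j ≤ (θ^5 e^{-j})^{-3/4} + 1`.
`trunc`: for `j < J`: `2^{-l_j} e^{3C}`, `∑_j ≤ e^{3C} ∑_j 2^{-θ^{-15/4} e^{3j/4}} ≤ e^{3C} · 2 · 2^{-θ^{-15/4}} ≤ θ²/2` for `θ ≤ θ0(C)`; `j = J`: `2^{-(loglog T)^{3/2}} e^{C(loglog T + C')} → 0`.
`large`: `2 l s/lam² = 200 (k+1)² s/l`; for `j < J`: `≤ 400 (k+1)² θ^{15/4} e^{-3j/4} ≤ e^{-3C-10}` and `l_j ≥ θ^{-15/4}e^{3j/4}`; for `j = J`: base `≤ 400(k+1)² θ^{15/4}(loglog T)^{-1/2} ≤ 1/2`... to the power `l_J`, times `e^{C(loglog T+C')}` → 0.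
(If the base is 0 the term is 0 since `l_j ≥ 1`.)
`truncf`: `sf`: `s_f ≤ log((θL + 1)/(θ^5 L - 1)) + C/.. ≤ 5 log(1/θ)` for `T` large, and `lf ≥ 1/(1000θ) - 1`, so `2^{-lf} exp(C(5 log(1/θ)+1)) ≤ 2^{1-1/(1000θ)} θ^{-5C} e^C ≤ 1` for `θ ≤ θ0(C)`.
`len`: `∑_j l_j θ^5 e^{-j} L ≤ L ∑_j ((θ^5e^{-j})^{1/4} + θ^5 e^{-j}) ≤ L (5 θ^{5/4} + 2θ^5) ≤ L/8000` for `θ ≤ θ0`, and `(J+1)(k+10) ≤ L/8000` for `T` large.
`lam_ge`: `∑_j s_j = ∑_{p0 < p ≤ N_0} 1/p ≥ log(θ^5 L/log p0') - C ≥ log L - C'` with `C'` depending on `θ, p0`; so `Lam ≥ e^{-k² C'} L^{k²}`.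
`logp`, `logc`: `mertens_log`: `∑_{p ≤ x} log p/p ≤ log x + C ≤ 2 log x`-type for `T` large (`M - 1 = ⌊T^θ⌋`). `cover`, `disj`, `prime`: by construction
(`p ≤ N_j` iff `log p ≤ θ^5 e^{-j} L`; the intervals are disjoint).
Suggested order: first `θ0` from `C, k`, then `T0` from everything. -/

set_option autoImplicit false

namespace Pool.Agent.GH

open Complex MeasureTheory Finset
open scoped Real ComplexConjugate

/-- the integer part of `exp x` -/
noncomputable def SysEx_n (x : ℝ) : ℕ := ⌊Real.exp x⌋₊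

private lemma SysEx_n_mono {x y : ℝ} (h : x ≤ y) : SysEx_n x ≤ SysEx_n y :=
  Nat.floor_mono (Real.exp_le_exp.2 h)

private lemma SysEx_le_n {x : ℝ} {p : ℕ} (hp : 0 < p) : p ≤ SysEx_n x ↔ Real.log p ≤ x := by
  unfold SysEx_n
  rw [Nat.le_floor_iff (Real.exp_pos x).le, Real.log_le_iff_le_exp (by exact_mod_cast hp)]

private lemma SysEx_n_lt {x : ℝ} {p : ℕ} (hp : 0 < p) : SysEx_n x < p ↔ x < Real.log p := by
  rw [← not_le, SysEx_le_n hp, not_le]

private lemma SysEx_n_le_exp (x : ℝ) : (SysEx_n x : ℝ) ≤ Real.exp x :=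
  Nat.floor_le (Real.exp_pos x).le

private lemma SysEx_one_le {x : ℝ} (hx : 0 ≤ x) : 1 ≤ SysEx_n x := by
  rw [SysEx_le_n one_pos]; simpa using hx

private lemma SysEx_two_le {x : ℝ} (hx : Real.log 2 ≤ x) : 2 ≤ SysEx_n x := by
  rw [SysEx_le_n two_pos]; simpa using hx

private lemma SysEx_log_le {x : ℝ} (hx : 0 ≤ x) : Real.log (SysEx_n x) ≤ x :=
  (SysEx_le_n (SysEx_one_le hx)).1 le_rfl

private lemma SysEx_log_ge {x : ℝ} (hx : 2 * Real.log 2 ≤ x) :
    x / 2 ≤ Real.log (SysEx_n x) := by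
  have h2 : 0 < Real.log 2 := Real.log_pos (by norm_num)
  have h1 : Real.exp x / 2 ≤ (SysEx_n x : ℝ) := by
    have h3 : Real.exp x < (SysEx_n x : ℝ) + 1 := Nat.lt_floor_add_one _
    have h4 : (2 : ℝ) ≤ Real.exp x := by
      rw [← Real.log_le_iff_le_exp (by norm_num)]; linarith
    linarith
  have h5 : Real.log (Real.exp x / 2) ≤ Real.log (SysEx_n x) :=
    Real.log_le_log (by positivity) h1
  rw [Real.log_div (Real.exp_pos x).ne' (by norm_num), Real.log_exp] at h5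
  linarith

/-- the primes in `(a, b]` -/
noncomputable def SysEx_B (a b : ℕ) : Finset ℕ := (Finset.Ioc a b).filter Nat.Prime

private lemma SysEx_mem {a b p : ℕ} : p ∈ SysEx_B a b ↔ a < p ∧ p ≤ b ∧ p.Prime := by
  unfold SysEx_B
  rw [Finset.mem_filter, Finset.mem_Ioc, and_assoc]

private lemma SysEx_sB {C' : ℝ} (hC' : 0 ≤ C')
    (hm : ∀ y z : ℕ, 2 ≤ y → y ≤ z →
      |∑ p ∈ (Finset.Ioc y z).filter Nat.Prime, 1 / (p : ℝ) - Real.log (Real.log z / Real.log y)| ≤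
        C' / Real.log y) {x y : ℝ} (hx : 2 * Real.log 2 ≤ x) (hxy : x ≤ y) :
    sR (SysEx_B (SysEx_n x) (SysEx_n y)) ≤ Real.log (2 * y / x) + 2 * C' / x := by
  have h2 : 0 < Real.log 2 := Real.log_pos (by norm_num)
  have hx0 : 0 < x := by linarith
  have h3 := hm (SysEx_n x) (SysEx_n y) (SysEx_two_le (by linarith)) (SysEx_n_mono hxy)
  have h4 := (abs_le.1 h3).2
  have h5 := SysEx_log_ge hx
  have h6 := SysEx_log_le (x := y) (by linarith)
  have h6' := SysEx_log_ge (x := y) (by linarith)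
  have h7 : Real.log (Real.log (SysEx_n y) / Real.log (SysEx_n x)) ≤ Real.log (2 * y / x) := by
    apply Real.log_le_log
    · apply div_pos <;> linarith
    · rw [div_le_div_iff₀ (by linarith) hx0]
      nlinarith
  have h8 : C' / Real.log (SysEx_n x) ≤ 2 * C' / x := by
    rw [div_le_div_iff₀ (by linarith) hx0]
    nlinarith
  unfold sR SysEx_B
  linarith

private lemma SysEx_tele (f : ℕ → ℝ) (n : ℕ → ℕ) (hn : ∀ j, n (j + 1) ≤ n j) (q J : ℕ)
    (hq : q ≤ n J) :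
    ∑ j ∈ range J, ∑ p ∈ SysEx_B (n (j + 1)) (n j), f p + ∑ p ∈ SysEx_B q (n J), f p =
      ∑ p ∈ SysEx_B q (n 0), f p := by
  induction J with
  | zero => simp
  | succ J ih =>
    rw [sum_range_succ, ← ih (hq.trans (hn J))]
    have h1 : ∑ p ∈ SysEx_B q (n (J + 1)), f p + ∑ p ∈ SysEx_B (n (J + 1)) (n J), f p =
        ∑ p ∈ SysEx_B q (n J), f p := by
      unfold SysEx_B
      rw [sum_filter, sum_filter, sum_filter]
      exact Finset.sum_Ioc_consecutive _ hq (hn J)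
    rw [← h1]
    ring

/-- a geometric sum -/
private lemma SysEx_geom {r : ℝ} (h0 : 0 ≤ r) (h1 : r < 1) (n : ℕ) :
    ∑ j ∈ range n, r ^ j ≤ 1 / (1 - r) := by
  rw [one_div]
  calc ∑ j ∈ range n, r ^ j ≤ ∑' j : ℕ, r ^ j :=
        (summable_geometric_of_lt_one h0 h1).sum_le_tsum _ (fun i _ => pow_nonneg h0 i)
    _ = (1 - r)⁻¹ := tsum_geometric_of_lt_one h0 h1

private lemma SysEx_pow_eq (m : ℕ) : (2 : ℝ)⁻¹ ^ m = Real.exp (-(Real.log 2 * m)) := by
  rw [← Real.rpow_natCast, Real.rpow_def_of_pos (by norm_num), Real.log_inv]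
  ring_nf

private lemma SysEx_rpow_eq (x : ℝ) : (2 : ℝ)⁻¹ ^ x = Real.exp (-(Real.log 2 * x)) := by
  rw [Real.rpow_def_of_pos (by norm_num), Real.log_inv]
  ring_nf

private lemma SysEx_half {κ : ℝ} (hκ : 4 ≤ κ) (l : ℕ → ℕ) (hl : ∀ j : ℕ, κ + 2 * j ≤ l j) (n : ℕ) :
    ∑ j ∈ range n, (2 : ℝ)⁻¹ ^ ((l j : ℝ) / 2) ≤ 1 / 2 := by
  have h2 : 0 < Real.log 2 := Real.log_pos (by norm_num)
  calc ∑ j ∈ range n, (2 : ℝ)⁻¹ ^ ((l j : ℝ) / 2)
      ≤ ∑ j ∈ range n, (1 / 4) * (2⁻¹ : ℝ) ^ j := by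
        refine sum_le_sum fun j _ => ?_
        have h4 : (1 / 4 : ℝ) = Real.exp (-(Real.log 2 * 2)) := by
          rw [← SysEx_rpow_eq]; norm_num
        rw [SysEx_rpow_eq, SysEx_pow_eq, h4, ← Real.exp_add]
        apply Real.exp_le_exp.2
        have := hl j
        nlinarith
    _ ≤ (1 / 4) * 2 := by
        rw [← mul_sum]
        have := SysEx_geom (r := (2 : ℝ)⁻¹) (by norm_num) (by norm_num) n
        norm_num at this ⊢
        linarith
    _ = 1 / 2 := by norm_num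

private lemma SysEx_trunc {κ : ℝ} (l : ℕ → ℕ) (hl : ∀ j : ℕ, κ + 2 * j ≤ l j) (n : ℕ) :
    ∑ j ∈ range n, (2 : ℝ)⁻¹ ^ (l j) ≤ 2 * Real.exp (-(Real.log 2 * κ)) := by
  have h2 : 0 < Real.log 2 := Real.log_pos (by norm_num)
  calc ∑ j ∈ range n, (2 : ℝ)⁻¹ ^ (l j)
      ≤ ∑ j ∈ range n, Real.exp (-(Real.log 2 * κ)) * (2⁻¹ : ℝ) ^ j := by
        refine sum_le_sum fun j _ => ?_
        rw [SysEx_pow_eq, SysEx_pow_eq, ← Real.exp_add]
        apply Real.exp_le_exp.2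
        have := hl j
        have h3 : (0 : ℝ) ≤ j := Nat.cast_nonneg j
        nlinarith
    _ ≤ Real.exp (-(Real.log 2 * κ)) * 2 := by
        rw [← mul_sum]
        have := SysEx_geom (r := (2 : ℝ)⁻¹) (by norm_num) (by norm_num) n
        apply mul_le_mul_of_nonneg_left _ (Real.exp_pos _).le
        norm_num at this ⊢
        linarith
    _ = 2 * Real.exp (-(Real.log 2 * κ)) := by ring

private lemma SysEx_small {C θ : ℝ} (hθ : 0 < θ) (h3 : θ ^ 2 ≤ Real.exp (-(3 * C)) / 20) :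
    Real.exp (3 * C) * (2 * Real.exp (-(Real.log 2 * (1 / θ ^ 2)))) ≤ θ ^ 2 / 2 := by
  have h2 : (0.69 : ℝ) ≤ Real.log 2 := by
    have := Real.log_two_gt_d9; linarith
  have hq : 0 < θ ^ 2 := by positivity
  have h5 : (Real.log 2 * (1 / θ ^ 2)) ^ 2 / 2 ≤ Real.exp (Real.log 2 * (1 / θ ^ 2)) := by
    have h0 : 0 ≤ Real.log 2 * (1 / θ ^ 2) := by positivity
    have := Real.quadratic_le_exp_of_nonneg h0
    linarith
  have h6 : 1 / (5 * (θ ^ 2) ^ 2) ≤ Real.exp (Real.log 2 * (1 / θ ^ 2)) := by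
    refine le_trans ?_ h5
    rw [mul_pow, one_div_pow]
    rw [div_le_iff₀ (by positivity)]
    have : (Real.log 2) ^ 2 * (1 / (θ ^ 2) ^ 2) / 2 * (5 * (θ ^ 2) ^ 2) = Real.log 2 ^ 2 * (5 / 2) := by
      field_simp
    rw [this]
    nlinarith
  have h7 : Real.exp (-(Real.log 2 * (1 / θ ^ 2))) ≤ 5 * (θ ^ 2) ^ 2 := by
    rw [Real.exp_neg]
    apply inv_le_of_inv_le₀ (by positivity)
    rw [← one_div]; exact h6
  have h8 : Real.exp (3 * C) * θ ^ 2 ≤ 1 / 20 := by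
    have : Real.exp (3 * C) * θ ^ 2 ≤ Real.exp (3 * C) * (Real.exp (-(3 * C)) / 20) :=
      mul_le_mul_of_nonneg_left h3 (Real.exp_pos _).le
    rw [mul_div_assoc', ← Real.exp_add] at this
    simpa using this
  calc Real.exp (3 * C) * (2 * Real.exp (-(Real.log 2 * (1 / θ ^ 2))))
      ≤ Real.exp (3 * C) * (2 * (5 * (θ ^ 2) ^ 2)) := by gcongr
    _ = 10 * (Real.exp (3 * C) * θ ^ 2) * θ ^ 2 := by ring
    _ ≤ 10 * (1 / 20) * θ ^ 2 := by gcongr
    _ = θ ^ 2 / 2 := by ring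

private lemma SysEx_truncf {C θ : ℝ} (hC : 0 ≤ C) (hθ : 0 < θ)
    (h4 : θ ≤ 1 / (2000 * (11 * C + 1)) ^ 2) {s : ℝ} (hs : s ≤ 5 * Real.log (1 / θ)) :
    (2 : ℝ)⁻¹ ^ ⌊1 / (1000 * θ)⌋₊ * Real.exp (C * (s + 1)) ≤ 1 := by
  have h2 : (0.69 : ℝ) ≤ Real.log 2 := by
    have := Real.log_two_gt_d9; linarith
  have h2' : Real.log 2 ≤ 1 := by
    have := Real.log_two_lt_d9; linarith
  have hz : (2000 * (11 * C + 1)) ^ 2 ≤ 1 / θ := by
    rw [le_div_iff₀ hθ]
    rw [le_div_iff₀ (by positivity)] at h4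
    linarith
  set w := Real.sqrt (1 / θ) with hw
  have hw2 : w ^ 2 = 1 / θ := Real.sq_sqrt (by positivity)
  have hw1 : 2000 * (11 * C + 1) ≤ w := by
    rw [hw]; exact Real.le_sqrt_of_sq_le hz
  have hwpos : 1 ≤ w := by nlinarith
  have hlog : Real.log (1 / θ) ≤ 2 * w := by
    rw [← hw2, Real.log_pow]
    have := Real.log_le_sub_one_of_pos (show 0 < w by linarith)
    push_cast; linarith
  have hfl : 1 / (1000 * θ) - 1 ≤ (⌊1 / (1000 * θ)⌋₊ : ℝ) := by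
    have := Nat.lt_floor_add_one (1 / (1000 * θ)); linarith
  have hfl' : w ^ 2 / 1000 - 1 ≤ (⌊1 / (1000 * θ)⌋₊ : ℝ) := by
    rw [hw2]
    have : 1 / θ / 1000 = 1 / (1000 * θ) := by rw [div_div, mul_comm]
    rw [this]; exact hfl
  rw [SysEx_pow_eq, ← Real.exp_add, Real.exp_le_one_iff]
  have h5 : C * (s + 1) ≤ C * (10 * w + 1) := by
    apply mul_le_mul_of_nonneg_left _ hC
    linarith
  have h6 : Real.log 2 * (w ^ 2 / 1000 - 1) ≤ Real.log 2 * (⌊1 / (1000 * θ)⌋₊ : ℝ) :=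
    mul_le_mul_of_nonneg_left hfl' (by linarith)
  have h7 : (11 * C + 1) * w ≤ w ^ 2 / 2000 := by nlinarith
  have h8 : w ^ 2 / 2000 ≤ Real.log 2 * (w ^ 2 / 1000) := by nlinarith [sq_nonneg w]
  have h9 : C * (10 * w + 1) ≤ 11 * C * w := by nlinarith
  nlinarith

private lemma SysEx_last {C D X θ s : ℝ} {l : ℕ} (hC : 0 ≤ C) (hX1 : 1 ≤ X)
    (hX2 : 2 * (C + 1) ≤ X) (hθ : 0 < θ) (hX3 : C * (D + 1) + Real.log (2 / θ ^ 2) ≤ X)
    (hs : s ≤ X + D) (hl : X ^ 2 ≤ l) :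
    (2 : ℝ)⁻¹ ^ l * Real.exp (C * (s + 1)) ≤ θ ^ 2 / 2 := by
  have h2 : (0.69 : ℝ) ≤ Real.log 2 := by
    have := Real.log_two_gt_d9; linarith
  have hq : 0 < θ ^ 2 / 2 := by positivity
  rw [SysEx_pow_eq, ← Real.exp_add, ← Real.le_log_iff_exp_le hq]
  have h3 : Real.log (θ ^ 2 / 2) = - Real.log (2 / θ ^ 2) := by
    rw [← Real.log_inv, inv_div]
  rw [h3]
  have h4 : C * (s + 1) ≤ C * (X + D + 1) := mul_le_mul_of_nonneg_left (by linarith) hC
  have h5 : Real.log 2 * X ^ 2 ≤ Real.log 2 * l := mul_le_mul_of_nonneg_left hl (by linarith)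
  have h6 : X * (C + 1) ≤ Real.log 2 * X ^ 2 := by nlinarith
  nlinarith

private lemma SysEx_base {k s : ℝ} {l : ℕ} (hk : 0 < k) (hs : 0 ≤ s) (hl : 1 ≤ l)
    (h : 400 * (k + 1) ^ 2 * s ≤ l) :
    (2 * (l : ℝ) * s / ((l : ℝ) / (10 * (k + 1))) ^ 2) ^ l ≤ (2 : ℝ)⁻¹ ^ l := by
  have hl0 : (0 : ℝ) < l := by exact_mod_cast hl
  have h1 : 2 * (l : ℝ) * s / ((l : ℝ) / (10 * (k + 1))) ^ 2 = 200 * (k + 1) ^ 2 * s / l := by
    field_simp
    ring
  rw [h1]
  apply pow_le_pow_left₀ (by positivity)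
  rw [div_le_iff₀ hl0]
  linarith


/-- the number of coarse blocks -/
noncomputable def SysEx_J (T : ℝ) : ℕ := ⌈4 * Real.log (Real.log (Real.log T))⌉₊

/-- the logarithms of the ends of the blocks -/
noncomputable def SysEx_x (θ T : ℝ) (j : ℕ) : ℝ := θ ^ 5 * Real.exp (-(j : ℝ)) * Real.log T

/-- the system -/
noncomputable def SysEx_S (k θ T : ℝ) (p0 : ℕ) : Sys where
  k := k
  θ := θ
  T := T
  p0 := p0
  J := SysEx_J T
  R j := SysEx_B (if j < SysEx_J T then SysEx_n (SysEx_x θ T (j + 1)) else p0)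
    (SysEx_n (SysEx_x θ T j))
  l j := ⌈Real.exp ((j : ℝ) / 2) / θ ^ 2⌉₊
  N j := Real.exp (SysEx_x θ T j)

private lemma SysEx_x_succ {θ T : ℝ} (j : ℕ) :
    SysEx_x θ T j = Real.exp 1 * SysEx_x θ T (j + 1) := by
  unfold SysEx_x
  have : Real.exp (-(j : ℝ)) = Real.exp 1 * Real.exp (-((j + 1 : ℕ) : ℝ)) := by
    rw [← Real.exp_add]; push_cast; ring_nf
  rw [this]; ring

private lemma SysEx_x_anti {θ T : ℝ} (hθ : 0 < θ) (hL : 0 ≤ Real.log T) {i j : ℕ} (h : i ≤ j) :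
    SysEx_x θ T j ≤ SysEx_x θ T i := by
  unfold SysEx_x
  have h1 : Real.exp (-(j : ℝ)) ≤ Real.exp (-(i : ℝ)) := by
    apply Real.exp_le_exp.2
    have : (i : ℝ) ≤ j := by exact_mod_cast h
    linarith
  have h2 : 0 < θ ^ 5 := by positivity
  gcongr

private lemma SysEx_xJ {θ T K X : ℝ} (hK : 0 ≤ K)
    (hX : X = Real.log (Real.log T)) (hX1 : 1 ≤ X)
    (hε1 : 3 * K * X ^ 4 ≤ θ ^ 5 * Real.log T) : K ≤ SysEx_x θ T (SysEx_J T) := by
  have h1 : ((SysEx_J T : ℕ) : ℝ) ≤ 4 * Real.log X + 1 := by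
    unfold SysEx_J
    rw [← hX]
    exact (Nat.ceil_lt_add_one (by have := Real.log_nonneg hX1; linarith)).le
  have h2 : Real.exp (SysEx_J T : ℝ) ≤ 3 * X ^ 4 := by
    calc Real.exp (SysEx_J T : ℝ) ≤ Real.exp (4 * Real.log X + 1) := Real.exp_le_exp.2 h1
      _ = X ^ 4 * Real.exp 1 := by
        rw [Real.exp_add]
        congr 1
        rw [show (4 : ℝ) * Real.log X = ((4 : ℕ) : ℝ) * Real.log X by norm_num, Real.exp_nat_mul,
          Real.exp_log (by linarith)]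
      _ ≤ X ^ 4 * 3 := by
        have := Real.exp_one_lt_d9
        have h0 : 0 ≤ X ^ 4 := by positivity
        nlinarith
      _ = 3 * X ^ 4 := by ring
  unfold SysEx_x
  rw [Real.exp_neg]
  have h3 : 0 < Real.exp (SysEx_J T : ℝ) := Real.exp_pos _
  rw [show θ ^ 5 * (Real.exp (SysEx_J T : ℝ))⁻¹ * Real.log T =
    θ ^ 5 * Real.log T / Real.exp (SysEx_J T : ℝ) by field_simp, le_div_iff₀ h3]
  nlinarith

private lemma SysEx_expJ {T X : ℝ} (hX : X = Real.log (Real.log T)) (hX1 : 1 ≤ X) :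
    X ^ 2 ≤ Real.exp ((SysEx_J T : ℝ) / 2) := by
  have h1 : 4 * Real.log X ≤ ((SysEx_J T : ℕ) : ℝ) := by
    unfold SysEx_J
    rw [← hX]
    exact Nat.le_ceil _
  calc X ^ 2 = Real.exp (2 * Real.log X) := by
        rw [show (2 : ℝ) * Real.log X = ((2 : ℕ) : ℝ) * Real.log X by norm_num, Real.exp_nat_mul,
          Real.exp_log (by linarith)]
    _ ≤ Real.exp ((SysEx_J T : ℝ) / 2) := Real.exp_le_exp.2 (by linarith)

private lemma SysEx_l_ge {θ : ℝ} (hθ : 0 < θ) (h1 : θ ≤ 1 / 100) (j : ℕ) :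
    1 / θ ^ 2 + 2 * (j : ℝ) ≤ (⌈Real.exp ((j : ℝ) / 2) / θ ^ 2⌉₊ : ℝ) := by
  have hk : 4 ≤ 1 / θ ^ 2 := by
    rw [le_div_iff₀ (by positivity)]
    nlinarith
  have h2 : (j : ℝ) / 2 + 1 ≤ Real.exp ((j : ℝ) / 2) := Real.add_one_le_exp _
  have h3 : (0 : ℝ) ≤ j := Nat.cast_nonneg j
  calc 1 / θ ^ 2 + 2 * (j : ℝ) ≤ ((j : ℝ) / 2 + 1) * (1 / θ ^ 2) := by nlinarith
    _ ≤ Real.exp ((j : ℝ) / 2) * (1 / θ ^ 2) := by gcongr
    _ = Real.exp ((j : ℝ) / 2) / θ ^ 2 := by ring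
    _ ≤ _ := Nat.le_ceil _

theorem SysEx_main (k C C' D K X θ T : ℝ) (p0 : ℕ) (hk : 0 < k) (hC : 0 ≤ C) (hC' : 0 ≤ C')
    (hp0 : 2 ≤ p0)
    (hm : ∀ y z : ℕ, 2 ≤ y → y ≤ z →
      |∑ p ∈ (Finset.Ioc y z).filter Nat.Prime, 1 / (p : ℝ) - Real.log (Real.log z / Real.log y)| ≤
        C' / Real.log y)
    (hml : ∀ y z : ℕ, 1 ≤ y → y ≤ z →
      |∑ p ∈ (Finset.Ioc y z).filter Nat.Prime, Real.log p / p - (Real.log z - Real.log y)| ≤ C')
    (hθ : 0 < θ) (h1 : θ ≤ 1 / 100) (h2 : 800 * (k + 1) ^ 2 * θ ^ 2 ≤ 1)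
    (h3 : θ ^ 2 ≤ Real.exp (-(3 * C)) / 20) (h4 : θ ≤ 1 / (2000 * (11 * C + 1)) ^ 2)
    (hD : D = |Real.log (Real.log p0)| + C' / Real.log p0)
    (hK1 : 2 * Real.log 2 ≤ K) (hK2 : 20 * C' ≤ K) (hK3 : Real.log p0 ≤ K)
    (hX : X = Real.log (Real.log T)) (hX1 : 1 ≤ X) (hX2 : 2 * (C + 1) ≤ X)
    (hX3 : C * (D + 1) + Real.log (2 / θ ^ 2) ≤ X) (hX4 : D ≤ X) (hX5 : 800 * (k + 1) ^ 2 ≤ X)
    (hT : 1 ≤ T) (hL : 1 / θ ^ 10 ≤ Real.log T) (hε1 : 3 * K * X ^ 4 ≤ θ ^ 5 * Real.log T)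
    (hε2 : 48000 * (k + 10) * X ^ 4 ≤ Real.log T) :
    Good (SysEx_S k θ T p0) C
      (Real.exp (-(k ^ 2 * (Real.log (2 * Real.log p0 / θ ^ 5) + C' / Real.log p0)))) := by
  have hlog2 : 0 < Real.log 2 := Real.log_pos (by norm_num)
  have hlog2' : Real.log 2 ≤ 0.7 := by have := Real.log_two_lt_d9; linarith
  have hK : 0 < K := by linarith
  have hLp : 0 < Real.log T := lt_of_lt_of_le (by positivity) hL
  have hlp0 : 0 < Real.log p0 := Real.log_pos (by exact_mod_cast (by omega : 1 < p0))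
  have hθ5 : 0 < θ ^ 5 := by positivity
  have hθ4 : 0 < θ ^ 4 := by positivity
  have hxJ := SysEx_xJ (θ := θ) hK.le hX hX1 hε1
  have hx : ∀ j ≤ SysEx_J T, K ≤ SysEx_x θ T j := fun j hj =>
    hxJ.trans (SysEx_x_anti hθ hLp.le hj)
  have hx0 : SysEx_x θ T 0 = θ ^ 5 * Real.log T := by unfold SysEx_x; simp
  have hxle : ∀ j, SysEx_x θ T j ≤ θ ^ 5 * Real.log T := fun j => by
    rw [← hx0]; exact SysEx_x_anti hθ hLp.le (Nat.zero_le j)
  have hK0 : K ≤ θ ^ 5 * Real.log T := by rw [← hx0]; exact hx 0 (Nat.zero_le _)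
  have hn : ∀ j, SysEx_n (SysEx_x θ T (j + 1)) ≤ SysEx_n (SysEx_x θ T j) := fun j =>
    SysEx_n_mono (SysEx_x_anti hθ hLp.le (Nat.le_succ j))
  have hnJ : p0 ≤ SysEx_n (SysEx_x θ T (SysEx_J T)) := by
    rw [SysEx_le_n (by omega)]; exact hK3.trans hxJ
  have hnj : ∀ j ≤ SysEx_J T, p0 ≤ SysEx_n (SysEx_x θ T j) := fun j hj =>
    hnJ.trans (SysEx_n_mono (SysEx_x_anti hθ hLp.le hj))
  have hRlt : ∀ j, j < SysEx_J T → (SysEx_S k θ T p0).R j =
      SysEx_B (SysEx_n (SysEx_x θ T (j + 1))) (SysEx_n (SysEx_x θ T j)) := by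
    intro j hj
    change SysEx_B (if j < SysEx_J T then SysEx_n (SysEx_x θ T (j + 1)) else p0) _ = _
    rw [if_pos hj]
  have hRJ : (SysEx_S k θ T p0).R (SysEx_J T) =
      SysEx_B p0 (SysEx_n (SysEx_x θ T (SysEx_J T))) := by
    change SysEx_B (if SysEx_J T < SysEx_J T then _ else p0) _ = _
    rw [if_neg (lt_irrefl _)]
  -- sums over all blocks
  have htele : ∀ f : ℕ → ℝ, ∑ j ∈ range (SysEx_J T + 1), ∑ p ∈ (SysEx_S k θ T p0).R j, f p =
      ∑ p ∈ SysEx_B p0 (SysEx_n (SysEx_x θ T 0)), f p := by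
    intro f
    rw [sum_range_succ, hRJ, ← SysEx_tele f (fun j => SysEx_n (SysEx_x θ T j)) hn p0 (SysEx_J T) hnJ]
    congr 1
    refine sum_congr rfl fun j hj => ?_
    rw [hRlt j (mem_range.1 hj)]
  -- sizes of the blocks
  have hsn : ∀ j, 0 ≤ sR ((SysEx_S k θ T p0).R j) := fun j =>
    sum_nonneg fun p _ => by positivity
  have hslt : ∀ j, j < SysEx_J T → sR ((SysEx_S k θ T p0).R j) ≤ 2 := by
    intro j hj
    rw [hRlt j hj]
    have hxx := hx (j + 1) hj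
    have hxp : 0 < SysEx_x θ T (j + 1) := by linarith
    have h5 := SysEx_sB hC' hm (x := SysEx_x θ T (j + 1)) (y := SysEx_x θ T j) (by linarith)
      (SysEx_x_anti hθ hLp.le (Nat.le_succ j))
    have h6 : Real.log (2 * SysEx_x θ T j / SysEx_x θ T (j + 1)) = Real.log 2 + 1 := by
      rw [SysEx_x_succ j]
      rw [show 2 * (Real.exp 1 * SysEx_x θ T (j + 1)) / SysEx_x θ T (j + 1) = 2 * Real.exp 1 by
        field_simp]
      rw [Real.log_mul (by norm_num) (Real.exp_pos _).ne', Real.log_exp]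
    have h7 : 2 * C' / SysEx_x θ T (j + 1) ≤ 1 / 10 := by
      rw [div_le_iff₀ hxp]; linarith
    linarith
  have hsJ : sR ((SysEx_S k θ T p0).R (SysEx_J T)) ≤ X + D := by
    rw [hRJ]
    have h5 := (abs_le.1 (hm p0 _ hp0 hnJ)).2
    have h6 : Real.log (SysEx_n (SysEx_x θ T (SysEx_J T))) ≤ Real.log T := by
      refine (SysEx_log_le (by linarith)).trans ((hxle _).trans ?_)
      have : θ ^ 5 ≤ 1 := pow_le_one₀ hθ.le (by linarith)
      nlinarith
    have h6' : 0 < Real.log (SysEx_n (SysEx_x θ T (SysEx_J T))) := by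
      have := SysEx_log_ge (x := SysEx_x θ T (SysEx_J T)) (by linarith)
      linarith
    have h7 : Real.log (Real.log (SysEx_n (SysEx_x θ T (SysEx_J T))) / Real.log p0) ≤
        X + |Real.log (Real.log p0)| := by
      rw [Real.log_div h6'.ne' hlp0.ne', hX]
      have h8 := Real.log_le_log h6' h6
      have h9 := neg_abs_le (Real.log (Real.log p0))
      linarith
    unfold sR SysEx_B
    rw [hD]
    linarith
  -- the lengths
  have hlge : ∀ j : ℕ, 1 / θ ^ 2 + 2 * (j : ℝ) ≤ (((SysEx_S k θ T p0).l j : ℕ) : ℝ) := fun j =>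
    SysEx_l_ge hθ h1 j
  have hκ : 4 ≤ 1 / θ ^ 2 := by
    rw [le_div_iff₀ (by positivity)]
    nlinarith
  have hl1 : ∀ j : ℕ, 1 ≤ (SysEx_S k θ T p0).l j := fun j => by
    have h5 := hlge j
    have h6 : (0 : ℝ) ≤ j := Nat.cast_nonneg j
    have : (1 : ℝ) ≤ (((SysEx_S k θ T p0).l j : ℕ) : ℝ) := by linarith
    exact_mod_cast this
  have hlJ : X ^ 2 ≤ (((SysEx_S k θ T p0).l (SysEx_J T) : ℕ) : ℝ) := by
    refine (SysEx_expJ hX hX1).trans (le_trans ?_ (Nat.le_ceil _))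
    rw [le_div_iff₀ (by positivity)]
    have h5 := Real.exp_pos ((SysEx_J T : ℝ) / 2)
    have h6 : θ ^ 2 ≤ 1 := pow_le_one₀ hθ.le (by linarith)
    nlinarith
  have htr : ∑ j ∈ range (SysEx_J T + 1), (2 : ℝ)⁻¹ ^ ((SysEx_S k θ T p0).l j) *
      Real.exp (C * (sR ((SysEx_S k θ T p0).R j) + 1)) ≤ θ ^ 2 := by
    rw [sum_range_succ]
    have h5 : ∑ j ∈ range (SysEx_J T), (2 : ℝ)⁻¹ ^ ((SysEx_S k θ T p0).l j) *
        Real.exp (C * (sR ((SysEx_S k θ T p0).R j) + 1)) ≤ θ ^ 2 / 2 := by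
      calc ∑ j ∈ range (SysEx_J T), (2 : ℝ)⁻¹ ^ ((SysEx_S k θ T p0).l j) *
          Real.exp (C * (sR ((SysEx_S k θ T p0).R j) + 1))
          ≤ ∑ j ∈ range (SysEx_J T), Real.exp (3 * C) * (2 : ℝ)⁻¹ ^ ((SysEx_S k θ T p0).l j) := by
            refine sum_le_sum fun j hj => ?_
            rw [mul_comm]
            apply mul_le_mul_of_nonneg_right _ (by positivity)
            apply Real.exp_le_exp.2
            have := hslt j (mem_range.1 hj)
            nlinarith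
        _ = Real.exp (3 * C) * ∑ j ∈ range (SysEx_J T), (2 : ℝ)⁻¹ ^ ((SysEx_S k θ T p0).l j) := by
            rw [mul_sum]
        _ ≤ Real.exp (3 * C) * (2 * Real.exp (-(Real.log 2 * (1 / θ ^ 2)))) := by
            apply mul_le_mul_of_nonneg_left _ (Real.exp_pos _).le
            exact SysEx_trunc (SysEx_S k θ T p0).l hlge _
        _ ≤ θ ^ 2 / 2 := SysEx_small hθ h3
    have h6 := SysEx_last (l := (SysEx_S k θ T p0).l (SysEx_J T)) hC hX1 hX2 hθ hX3 hsJ hlJ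
    linarith
  -- the fine block
  have hθL : θ ^ 5 * Real.log T ≤ θ * Real.log T := by
    have h5 : θ ^ 4 ≤ 1 := pow_le_one₀ hθ.le (by linarith)
    have h6 : θ ^ 5 = θ ^ 4 * θ := by ring
    rw [h6]
    have h7 : 0 ≤ θ * Real.log T := by positivity
    nlinarith
  have hM : Mof θ T = SysEx_n (θ * Real.log T) + 1 := by
    unfold Mof SysEx_n
    rw [Real.rpow_def_of_pos (by linarith : 0 < T), mul_comm (Real.log T)]
  have hRf : (SysEx_S k θ T p0).Rf =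
      SysEx_B (SysEx_n (θ ^ 5 * Real.log T)) (SysEx_n (θ * Real.log T)) := by
    ext p
    unfold Sys.Rf
    rw [mem_filter, SysEx_mem, Nat.mem_primesBelow]
    change (p < Mof θ T ∧ p.Prime) ∧ θ ^ 5 * Real.log T < Real.log p ↔ _
    rw [hM]
    constructor
    · rintro ⟨⟨ha, hb⟩, hc⟩
      exact ⟨(SysEx_n_lt hb.pos).2 hc, by omega, hb⟩
    · rintro ⟨ha, hb, hc⟩
      exact ⟨⟨by omega, hc⟩, (SysEx_n_lt hc.pos).1 ha⟩
  have hsf : sR (SysEx_S k θ T p0).Rf ≤ 5 * Real.log (1 / θ) := by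
    rw [hRf]
    have h5 := SysEx_sB hC' hm (x := θ ^ 5 * Real.log T) (y := θ * Real.log T) (by linarith) hθL
    have h6 : 2 * (θ * Real.log T) / (θ ^ 5 * Real.log T) = 2 * (1 / θ) ^ 4 := by
      field_simp
    rw [h6, Real.log_mul (by norm_num) (by positivity), Real.log_pow] at h5
    have h7 : 2 * C' / (θ ^ 5 * Real.log T) ≤ 1 / 10 := by
      rw [div_le_iff₀ (by positivity)]; linarith
    have h8 : 1 ≤ Real.log (1 / θ) := by
      rw [Real.le_log_iff_exp_le (by positivity)]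
      have h9 := Real.exp_one_lt_d9
      have h10 : 100 ≤ 1 / θ := by
        rw [le_div_iff₀ hθ]; linarith
      linarith
    push_cast at h5
    linarith
  -- assembly
  refine ⟨hk, hθ, h1, hC, Real.exp_pos _, hT, hL, hp0, hK3.trans hK0, ?_, ?_, ?_, ?_,
    fun j _ => hl1 j, htr, SysEx_half hκ _ hlge _, SysEx_truncf hC hθ h4 hsf, ?_, ?_, ?_, ?_, ?_,
    hsf⟩
  · -- prime
    intro j hj p hp
    have hp' : p ∈ SysEx_B (if j < SysEx_J T then SysEx_n (SysEx_x θ T (j + 1)) else p0)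
      (SysEx_n (SysEx_x θ T j)) := hp
    rw [SysEx_mem] at hp'
    obtain ⟨ha, hb, hpp⟩ := hp'
    have hlow : p0 ≤ (if j < SysEx_J T then SysEx_n (SysEx_x θ T (j + 1)) else p0) := by
      split_ifs with hlt
      · exact hnj (j + 1) hlt
      · exact le_rfl
    refine ⟨hpp, lt_of_le_of_lt hlow ha, ((SysEx_le_n hpp.pos).1 hb).trans (hxle j), ?_⟩
    calc (p : ℝ) ≤ (SysEx_n (SysEx_x θ T j) : ℝ) := by exact_mod_cast hb
      _ ≤ Real.exp (SysEx_x θ T j) := SysEx_n_le_exp _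
  · -- disjoint
    have key : ∀ i j, i < j → j ≤ SysEx_J T →
        Disjoint ((SysEx_S k θ T p0).R i) ((SysEx_S k θ T p0).R j) := by
      intro i j hij hj
      rw [hRlt i (lt_of_lt_of_le hij hj), Finset.disjoint_left]
      intro p hp hp'
      rw [SysEx_mem] at hp
      have hp'' : p ∈ SysEx_B (if j < SysEx_J T then SysEx_n (SysEx_x θ T (j + 1)) else p0)
        (SysEx_n (SysEx_x θ T j)) := hp'
      rw [SysEx_mem] at hp''
      have h5 : SysEx_n (SysEx_x θ T j) ≤ SysEx_n (SysEx_x θ T (i + 1)) :=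
        SysEx_n_mono (SysEx_x_anti hθ hLp.le hij)
      omega
    intro i hi j hj hij
    rcases lt_or_gt_of_ne hij with h | h
    · exact key i j h hj
    · exact (key j i h hi).symm
  · -- cover
    intro p hp hlt hlog
    have hP0 : p ≤ SysEx_n (SysEx_x θ T 0) := by
      rw [SysEx_le_n hp.pos, hx0]; exact hlog
    have hspec := Nat.findGreatest_spec (P := fun j => p ≤ SysEx_n (SysEx_x θ T j))
      (Nat.zero_le (SysEx_J T)) hP0
    have hle := Nat.findGreatest_le (P := fun j => p ≤ SysEx_n (SysEx_x θ T j)) (SysEx_J T)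
    have hgr := fun m => Nat.findGreatest_is_greatest (P := fun j => p ≤ SysEx_n (SysEx_x θ T j))
      (n := SysEx_J T) (k := m)
    set m := Nat.findGreatest (fun j => p ≤ SysEx_n (SysEx_x θ T j)) (SysEx_J T) with hm'
    refine ⟨m, hle, ?_⟩
    change p ∈ SysEx_B (if m < SysEx_J T then SysEx_n (SysEx_x θ T (m + 1)) else p0)
        (SysEx_n (SysEx_x θ T m))
    rw [SysEx_mem]
    refine ⟨?_, hspec, hp⟩
    split_ifs with hlt'
    · exact not_le.1 (hgr (m + 1) (Nat.lt_succ_self m) hlt')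
    · exact hlt
  · -- N_ge
    intro j hj
    exact Real.one_le_exp (hK.le.trans (hx j hj))
  · -- len
    have hterm : ∀ j ∈ range (SysEx_J T + 1),
        ((((SysEx_S k θ T p0).l j : ℕ) : ℝ) * Real.log ((SysEx_S k θ T p0).N j) + k + 10) ≤
        2 * θ ^ 3 * Real.log T * (2 / 3) ^ j + (k + 10) := by
      intro j hj
      have hN : Real.log ((SysEx_S k θ T p0).N j) = SysEx_x θ T j := Real.log_exp _
      rw [hN]
      have hl : (((SysEx_S k θ T p0).l j : ℕ) : ℝ) ≤ Real.exp ((j : ℝ) / 2) / θ ^ 2 + 1 :=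
        (Nat.ceil_lt_add_one (by positivity)).le
      have hl' : Real.exp ((j : ℝ) / 2) / θ ^ 2 + 1 ≤ 2 * (Real.exp ((j : ℝ) / 2) / θ ^ 2) := by
        have : 1 ≤ Real.exp ((j : ℝ) / 2) / θ ^ 2 := by
          rw [le_div_iff₀ (by positivity)]
          have h5 : 1 ≤ Real.exp ((j : ℝ) / 2) := Real.one_le_exp (by positivity)
          have h6 : θ ^ 2 ≤ 1 := pow_le_one₀ hθ.le (by linarith)
          linarith
        linarith
      have hxp : 0 ≤ SysEx_x θ T j := by unfold SysEx_x; positivity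
      have h5 : (((SysEx_S k θ T p0).l j : ℕ) : ℝ) * SysEx_x θ T j ≤
          2 * (Real.exp ((j : ℝ) / 2) / θ ^ 2) * SysEx_x θ T j :=
        mul_le_mul_of_nonneg_right (hl.trans hl') hxp
      have h6 : 2 * (Real.exp ((j : ℝ) / 2) / θ ^ 2) * SysEx_x θ T j =
          2 * θ ^ 3 * Real.log T * Real.exp (-(j : ℝ) / 2) := by
        unfold SysEx_x
        have h7 : Real.exp (-(j : ℝ) / 2) = Real.exp ((j : ℝ) / 2) * Real.exp (-(j : ℝ)) := by
          rw [← Real.exp_add]; ring_nf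
        rw [h7]
        field_simp
      have h8 : Real.exp (-(j : ℝ) / 2) ≤ (2 / 3) ^ j := by
        have h9 : Real.exp (-(j : ℝ) / 2) = (Real.exp (-(1 / 2))) ^ j := by
          rw [← Real.exp_nat_mul]; ring_nf
        rw [h9]
        apply pow_le_pow_left₀ (Real.exp_pos _).le
        rw [Real.exp_neg]
        have h10 : (3 / 2 : ℝ) ≤ Real.exp (1 / 2) := by
          have := Real.add_one_le_exp (1 / 2 : ℝ); linarith
        calc (Real.exp (1 / 2))⁻¹ ≤ (3 / 2 : ℝ)⁻¹ := inv_anti₀ (by norm_num) h10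
          _ = 2 / 3 := by norm_num
      have h11 : 2 * θ ^ 3 * Real.log T * Real.exp (-(j : ℝ) / 2) ≤
          2 * θ ^ 3 * Real.log T * (2 / 3) ^ j := mul_le_mul_of_nonneg_left h8 (by positivity)
      linarith
    have hsum := sum_le_sum hterm
    have hrhs : ∑ j ∈ range (SysEx_J T + 1), (2 * θ ^ 3 * Real.log T * (2 / 3) ^ j + (k + 10)) =
        2 * θ ^ 3 * Real.log T * ∑ j ∈ range (SysEx_J T + 1), (2 / 3 : ℝ) ^ j +
          ((SysEx_J T + 1 : ℕ) : ℝ) * (k + 10) := by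
      rw [sum_add_distrib, ← mul_sum, sum_const, card_range, nsmul_eq_mul]
    rw [hrhs] at hsum
    have hg := SysEx_geom (r := (2 / 3 : ℝ)) (by norm_num) (by norm_num) (SysEx_J T + 1)
    have hg' : ∑ j ∈ range (SysEx_J T + 1), (2 / 3 : ℝ) ^ j ≤ 3 := by
      norm_num at hg ⊢; linarith
    have h12 : 2 * θ ^ 3 * Real.log T * ∑ j ∈ range (SysEx_J T + 1), (2 / 3 : ℝ) ^ j ≤
        2 * θ ^ 3 * Real.log T * 3 := mul_le_mul_of_nonneg_left hg' (by positivity)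
    have h13 : θ ^ 3 ≤ 1 / 1000000 := by
      calc θ ^ 3 ≤ (1 / 100) ^ 3 := pow_le_pow_left₀ hθ.le h1 3
        _ = 1 / 1000000 := by norm_num
    have h14 : ((SysEx_J T : ℕ) : ℝ) ≤ 4 * Real.log X + 1 := by
      unfold SysEx_J
      rw [← hX]
      exact (Nat.ceil_lt_add_one (by have := Real.log_nonneg hX1; linarith)).le
    have h15 : Real.log X ≤ X - 1 := Real.log_le_sub_one_of_pos (by linarith)
    have h16 : (((SysEx_J T + 1 : ℕ)) : ℝ) * (k + 10) ≤ Real.log T / 8000 := by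
      have h17 : (((SysEx_J T + 1 : ℕ)) : ℝ) ≤ 6 * X ^ 4 := by
        push_cast
        have h18 : X ≤ X ^ 4 := le_self_pow₀ hX1 (by norm_num)
        linarith
      have h19 : (((SysEx_J T + 1 : ℕ)) : ℝ) * (k + 10) ≤ 6 * X ^ 4 * (k + 10) :=
        mul_le_mul_of_nonneg_right h17 (by linarith)
      linarith
    have h20 : 2 * θ ^ 3 * Real.log T * 3 ≤ Real.log T / 8000 := by nlinarith
    refine hsum.trans ?_
    change _ ≤ Real.log T / 4000
    linarith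
  · -- large
    refine le_trans (sum_le_sum fun j hj => ?_) htr
    rw [mul_comm]
    apply mul_le_mul_of_nonneg_right _ (Real.exp_pos _).le
    change (2 * (((SysEx_S k θ T p0).l j : ℕ) : ℝ) * sR ((SysEx_S k θ T p0).R j) /
      ((((SysEx_S k θ T p0).l j : ℕ) : ℝ) / (10 * (k + 1))) ^ 2) ^ ((SysEx_S k θ T p0).l j) ≤ _
    apply SysEx_base hk (hsn j) (hl1 j)
    rcases Nat.lt_or_ge j (SysEx_J T) with hlt | hge
    · have h5 := hslt j hlt
      have h6 := hlge j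
      have h7 : 800 * (k + 1) ^ 2 ≤ 1 / θ ^ 2 := by
        rw [le_div_iff₀ (by positivity)]; exact h2
      have h8 : (0 : ℝ) ≤ j := Nat.cast_nonneg j
      have h9 : 400 * (k + 1) ^ 2 * sR ((SysEx_S k θ T p0).R j) ≤ 400 * (k + 1) ^ 2 * 2 :=
        mul_le_mul_of_nonneg_left h5 (by positivity)
      linarith
    · have hj2 : j < SysEx_J T + 1 := mem_range.1 hj
      have hj' : j = SysEx_J T := le_antisymm (by omega) hge
      subst hj'
      have h9 : 400 * (k + 1) ^ 2 * sR ((SysEx_S k θ T p0).R (SysEx_J T)) ≤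
          400 * (k + 1) ^ 2 * (2 * X) :=
        mul_le_mul_of_nonneg_left (by linarith) (by positivity)
      have h10 : 800 * (k + 1) ^ 2 * X ≤ X * X := mul_le_mul_of_nonneg_right hX5 (by linarith)
      have h11 : X * X = X ^ 2 := by ring
      linarith
  · -- lam_ge
    have h5 : ∑ j ∈ range (SysEx_J T + 1), sR ((SysEx_S k θ T p0).R j) =
        ∑ p ∈ SysEx_B p0 (SysEx_n (SysEx_x θ T 0)), (1 : ℝ) / p := htele (fun p => (1 : ℝ) / p)
    have h6 := (abs_le.1 (hm p0 _ hp0 (hnj 0 (Nat.zero_le _)))).1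
    have h7 := SysEx_log_ge (x := SysEx_x θ T 0) (by rw [hx0]; linarith)
    have h8 : Real.log (θ ^ 5 * Real.log T / (2 * Real.log p0)) ≤
        Real.log (Real.log (SysEx_n (SysEx_x θ T 0)) / Real.log p0) := by
      apply Real.log_le_log (by positivity)
      rw [div_le_div_iff₀ (by positivity) hlp0]
      rw [hx0] at h7 ⊢
      nlinarith
    have h9 : Real.log (θ ^ 5 * Real.log T / (2 * Real.log p0)) =
        Real.log (Real.log T) - Real.log (2 * Real.log p0 / θ ^ 5) := by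
      rw [← Real.log_div (by positivity) (by positivity)]
      congr 1
      field_simp
    have h10 : Real.log (Real.log T) - (Real.log (2 * Real.log p0 / θ ^ 5) + C' / Real.log p0) ≤
        ∑ j ∈ range (SysEx_J T + 1), sR ((SysEx_S k θ T p0).R j) := by
      rw [h5]
      unfold SysEx_B
      linarith
    change Real.exp _ * (Real.log T) ^ (k ^ 2) ≤ Real.exp (k ^ 2 * _)
    rw [Real.rpow_def_of_pos hLp, ← Real.exp_add]
    apply Real.exp_le_exp.2
    have h11 : 0 ≤ k ^ 2 := by positivity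
    have h12 := mul_le_mul_of_nonneg_left h10 h11
    calc _ = k ^ 2 * (Real.log (Real.log T) -
        (Real.log (2 * Real.log p0 / θ ^ 5) + C' / Real.log p0)) := by ring
      _ ≤ _ := h12
  · -- logp
    have h5 : Nat.primesBelow (SysEx_S k θ T p0).M = SysEx_B 1 (SysEx_n (θ * Real.log T)) := by
      ext p
      rw [SysEx_mem, Nat.mem_primesBelow]
      change p < Mof θ T ∧ p.Prime ↔ _
      rw [hM]
      constructor
      · rintro ⟨ha, hb⟩
        exact ⟨hb.one_lt, by omega, hb⟩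
      · rintro ⟨ha, hb, hc⟩
        exact ⟨by omega, hc⟩
    rw [h5]
    have hpos : 0 ≤ θ * Real.log T := by positivity
    have h6 := (abs_le.1 (hml 1 _ le_rfl (SysEx_one_le hpos))).2
    have h7 := SysEx_log_le hpos
    unfold SysEx_B
    change _ ≤ 2 * θ * Real.log T
    simp only [Nat.cast_one, Real.log_one, sub_zero] at h6
    linarith
  · -- logc
    refine le_trans (le_of_eq (htele (fun p => Real.log p / p))) ?_
    have h6 := (abs_le.1 (hml p0 _ (by omega) (hnj 0 (Nat.zero_le _)))).2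
    have h7 := SysEx_log_le (x := SysEx_x θ T 0) (by rw [hx0]; positivity)
    rw [hx0] at h7
    rw [hx0] at h6
    rw [hx0]
    unfold SysEx_B
    change _ ≤ 2 * θ ^ 5 * Real.log T
    linarith

theorem sys_exists (k C : ℝ) (p0 : ℕ) (hk : 0 < k) (hC : 0 ≤ C) (hp0 : 2 ≤ p0) :
    ∃ θ0 : ℝ, 0 < θ0 ∧ ∀ θ : ℝ, 0 < θ → θ ≤ θ0 → ∃ c T0 : ℝ, 0 < c ∧ ∀ T : ℝ, T0 ≤ T →
      ∃ S : Sys, S.k = k ∧ S.θ = θ ∧ S.T = T ∧ S.p0 = p0 ∧ Good S C c := by
  obtain ⟨C1, hC1, hm1⟩ := mertens_inv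
  obtain ⟨C2, hC2, hm2⟩ := mertens_log
  have hlp0 : 0 < Real.log p0 := Real.log_pos (by exact_mod_cast (by omega : 1 < p0))
  have hlog2 : 0 < Real.log 2 := Real.log_pos (by norm_num)
  set C' : ℝ := max C1 C2 with hC'
  have hC'0 : 0 ≤ C' := hC1.trans (le_max_left _ _)
  have hm : ∀ y z : ℕ, 2 ≤ y → y ≤ z →
      |∑ p ∈ (Finset.Ioc y z).filter Nat.Prime, 1 / (p : ℝ) -
        Real.log (Real.log z / Real.log y)| ≤ C' / Real.log y := by
    intro y z hy hz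
    refine (hm1 y z hy hz).trans ?_
    have : 0 < Real.log y := Real.log_pos (by exact_mod_cast (by omega : 1 < y))
    exact div_le_div_of_nonneg_right (le_max_left _ _) this.le
  have hml : ∀ y z : ℕ, 1 ≤ y → y ≤ z →
      |∑ p ∈ (Finset.Ioc y z).filter Nat.Prime, Real.log p / p -
        (Real.log z - Real.log y)| ≤ C' := fun y z hy hz =>
    (hm2 y z hy hz).trans (le_max_right _ _)
  refine ⟨min (1 / 100) (min (1 / (30 * (k + 1))) (min (Real.exp (-(3 * C)) / 20)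
    (1 / (2000 * (11 * C + 1)) ^ 2))), ?_, ?_⟩
  · refine lt_min (by norm_num) (lt_min (by positivity) (lt_min (by positivity) (by positivity)))
  intro θ hθ hθ0
  have h1 : θ ≤ 1 / 100 := hθ0.trans (min_le_left _ _)
  have h2' : θ ≤ 1 / (30 * (k + 1)) := (hθ0.trans (min_le_right _ _)).trans (min_le_left _ _)
  have h3' : θ ≤ Real.exp (-(3 * C)) / 20 :=
    ((hθ0.trans (min_le_right _ _)).trans (min_le_right _ _)).trans (min_le_left _ _)
  have h4 : θ ≤ 1 / (2000 * (11 * C + 1)) ^ 2 :=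
    ((hθ0.trans (min_le_right _ _)).trans (min_le_right _ _)).trans (min_le_right _ _)
  have h2 : 800 * (k + 1) ^ 2 * θ ^ 2 ≤ 1 := by
    rw [le_div_iff₀ (by positivity)] at h2'
    have h5 : (θ * (30 * (k + 1))) ^ 2 ≤ 1 := pow_le_one₀ (by positivity) h2'
    have h6 : 0 ≤ (k + 1) ^ 2 * θ ^ 2 := by positivity
    nlinarith
  have h3 : θ ^ 2 ≤ Real.exp (-(3 * C)) / 20 := by
    have : θ ^ 2 ≤ θ := by nlinarith
    linarith
  set D : ℝ := |Real.log (Real.log p0)| + C' / Real.log p0 with hD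
  have hD0 : 0 ≤ D := by positivity
  set K : ℝ := 2 * Real.log 2 + 20 * C' + Real.log p0 with hK
  have hK0 : 0 < K := by positivity
  set X0 : ℝ := 1 + 2 * (C + 1) + |C * (D + 1) + Real.log (2 / θ ^ 2)| + D + 800 * (k + 1) ^ 2
    with hX0
  set ε : ℝ := min (θ ^ 5 / (3 * K)) (1 / (48000 * (k + 10))) with hε
  have hε0 : 0 < ε := lt_min (by positivity) (by positivity)
  have hev1 : ∀ᶠ T : ℝ in Filter.atTop, X0 ≤ Real.log (Real.log T) :=
    (Real.tendsto_log_atTop.comp Real.tendsto_log_atTop).eventually_ge_atTop X0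
  have hev2 : ∀ᶠ T : ℝ in Filter.atTop, 1 / θ ^ 10 ≤ Real.log T :=
    Real.tendsto_log_atTop.eventually_ge_atTop _
  have hev3 : ∀ᶠ T : ℝ in Filter.atTop, ‖Real.log (Real.log T) ^ 4‖ ≤ ε * ‖id (Real.log T)‖ :=
    Real.tendsto_log_atTop.eventually
      ((Real.isLittleO_pow_log_id_atTop (n := 4)).bound hε0)
  obtain ⟨T0, hT0⟩ := Filter.eventually_atTop.1
    ((hev1.and hev2).and (hev3.and (Filter.eventually_ge_atTop (1 : ℝ))))
  refine ⟨_, T0, Real.exp_pos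
    (-(k ^ 2 * (Real.log (2 * Real.log p0 / θ ^ 5) + C' / Real.log p0))), ?_⟩
  intro T hT
  obtain ⟨⟨ha, hb⟩, hc, hd⟩ := hT0 T hT
  have hL0 : 0 < Real.log T := lt_of_lt_of_le (by positivity) hb
  have hab := neg_abs_le (C * (D + 1) + Real.log (2 / θ ^ 2))
  have hab' := le_abs_self (C * (D + 1) + Real.log (2 / θ ^ 2))
  have habn := abs_nonneg (C * (D + 1) + Real.log (2 / θ ^ 2))
  have hk8 : 0 ≤ 800 * (k + 1) ^ 2 := by positivity
  have hX1 : 1 ≤ Real.log (Real.log T) := by linarith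
  have hc' : Real.log (Real.log T) ^ 4 ≤ ε * Real.log T := by
    rw [Real.norm_of_nonneg (by positivity), id, Real.norm_of_nonneg hL0.le] at hc
    exact hc
  refine ⟨SysEx_S k θ T p0, rfl, rfl, rfl, rfl, ?_⟩
  refine SysEx_main k C C' D K (Real.log (Real.log T)) θ T p0 hk hC hC'0 hp0 hm hml hθ h1 h2 h3 h4
    hD (by linarith) (by linarith) (by linarith) rfl hX1 (by linarith) (by linarith) (by linarith)
    (by linarith) hd hb ?_ ?_
  · have h5 : ε ≤ θ ^ 5 / (3 * K) := min_le_left _ _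
    have h6 : Real.log (Real.log T) ^ 4 ≤ θ ^ 5 / (3 * K) * Real.log T :=
      hc'.trans (mul_le_mul_of_nonneg_right h5 hL0.le)
    calc 3 * K * Real.log (Real.log T) ^ 4 ≤ 3 * K * (θ ^ 5 / (3 * K) * Real.log T) :=
          mul_le_mul_of_nonneg_left h6 (by positivity)
      _ = θ ^ 5 * Real.log T := by field_simp
  · have h5 : ε ≤ 1 / (48000 * (k + 10)) := min_le_right _ _
    have h6 : Real.log (Real.log T) ^ 4 ≤ 1 / (48000 * (k + 10)) * Real.log T :=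
      hc'.trans (mul_le_mul_of_nonneg_right h5 hL0.le)
    calc 48000 * (k + 10) * Real.log (Real.log T) ^ 4 ≤
        48000 * (k + 10) * (1 / (48000 * (k + 10)) * Real.log T) :=
          mul_le_mul_of_nonneg_left h6 (by positivity)
      _ = Real.log T := by field_simp

end Pool.Agent.GH
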