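import Pool.Agent.Lib.MP_69b2e4_nt.GH.Sys
import Pool.Agent.Lib.MP_69b2e4_nt.GH.Square

/-! TASK Zeros. From windows to zeros.
`M2_ge`: for a zero (or any real `g`) with `|t - g| ≤ h`: `square_bound` for `f = riemannZeta`, `z0 = 1/2+ig`: `h⁴ ‖ζ'(1/2+ig)‖² ≤` integral over the square of half side `2h` around `1/2+ig`, which is contained in the square of half side `3h` around `1/2+it`;
so `M2 h t ≥ h² ‖ζ'(1/2+ig)‖²`. (`ζ` is differentiable there: `h ≤ 1/10`, so `Re < 1`. Change of variables `b → b + (t-g)` in the inner integral, monotonicity of the integral of a nonnegative continuous function.)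
`zeros_sum`: let `E = [T,2T] \ noz h`. Each `t ∈ E` has a zero `1/2+ig` with `t < g < t+h`, so `T < g ≤ 3T` (`h ≤ 1/10 ≤ T`), `g ∈ Z`, and `M2 h t ≥ h² ‖ζ'(1/2+ig)‖² > 0`. (a) `δ` = the minimum of `h² ‖ζ'‖²` over `Z` (if `Z` is empty, `E` is empty and `δ = 1` works).
(b) `E ⊆ ⋃_{g∈Z} (g-h, g)`, so `∫_E M2^{-k} ≤ ∑_g ∫_{(g-h,g) ∩ E} M2^{-k} ≤ ∑_g h · (h²‖ζ'‖²)^{-k} = h^{1-2k} ∑ ‖ζ'‖^{-2k}` (nonnegative integrand; `M2 h t ^ (-k) ≤ (h²‖ζ'‖²)^{-k}` for `t ∈ (g-h,g)`).
`M2 h` is continuous for `h ≤ 1/10` (prove or cite `continuous_M2` of Step4 by importing it). -/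

set_option autoImplicit false

namespace Pool.Agent.GH

open Complex MeasureTheory Finset
open scoped Real ComplexConjugate

private theorem Zeros_clamp {h : ℝ} (hh : 0 < h) (hh1 : h ≤ 1 / 10) (s a b : ℝ) :
    (1 / 2 + s * I + (max (-(3 * h)) (min a (3 * h)) : ℝ) + b * I : ℂ) ≠ 1 := by
  intro hcon
  have h1 := congrArg Complex.re hcon
  simp at h1
  have h2 : max (-(3 * h)) (min a (3 * h)) ≤ 3 * h :=
    max_le (by linarith) (min_le_right _ _)
  linarith

private theorem Zeros_cont {h : ℝ} (hh : 0 < h) (hh1 : h ≤ 1 / 10) (s : ℝ) :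
    Continuous fun x : ℝ × ℝ =>
      ‖riemannZeta (1 / 2 + s * I + (max (-(3 * h)) (min x.1 (3 * h)) : ℝ) + x.2 * I)‖ ^ 2 := by
  rw [continuous_iff_continuousAt]
  intro x
  refine ContinuousAt.pow (ContinuousAt.norm ?_) 2
  have h1 := (differentiableAt_riemannZeta (Zeros_clamp hh hh1 s x.1 x.2)).continuousAt
  refine ContinuousAt.comp (f := fun x : ℝ × ℝ =>
    (1 / 2 + s * I + (max (-(3 * h)) (min x.1 (3 * h)) : ℝ) + x.2 * I : ℂ)) h1 ?_
  refine Continuous.continuousAt ?_
  have h2 : Continuous fun x : ℝ × ℝ => ((max (-(3 * h)) (min x.1 (3 * h)) : ℝ) : ℂ) :=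
    Complex.continuous_ofReal.comp
      (continuous_const.max (continuous_fst.min continuous_const))
  have h3 : Continuous fun x : ℝ × ℝ => (x.2 : ℂ) := Complex.continuous_ofReal.comp continuous_snd
  fun_prop

private theorem Zeros_G {h : ℝ} (hh : 0 < h) (hh1 : h ≤ 1 / 10) (s u v : ℝ) :
    Continuous fun a : ℝ => ∫ b in u..v,
      ‖riemannZeta (1 / 2 + s * I + (max (-(3 * h)) (min a (3 * h)) : ℝ) + b * I)‖ ^ 2 := by
  exact intervalIntegral.continuous_parametric_intervalIntegral_of_continuous'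
    (f := fun a b : ℝ =>
      ‖riemannZeta (1 / 2 + s * I + (max (-(3 * h)) (min a (3 * h)) : ℝ) + b * I)‖ ^ 2)
    (Zeros_cont hh hh1 s) u v

private theorem Zeros_id {h a : ℝ} (ha : -(3 * h) ≤ a) (ha' : a ≤ 3 * h) :
    max (-(3 * h)) (min a (3 * h)) = a := by
  rw [min_eq_left ha', max_eq_right ha]

theorem M2_ge {h t g : ℝ} (hh : 0 < h) (hh1 : h ≤ 1 / 10) (htg : |t - g| ≤ h) :
    h ^ 2 * ‖deriv riemannZeta (1 / 2 + g * I)‖ ^ 2 ≤ M2 h t := by
  have hh2 : h ^ 2 ≠ 0 := by positivity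
  have hzb := square_bound (f := riemannZeta) (z0 := 1 / 2 + g * I) hh (fun z hz1 _ => by
    refine differentiableAt_riemannZeta fun hz => ?_
    rw [hz] at hz1
    have h1 : ((1 : ℂ) - (1 / 2 + g * I)).re = 1 / 2 := by
      simp
      norm_num
    rw [h1, abs_of_pos (by norm_num)] at hz1
    linarith)
  have habs := abs_le.1 htg
  -- the clamped functions
  have hG1 := Zeros_G hh hh1 g (-(2 * h)) (2 * h)
  have hG2 := Zeros_G hh hh1 t (-(3 * h)) (3 * h)
  have hinner : ∀ a : ℝ, (∫ b in (-(2 * h))..(2 * h),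
      ‖riemannZeta (1 / 2 + g * I + (max (-(3 * h)) (min a (3 * h)) : ℝ) + b * I)‖ ^ 2) ≤
      ∫ b in (-(3 * h))..(3 * h),
      ‖riemannZeta (1 / 2 + t * I + (max (-(3 * h)) (min a (3 * h)) : ℝ) + b * I)‖ ^ 2 := by
    intro a
    have h1 : ∀ b : ℝ, ‖riemannZeta (1 / 2 + g * I + (max (-(3 * h)) (min a (3 * h)) : ℝ) +
        b * I)‖ ^ 2 = (fun b : ℝ => ‖riemannZeta (1 / 2 + t * I +
          (max (-(3 * h)) (min a (3 * h)) : ℝ) + b * I)‖ ^ 2) (b + (g - t)) := by
      intro b
      beta_reduce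
      congr 3
      push_cast
      ring
    simp_rw [h1]
    rw [intervalIntegral.integral_comp_add_right (fun b : ℝ => ‖riemannZeta (1 / 2 + t * I +
          (max (-(3 * h)) (min a (3 * h)) : ℝ) + b * I)‖ ^ 2) (g - t)]
    refine intervalIntegral.integral_mono_interval (by linarith) (by linarith) (by linarith)
      (Filter.Eventually.of_forall fun b => by positivity) ?_
    refine Continuous.intervalIntegrable ?_ _ _
    exact (Zeros_cont hh hh1 t).comp (Continuous.prodMk continuous_const continuous_id)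
  have hL : (∫ a in (-(2 * h))..(2 * h), ∫ b in (-(2 * h))..(2 * h),
      ‖riemannZeta (1 / 2 + g * I + a + b * I)‖ ^ 2) =
      ∫ a in (-(2 * h))..(2 * h), ∫ b in (-(2 * h))..(2 * h),
      ‖riemannZeta (1 / 2 + g * I + (max (-(3 * h)) (min a (3 * h)) : ℝ) + b * I)‖ ^ 2 := by
    refine intervalIntegral.integral_congr fun a ha => ?_
    rw [Set.uIcc_of_le (by linarith)] at ha
    simp only [Zeros_id (show -(3 * h) ≤ a by linarith [ha.1]) (show a ≤ 3 * h by linarith [ha.2])]
  have hR : (∫ a in (-(3 * h))..(3 * h), ∫ b in (-(3 * h))..(3 * h),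
      ‖riemannZeta (1 / 2 + t * I + a + b * I)‖ ^ 2) =
      ∫ a in (-(3 * h))..(3 * h), ∫ b in (-(3 * h))..(3 * h),
      ‖riemannZeta (1 / 2 + t * I + (max (-(3 * h)) (min a (3 * h)) : ℝ) + b * I)‖ ^ 2 := by
    refine intervalIntegral.integral_congr fun a ha => ?_
    rw [Set.uIcc_of_le (by linarith)] at ha
    simp only [Zeros_id ha.1 ha.2]
  unfold M2
  rw [hR]
  rw [hL] at hzb
  have hmid : h ^ 4 * ‖deriv riemannZeta (1 / 2 + g * I)‖ ^ 2 ≤
      ∫ a in (-(3 * h))..(3 * h), ∫ b in (-(3 * h))..(3 * h),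
      ‖riemannZeta (1 / 2 + t * I + (max (-(3 * h)) (min a (3 * h)) : ℝ) + b * I)‖ ^ 2 := by
    refine hzb.trans ?_
    refine (intervalIntegral.integral_mono_on (by linarith) (hG1.intervalIntegrable _ _)
      (hG2.intervalIntegrable _ _) fun a _ => hinner a).trans ?_
    refine intervalIntegral.integral_mono_interval (by linarith) (by linarith) (by linarith)
      (Filter.Eventually.of_forall fun a => ?_) (hG2.intervalIntegrable _ _)
    exact intervalIntegral.integral_nonneg (by linarith) fun b _ => by positivity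
  rw [one_div_mul_eq_div, le_div_iff₀ (by positivity)]
  calc h ^ 2 * ‖deriv riemannZeta (1 / 2 + g * I)‖ ^ 2 * h ^ 2 =
        h ^ 4 * ‖deriv riemannZeta (1 / 2 + g * I)‖ ^ 2 := by ring
    _ ≤ _ := hmid

theorem zeros_sum {T h k : ℝ} (hT : 1 ≤ T) (hh : 0 < h) (hh1 : h ≤ 1 / 10) (hk : 0 < k)
    (Z : Finset ℝ) (hZ : ∀ g : ℝ, 0 < g → g ≤ 3 * T → riemannZeta (1 / 2 + g * I) = 0 → g ∈ Z)
    (hZ' : ∀ g ∈ Z, deriv riemannZeta (1 / 2 + g * I) ≠ 0) :
    (∃ δ : ℝ, 0 < δ ∧ ∀ t ∈ Set.Icc T (2 * T) \ noz h, δ ≤ M2 h t) ∧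
    ∫ t in Set.Icc T (2 * T) \ noz h, M2 h t ^ (-k) ≤
      h ^ (1 - 2 * k) * ∑ g ∈ Z, ‖deriv riemannZeta (1 / 2 + g * I)‖ ^ (-2 * k) := by
  classical
  have hzero : ∀ t ∈ Set.Icc T (2 * T) \ noz h, ∃ g ∈ Z, t < g ∧ g < t + h := by
    rintro t ⟨ht, htn⟩
    unfold noz at htn
    simp only [Set.mem_ofPred_eq, not_forall, not_not] at htn
    obtain ⟨g, h1, h2, h3⟩ := htn
    exact ⟨g, hZ g (by linarith [ht.1]) (by linarith [ht.2]) h3, h1, h2⟩
  have hpos : ∀ g ∈ Z, 0 < h ^ 2 * ‖deriv riemannZeta (1 / 2 + g * I)‖ ^ 2 := by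
    intro g hg
    have := norm_pos_iff.2 (hZ' g hg)
    positivity
  refine ⟨?_, ?_⟩
  · rcases Z.eq_empty_or_nonempty with hZe | hZne
    · refine ⟨1, one_pos, fun t ht => ?_⟩
      obtain ⟨g, hg, -⟩ := hzero t ht
      rw [hZe] at hg
      simp at hg
    · obtain ⟨g0, hg0, hmin⟩ := Z.exists_min_image
        (fun g => h ^ 2 * ‖deriv riemannZeta (1 / 2 + g * I)‖ ^ 2) hZne
      refine ⟨_, hpos g0 hg0, fun t ht => ?_⟩
      obtain ⟨g, hg, h1, h2⟩ := hzero t ht
      exact (hmin g hg).trans (M2_ge hh hh1 (abs_le.2 ⟨by linarith, by linarith⟩))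
  · have hmeas : MeasurableSet (Set.Icc T (2 * T) \ noz h) := by
      refine measurableSet_Icc.diff ?_
      have h1 : (noz h)ᶜ = ⋃ g ∈ {g : ℝ | riemannZeta (1 / 2 + g * I) = 0}, Set.Ioo (g - h) g := by
        ext t
        unfold noz
        simp only [Set.mem_compl_iff, Set.mem_ofPred_eq, not_forall, not_not, Set.mem_iUnion,
          Set.mem_Ioo, exists_prop]
        constructor
        · rintro ⟨g, h1, h2, h3⟩
          exact ⟨g, h3, by linarith, h1⟩
        · rintro ⟨g, h3, h2, h1⟩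
          exact ⟨g, h1, by linarith, h3⟩
      have h2 : IsOpen (noz h)ᶜ := by
        rw [h1]
        exact isOpen_biUnion fun g _ => isOpen_Ioo
      exact (isOpen_compl_iff.1 h2).measurableSet
    set G : ℝ → ℝ := fun t => ∑ g ∈ Z, (Set.Ioo (g - h) g).indicator
      (fun _ => (h ^ 2 * ‖deriv riemannZeta (1 / 2 + g * I)‖ ^ 2) ^ (-k)) t with hG
    have hGi : ∀ g ∈ Z, Integrable ((Set.Ioo (g - h) g).indicator
        (fun _ : ℝ => (h ^ 2 * ‖deriv riemannZeta (1 / 2 + g * I)‖ ^ 2) ^ (-k))) := by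
      intro g _
      rw [integrable_indicator_iff measurableSet_Ioo]
      exact integrableOn_const (by simp)
    have hGint : Integrable G := integrable_finsetSum _ hGi
    have hGnn : ∀ t, 0 ≤ G t := fun t =>
      Finset.sum_nonneg fun g _ => Set.indicator_nonneg (fun _ _ => by positivity) _
    calc ∫ t in Set.Icc T (2 * T) \ noz h, M2 h t ^ (-k)
        ≤ ∫ t in Set.Icc T (2 * T) \ noz h, G t := by
          refine integral_mono_of_nonneg ?_ hGint.integrableOn ?_
          · rw [Filter.EventuallyLE, ae_restrict_iff' hmeas]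
            refine Filter.Eventually.of_forall fun t ht => ?_
            obtain ⟨g, hg, h1, h2⟩ := hzero t ht
            have h3 := M2_ge (g := g) hh hh1 (abs_le.2 ⟨by linarith, by linarith⟩ : |t - g| ≤ h)
            have h4 := hpos g hg
            exact Real.rpow_nonneg (by linarith) _
          · rw [Filter.EventuallyLE, ae_restrict_iff' hmeas]
            refine Filter.Eventually.of_forall fun t ht => ?_
            obtain ⟨g, hg, h1, h2⟩ := hzero t ht
            have h3 := M2_ge (g := g) hh hh1 (abs_le.2 ⟨by linarith, by linarith⟩ : |t - g| ≤ h)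
            have h4 := hpos g hg
            calc M2 h t ^ (-k) ≤ (h ^ 2 * ‖deriv riemannZeta (1 / 2 + g * I)‖ ^ 2) ^ (-k) :=
                  Real.rpow_le_rpow_of_nonpos h4 h3 (by linarith)
              _ = (Set.Ioo (g - h) g).indicator (fun _ =>
                    (h ^ 2 * ‖deriv riemannZeta (1 / 2 + g * I)‖ ^ 2) ^ (-k)) t := by
                  rw [Set.indicator_of_mem]
                  exact ⟨by linarith, h1⟩
              _ ≤ G t := Finset.single_le_sum (f := fun g : ℝ => (Set.Ioo (g - h) g).indicator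
                    (fun _ => (h ^ 2 * ‖deriv riemannZeta (1 / 2 + g * I)‖ ^ 2) ^ (-k)) t)
                    (fun g _ => Set.indicator_nonneg (fun _ _ => by positivity) _) hg
      _ ≤ ∫ t, G t := setIntegral_le_integral hGint (Filter.Eventually.of_forall hGnn)
      _ = ∑ g ∈ Z, h * (h ^ 2 * ‖deriv riemannZeta (1 / 2 + g * I)‖ ^ 2) ^ (-k) := by
          rw [hG, integral_finsetSum _ hGi]
          refine Finset.sum_congr rfl fun g _ => ?_
          rw [integral_indicator_const _ measurableSet_Ioo, Real.volume_real_Ioo_of_le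
            (by linarith), smul_eq_mul]
          congr 1
          ring
      _ = h ^ (1 - 2 * k) * ∑ g ∈ Z, ‖deriv riemannZeta (1 / 2 + g * I)‖ ^ (-2 * k) := by
          rw [Finset.mul_sum]
          refine Finset.sum_congr rfl fun g _ => ?_
          rw [Real.mul_rpow (by positivity) (by positivity), ← Real.rpow_natCast h 2,
            ← Real.rpow_natCast _ 2, ← Real.rpow_mul hh.le, ← Real.rpow_mul (norm_nonneg _),
            ← mul_assoc, Real.rpow_sub hh, Real.rpow_one]
          push_cast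
          rw [show (2 : ℝ) * -k = -(2 * k) by ring, Real.rpow_neg hh.le,
            show -2 * k = -(2 * k) by ring]
          ring

end Pool.Agent.GH
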