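import Pool.Agent.Lib.MP_69b2e4_nt.Mg.G044
import Pool.Agent.Lib.MP_69b2e4_nt.GH.SysEx
import Pool.Agent.Lib.MP_69b2e4_nt.Mg.G046
import Pool.Agent.Lib.MP_69b2e4_nt.Mg.G049
import Pool.Agent.Lib.MP_69b2e4_nt.Mg.G051
import Pool.Agent.Lib.MP_69b2e4_nt.GH.Step4
import Pool.Agent.Lib.MP_69b2e4_nt.Mg.G048
import Pool.Agent.Lib.MP_69b2e4_nt.GH.Zeros

/-! The lower bound for the integral of the negative power of the local mean square. -/

set_option autoImplicit false

namespace Pool.Agent.GH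

open Complex MeasureTheory Finset
open scoped Real ComplexConjugate

section cont

variable {S : Sys} {C c : ℝ}

theorem yf_eq (S : Sys) (t : ℝ) : S.yf t = ‖(S.Y (nC (1 / 2 + t * I))) ^ 2‖ := by
  unfold Sys.yf
  rw [norm_pow]

theorem continuous_yf (hS : Good S C c) : Continuous S.yf := by
  have h := (continuous_dp_line (len_Y2 hS)).norm
  have h2 : S.yf = fun t : ℝ => ‖(S.Y (nC (1 / 2 + t * I))) ^ 2‖ := funext (yf_eq S)
  rw [h2]
  exact h

theorem continuous_vf (hS : Good S C c) : Continuous S.vf := by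
  unfold Sys.vf
  exact ((continuous_dp_line (len_V hS)).norm).pow 2

theorem continuous_kf (hS : Good S C c) : Continuous S.kf := by
  unfold Sys.kf
  exact ((continuous_dp_line (len_Vc hS)).norm).pow 4

theorem continuous_Jf (hS : Good S C c) : Continuous S.Jf := by
  have hz : Continuous fun u : ℝ => riemannZeta (1 / 2 + u * I) := by
    have := continuous_zeta_line 0 (by norm_num)
    simpa using this
  have hg : Continuous fun u : ℝ => ‖riemannZeta (1 / 2 + u * I)‖ * S.vf u :=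
    hz.norm.mul (continuous_vf hS)
  have hp : Continuous fun x : ℝ => ∫ u in (0 : ℝ)..x, ‖riemannZeta (1 / 2 + u * I)‖ * S.vf u :=
    intervalIntegral.continuous_primitive (fun a b => hg.intervalIntegrable a b) 0
  have he : S.Jf = fun t => (∫ u in (0 : ℝ)..(t + S.h), ‖riemannZeta (1 / 2 + u * I)‖ * S.vf u) -
      ∫ u in (0 : ℝ)..t, ‖riemannZeta (1 / 2 + u * I)‖ * S.vf u := by
    funext t
    unfold Sys.Jf
    rw [intervalIntegral.integral_interval_sub_left (hg.intervalIntegrable _ _)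
      (hg.intervalIntegrable _ _)]
  rw [he]
  exact (hp.comp (continuous_id.add continuous_const)).sub hp

theorem yf_nonneg (S : Sys) (t : ℝ) : 0 ≤ S.yf t := by unfold Sys.yf; positivity

theorem kf_nonneg (S : Sys) (t : ℝ) : 0 ≤ S.kf t := by unfold Sys.kf; positivity

theorem vf_nonneg (S : Sys) (t : ℝ) : 0 ≤ S.vf t := by unfold Sys.vf; positivity

theorem h_pos (hS : Good S C c) : 0 < S.h := by
  have h1 := hS.θ_pos
  have h2 : 0 < S.L := lt_of_lt_of_le (by positivity) hS.L_ge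
  unfold Sys.h Sys.A
  positivity

theorem Jf_nonneg (hS : Good S C c) (t : ℝ) : 0 ≤ S.Jf t := by
  unfold Sys.Jf
  refine intervalIntegral.integral_nonneg (by have := h_pos hS; linarith) fun u _ => ?_
  exact mul_nonneg (norm_nonneg _) (vf_nonneg S u)

theorem yf_le (hS : Good S C c) (t : ℝ) : S.yf t ≤ S.T ^ (1 / 100 : ℝ) := by
  rw [yf_eq]
  obtain ⟨F, a, h1, h2, h3⟩ := len_Y2 hS
  have h4 := h3 (nC (1 / 2 + t * I))
  beta_reduce at h4
  rw [h4]
  refine (norm_sum_le _ _).trans ?_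
  refine le_trans (Finset.sum_le_sum fun n hn => ?_) h2
  rw [norm_mul, norm_nC _ (h1 n hn).1, Complex.norm_real, Real.norm_eq_abs]
  have hn1 : (1 : ℝ) ≤ n := by exact_mod_cast Nat.one_le_iff_ne_zero.mpr (h1 n hn).1
  have : (n : ℝ) ^ (-(1 / 2 + (t : ℂ) * I).re) ≤ 1 :=
    Real.rpow_le_one_of_one_le_of_nonpos hn1 (by simp)
  calc |a n| * (n : ℝ) ^ (-(1 / 2 + (t : ℂ) * I).re) ≤ |a n| * 1 :=
        mul_le_mul_of_nonneg_left this (abs_nonneg _)
    _ = |a n| := mul_one _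

end cont

theorem continuous_nC_line (n : ℕ) : Continuous fun t : ℝ => nC (1 / 2 + t * I) n := by
  rcases eq_or_ne n 0 with rfl | hn
  · simp only [map_zero]; exact continuous_const
  · have h : (fun t : ℝ => nC (1 / 2 + t * I) n) = fun t : ℝ => (n : ℂ) ^ (-(1 / 2 + t * I)) := by
      funext t; exact nC_apply _ hn
    rw [h]
    have hn' : (n : ℂ) ≠ 0 := by exact_mod_cast hn
    refine Continuous.const_cpow ?_ (Or.inl hn')
    fun_prop

theorem measurableSet_bad (S : Sys) : MeasurableSet S.bad := by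
  have h : S.bad = ⋃ j ∈ Finset.range (S.J + 1),
      {t : ℝ | S.lam j < ‖PS (S.R j) (nC (1 / 2 + t * I))‖} := by
    ext t
    simp only [Sys.bad, Set.mem_ofPred_eq, Set.mem_iUnion, Finset.mem_range, exists_prop,
      Nat.lt_succ_iff]
  rw [h]
  refine Finset.measurableSet_biUnion _ fun j _ => IsOpen.measurableSet ?_
  refine isOpen_lt continuous_const ?_
  unfold PS
  exact (continuous_finsetSum _ fun p _ => continuous_nC_line p).norm

/-- Solving the final inequality. -/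
theorem solve_ineq {c1 K C4 D h Iv k : ℝ} (hk : 0 < k) (hc1 : 0 < c1) (hK : 0 < K) (hC4 : 0 < C4)
    (hD : 0 < D) (hh : 0 < h) (hI : 0 ≤ Iv)
    (hmain : c1 * h * D ≤ K * (Iv ^ (1 / (2 * k + 2)) * (C4 * D) ^ (k / (2 * k + 2)) *
      (h ^ 2 * D) ^ (1 / 2 : ℝ))) :
    (c1 / (K * C4 ^ (k / (2 * k + 2)))) ^ (2 * k + 2) * D ≤ Iv := by
  have h2k : 0 < 2 * k + 2 := by linarith
  have h1 : (h ^ 2 * D) ^ (1 / 2 : ℝ) = h * D ^ (1 / 2 : ℝ) := by
    rw [Real.mul_rpow (by positivity) hD.le, ← Real.sqrt_eq_rpow, Real.sqrt_sq hh.le]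
  have h2 : (C4 * D) ^ (k / (2 * k + 2)) = C4 ^ (k / (2 * k + 2)) * D ^ (k / (2 * k + 2)) :=
    Real.mul_rpow hC4.le hD.le
  rw [h1, h2] at hmain
  have hDs : D = D ^ (1 / (2 * k + 2)) * (D ^ (k / (2 * k + 2)) * D ^ (1 / 2 : ℝ)) := by
    rw [← Real.rpow_add hD, ← Real.rpow_add hD]
    have : 1 / (2 * k + 2) + (k / (2 * k + 2) + 1 / 2) = 1 := by
      field_simp
      ring
    rw [this, Real.rpow_one]
  set E := D ^ (k / (2 * k + 2)) * D ^ (1 / 2 : ℝ) with hE
  have hE0 : 0 < E := by positivity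
  set Q := C4 ^ (k / (2 * k + 2)) with hQ
  have hQ0 : 0 < Q := by positivity
  have h3 : c1 * D ^ (1 / (2 * k + 2)) ≤ K * Q * Iv ^ (1 / (2 * k + 2)) := by
    have h4 : (h * E) * (c1 * D ^ (1 / (2 * k + 2))) ≤ (h * E) * (K * Q * Iv ^ (1 / (2 * k + 2))) := by
      calc (h * E) * (c1 * D ^ (1 / (2 * k + 2))) = c1 * h * (D ^ (1 / (2 * k + 2)) * E) := by ring
        _ = c1 * h * D := by rw [← hDs]
        _ ≤ _ := hmain
        _ = (h * E) * (K * Q * Iv ^ (1 / (2 * k + 2))) := by rw [hE]; ring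
    exact le_of_mul_le_mul_left h4 (by positivity)
  have h5 : c1 / (K * Q) * D ^ (1 / (2 * k + 2)) ≤ Iv ^ (1 / (2 * k + 2)) := by
    rw [div_mul_eq_mul_div, div_le_iff₀ (by positivity)]
    linarith
  have h6 := Real.rpow_le_rpow (by positivity) h5 h2k.le
  rw [Real.mul_rpow (by positivity) (by positivity), ← Real.rpow_mul hD.le, ← Real.rpow_mul hI,
    one_div, inv_mul_cancel₀ h2k.ne', Real.rpow_one, Real.rpow_one] at h6
  exact h6

theorem step6 (k : ℝ) (hk : 0 < k) : ∃ c6 a T0 : ℝ, 0 < c6 ∧ 0 < a ∧ ∀ T : ℝ, T0 ≤ T →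
    (∃ δ : ℝ, 0 < δ ∧ ∀ t ∈ Set.Icc T (2 * T) \ noz (a / Real.log T), δ ≤ M2 (a / Real.log T) t) →
    c6 * T * Real.log T ^ (k ^ 2) ≤
      ∫ t in Set.Icc T (2 * T) \ noz (a / Real.log T), M2 (a / Real.log T) t ^ (-k) := by
  obtain ⟨p00, C01, c1, hc1, H1⟩ := step1 k hk
  set p0 : ℕ := max p00 2 with hp0
  obtain ⟨C02, C2, hC2, H2⟩ := step2a k
  obtain ⟨C03, C2', hC2', H2b⟩ := step2b k
  obtain ⟨C04, C3, hC3, H3⟩ := step3a k p0
  obtain ⟨C05, C3', hC3', H3b⟩ := step3b k p0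
  obtain ⟨C06, H4⟩ := step4 k p0
  obtain ⟨C5, hC5, H5⟩ := step5 k hk
  set C : ℝ := max (max (max C01 C02) (max C03 C04)) (max (max C05 C06) 0) with hC
  have hCa : C01 ≤ C := le_max_of_le_left (le_max_of_le_left (le_max_left _ _))
  have hCb : C02 ≤ C := le_max_of_le_left (le_max_of_le_left (le_max_right _ _))
  have hCc : C03 ≤ C := le_max_of_le_left (le_max_of_le_right (le_max_left _ _))
  have hCd : C04 ≤ C := le_max_of_le_left (le_max_of_le_right (le_max_right _ _))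
  have hCe : C05 ≤ C := le_max_of_le_right (le_max_of_le_left (le_max_left _ _))
  have hCf : C06 ≤ C := le_max_of_le_right (le_max_of_le_left (le_max_right _ _))
  have hC0 : 0 ≤ C := le_max_of_le_right (le_max_right _ _)
  obtain ⟨θ0, hθ0, HS⟩ := sys_exists k C p0 hk hC0 (le_max_right _ _)
  -- the choice of θ
  set q1 : ℝ := Real.sqrt (C2 * C3) + 1 with hq1
  set q2 : ℝ := (C2' + 1) * C3' + 1 with hq2
  have hq1p : 0 < q1 := by positivity
  have hq2p : 0 < q2 := by positivity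
  set θ : ℝ := min (min θ0 (1 / 100)) (min (c1 / (4 * q1)) (c1 ^ 2 / (16 * q2))) with hθd
  have hθ : 0 < θ := by
    rw [hθd, lt_min_iff, lt_min_iff, lt_min_iff]
    exact ⟨⟨hθ0, by norm_num⟩, by positivity, by positivity⟩
  have hθ1 : θ ≤ θ0 := (min_le_left _ _).trans (min_le_left _ _)
  have hθ3 : θ ≤ c1 / (4 * q1) := (min_le_right _ _).trans (min_le_left _ _)
  have hθ4 : θ ≤ c1 ^ 2 / (16 * q2) := (min_le_right _ _).trans (min_le_right _ _)
  obtain ⟨c, T1, hc, HT⟩ := HS θ hθ hθ1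
  obtain ⟨T2, H1'⟩ := H1 c hc
  obtain ⟨T3, H2'⟩ := H2 c hc
  obtain ⟨T4, H2b'⟩ := H2b c θ hc hθ
  obtain ⟨T5, H3'⟩ := H3 c θ hc hθ
  obtain ⟨T6, H3b'⟩ := H3b c θ hc hθ
  obtain ⟨C4, T7, hC4, H4'⟩ := H4 c θ hc hθ
  -- a threshold for the initial piece
  have hlim : Filter.Tendsto (fun T : ℝ => T ^ (1 / 50 : ℝ) / T) Filter.atTop (nhds 0) := by
    have h := tendsto_rpow_neg_atTop (y := 49 / 50) (by norm_num)
    refine h.congr' ?_
    filter_upwards [Filter.eventually_gt_atTop 0] with T hT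
    rw [eq_div_iff hT.ne', ← Real.rpow_add_one hT.ne']
    norm_num
  have hpos : 0 < θ ^ 2 * c := by positivity
  obtain ⟨T8, H8⟩ := Filter.eventually_atTop.mp (hlim.eventually (gt_mem_nhds hpos))
  set a : ℝ := 1 / θ ^ 3 with ha
  have hap : 0 < a := by positivity
  set KK0 : ℝ := C5 * (C3' / θ) ^ (1 / 2 : ℝ) with hKK0
  have hKK0p : 0 < KK0 := by positivity
  set cc : ℝ := (c1 / 2 / (KK0 * C4 ^ (k / (2 * k + 2)))) ^ (2 * k + 2) with hcc
  have hccp : 0 < cc := by positivity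
  refine ⟨cc * c, a, max (max (max T1 T2) (max T3 T4)) (max (max T5 T6) (max (max T7 T8)
    (Real.exp (30 * a + 1)))), by positivity, hap, ?_⟩
  intro T hT hδ
  simp only [max_le_iff] at hT
  obtain ⟨⟨⟨hT1, hT2⟩, hT3, hT4⟩, ⟨hT5, hT6⟩, ⟨hT7, hT8⟩, hT9⟩ := hT
  obtain ⟨S, hSk, hSθ, hST, hSp, hG⟩ := HT T hT1
  have hTpos : 0 < T := lt_of_lt_of_le (Real.exp_pos _) hT9
  have hTone : 1 ≤ T := by
    refine le_trans ?_ hT9
    exact Real.one_le_exp (by positivity)
  have hL : 30 * a + 1 ≤ Real.log T := by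
    rw [Real.le_log_iff_exp_le hTpos]; exact hT9
  have hLpos : 0 < Real.log T := by linarith
  have hSh : S.h = a / Real.log T := by
    unfold Sys.h Sys.A Sys.L
    rw [hSθ, hST]
  have hhp : 0 < S.h := h_pos hG
  have hh30 : S.h ≤ 1 / 30 := by
    rw [hSh, div_le_iff₀ hLpos]
    linarith
  rw [← hSh] at hδ ⊢
  have e1 := H1' S C hSk (by rw [hSp]; exact le_max_left _ _) hG hCa (by rw [hST]; exact hT2)
  have e2 := H2' S C hSk hG hCb (by rw [hST]; exact hT3)
  have e2b := H2b' S C hSk hSθ hG hCc (by rw [hST]; exact hT4)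
  have e3 := H3' S C hSk hSp hSθ hG hCd (by rw [hST]; exact hT5)
  have e3b := H3b' S C hSk hSp hSθ hG hCe (by rw [hST]; exact hT6)
  have e4 := H4' S C hSk hSp hSθ hG hCf (by rw [hST]; exact hT7)
  rw [hST] at e1 e2 e2b e3 e3b e4
  rw [hSθ] at e2b e3 e3b
  have hLam : c * Real.log T ^ (k ^ 2) ≤ S.Lam := by
    have := hG.lam_ge
    rwa [hSk, show S.L = Real.log T by unfold Sys.L; rw [hST]] at this
  have hLc : c ≤ S.Lam := by
    refine le_trans ?_ hLam
    have : 1 ≤ Real.log T ^ (k ^ 2) := Real.one_le_rpow (by linarith) (by positivity)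
    nlinarith
  have hLamp : 0 < S.Lam := lt_of_lt_of_le hc hLc
  set D : ℝ := T * S.Lam with hD
  have hDp : 0 < D := by positivity
  have cy := continuous_yf hG
  have cJ := continuous_Jf hG
  have ck := continuous_kf hG
  have cM := continuous_M2 hhp (by linarith : S.h ≤ 1 / 10)
  have y0 := yf_nonneg S
  have J0 := Jf_nonneg hG
  have k0 := kf_nonneg S
  have hTT : T ≤ 2 * T := by linarith
  -- the sets
  set I0 : Set ℝ := Set.Icc T (2 * T) with hI0
  set E1 : Set ℝ := I0 ∩ noz S.h with hE1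
  set E2 : Set ℝ := (I0 ∩ S.bad) ∪ Set.Icc T (T + 3 * S.h) with hE2
  set E3 : Set ℝ := (I0 \ noz S.h) \ E2 with hE3
  have mI0 : MeasurableSet I0 := measurableSet_Icc
  have mn : MeasurableSet (noz S.h) := measurableSet_noz S.h
  have mb : MeasurableSet S.bad := measurableSet_bad S
  have mE1 : MeasurableSet E1 := mI0.inter mn
  have mE2 : MeasurableSet E2 := (mI0.inter mb).union measurableSet_Icc
  have mE3 : MeasurableSet E3 := (mI0.diff mn).diff mE2
  have sE1 : E1 ⊆ Set.Icc T (2 * T) := Set.inter_subset_left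
  have h3h : T + 3 * S.h ≤ 2 * T := by linarith
  have sE2 : E2 ⊆ Set.Icc T (2 * T) :=
    Set.union_subset Set.inter_subset_left (Set.Icc_subset_Icc le_rfl h3h)
  have sE3 : E3 ⊆ Set.Icc T (2 * T) := Set.sdiff_subset.trans Set.sdiff_subset
  have cyJ : Continuous fun t => S.yf t * S.Jf t := cy.mul cJ
  have yJ0 : ∀ t, 0 ≤ S.yf t * S.Jf t := fun t => mul_nonneg (y0 t) (J0 t)
  -- splitting the integral
  have hsplit : ∫ t in T..(2 * T), S.yf t * S.Jf t ≤
      (∫ t in E1, S.yf t * S.Jf t) + (∫ t in E2, S.yf t * S.Jf t) + ∫ t in E3, S.yf t * S.Jf t := by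
    rw [intervalIntegral.integral_of_le hTT, ← integral_Icc_eq_integral_Ioc]
    have i1 := integrableOn_cont sE1 cyJ
    have i2 := integrableOn_cont sE2 cyJ
    have i3 := integrableOn_cont sE3 cyJ
    have hsub : I0 ⊆ (E1 ∪ E2) ∪ E3 := by
      intro t ht
      by_cases h1 : t ∈ noz S.h
      · exact Or.inl (Or.inl ⟨ht, h1⟩)
      · by_cases h2 : t ∈ E2
        · exact Or.inl (Or.inr h2)
        · exact Or.inr ⟨⟨ht, h1⟩, h2⟩
    have hu : ∀ {A B : Set ℝ}, MeasurableSet A → MeasurableSet B →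
        IntegrableOn (fun t => S.yf t * S.Jf t) A → IntegrableOn (fun t => S.yf t * S.Jf t) B →
        ∫ t in A ∪ B, S.yf t * S.Jf t ≤ (∫ t in A, S.yf t * S.Jf t) + ∫ t in B, S.yf t * S.Jf t := by
      intro A B mA mB iA iB
      rw [← Set.union_sdiff_self, setIntegral_union Set.disjoint_sdiff_right (mB.diff mA) iA
        (iB.mono_set Set.sdiff_subset)]
      have := setIntegral_mono_set iB (Filter.Eventually.of_forall yJ0)
        (Set.sdiff_subset (s := B) (t := A)).eventuallyLE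
      linarith
    have j12 : IntegrableOn (fun t => S.yf t * S.Jf t) (E1 ∪ E2) := i1.union i2
    calc ∫ t in I0, S.yf t * S.Jf t ≤ ∫ t in (E1 ∪ E2) ∪ E3, S.yf t * S.Jf t :=
          setIntegral_mono_set (j12.union i3) (Filter.Eventually.of_forall yJ0) hsub.eventuallyLE
      _ ≤ (∫ t in E1 ∪ E2, S.yf t * S.Jf t) + ∫ t in E3, S.yf t * S.Jf t :=
          hu (mE1.union mE2) mE3 j12 i3
      _ ≤ _ := by have := hu mE1 mE2 i1 i2; linarith
  -- second moments over subsets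
  have sq_mono : ∀ {f : ℝ → ℝ} {E : Set ℝ}, Continuous f → E ⊆ Set.Icc T (2 * T) →
      ∫ t in E, f t ^ 2 ≤ ∫ t in T..(2 * T), f t ^ 2 := by
    intro f E cf hE
    rw [intervalIntegral.integral_of_le hTT, ← integral_Icc_eq_integral_Ioc]
    exact setIntegral_mono_set (integrableOn_cont (Set.Subset.refl _) (cf.pow 2))
      (Filter.Eventually.of_forall fun t => sq_nonneg _) hE.eventuallyLE
  -- the first set
  have b1 : ∫ t in E1, S.yf t * S.Jf t ≤ c1 / 4 * S.h * D := by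
    have hcs := cs_set mE1 sE1 cy cJ y0 J0
    have u1 : ∫ t in E1, S.yf t ^ 2 ≤ C2 * D := by
      refine (sq_mono cy sE1).trans (e2.trans (le_of_eq ?_)); rw [hD]; ring
    have u2 : ∫ t in E1, S.Jf t ^ 2 ≤ C3 * (θ * S.h) ^ 2 * D := by
      refine e3.trans (le_of_eq ?_); rw [hD]; ring
    have n1 : 0 ≤ ∫ t in E1, S.yf t ^ 2 := integral_nonneg fun t => sq_nonneg _
    have n2 : 0 ≤ ∫ t in E1, S.Jf t ^ 2 := integral_nonneg fun t => sq_nonneg _
    have v1 := Real.rpow_le_rpow n1 u1 (by norm_num : (0 : ℝ) ≤ 1 / 2)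
    have v2 := Real.rpow_le_rpow n2 u2 (by norm_num : (0 : ℝ) ≤ 1 / 2)
    have hprod : (C2 * D) ^ (1 / 2 : ℝ) * (C3 * (θ * S.h) ^ 2 * D) ^ (1 / 2 : ℝ) =
        Real.sqrt (C2 * C3) * (θ * S.h) * D := by
      rw [← Real.mul_rpow (by positivity) (by positivity), ← Real.sqrt_eq_rpow]
      rw [show C2 * D * (C3 * (θ * S.h) ^ 2 * D) = (C2 * C3) * ((θ * S.h) * D) ^ 2 by ring,
        Real.sqrt_mul (by positivity), Real.sqrt_sq (by positivity)]
      ring
    have hθq : Real.sqrt (C2 * C3) * θ ≤ c1 / 4 := by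
      have h1 : θ * (4 * q1) ≤ c1 := by rwa [le_div_iff₀ (by positivity)] at hθ3
      have h2 : Real.sqrt (C2 * C3) ≤ q1 := by rw [hq1]; linarith
      have h3 := mul_le_mul_of_nonneg_left h2 hθ.le
      nlinarith
    calc ∫ t in E1, S.yf t * S.Jf t ≤ _ := hcs
      _ ≤ (C2 * D) ^ (1 / 2 : ℝ) * (C3 * (θ * S.h) ^ 2 * D) ^ (1 / 2 : ℝ) :=
          mul_le_mul v1 v2 (by positivity) (by positivity)
      _ = Real.sqrt (C2 * C3) * θ * (S.h * D) := by rw [hprod]; ring
      _ ≤ c1 / 4 * (S.h * D) := mul_le_mul_of_nonneg_right hθq (by positivity)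
      _ = _ := by ring
  -- the second set
  have b2 : ∫ t in E2, S.yf t * S.Jf t ≤ c1 / 4 * S.h * D := by
    have hcs := cs_set mE2 sE2 cy cJ y0 J0
    have w1 : ∫ t in Set.Icc T (T + 3 * S.h), S.yf t ^ 2 ≤ θ ^ 2 * D := by
      have hb : ∀ t ∈ Set.Icc T (T + 3 * S.h), S.yf t ^ 2 ≤ T ^ (1 / 50 : ℝ) := by
        intro t _
        have := yf_le hG t
        rw [hST] at this
        calc S.yf t ^ 2 ≤ (T ^ (1 / 100 : ℝ)) ^ 2 := pow_le_pow_left₀ (y0 t) this 2
          _ = T ^ (1 / 50 : ℝ) := by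
              rw [← Real.rpow_natCast, ← Real.rpow_mul hTpos.le]; norm_num
      have h1 : ∫ t in Set.Icc T (T + 3 * S.h), S.yf t ^ 2 ≤
          ∫ t in Set.Icc T (T + 3 * S.h), T ^ (1 / 50 : ℝ) :=
        setIntegral_mono_on (integrableOn_cont (Set.Subset.refl _) (cy.pow 2))
          (integrableOn_const (by rw [Real.volume_Icc]; exact ENNReal.ofReal_ne_top)) measurableSet_Icc hb
      have h2 : ∫ t in Set.Icc T (T + 3 * S.h), T ^ (1 / 50 : ℝ) = 3 * S.h * T ^ (1 / 50 : ℝ) := by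
        rw [setIntegral_const]
        simp only [smul_eq_mul]
        congr 1
        rw [Measure.real, Real.volume_Icc, ENNReal.toReal_ofReal (by linarith)]
        ring
      have h3 := H8 T hT8
      rw [div_lt_iff₀ hTpos] at h3
      have h4 : 3 * S.h * T ^ (1 / 50 : ℝ) ≤ 1 * T ^ (1 / 50 : ℝ) :=
        mul_le_mul_of_nonneg_right (by linarith) (by positivity)
      have h5 : θ ^ 2 * c * T ≤ θ ^ 2 * D := by
        rw [hD]
        have : c * T ≤ S.Lam * T := mul_le_mul_of_nonneg_right hLc hTpos.le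
        nlinarith [sq_nonneg θ]
      linarith
    have u1 : ∫ t in E2, S.yf t ^ 2 ≤ (C2' + 1) * θ ^ 2 * D := by
      have i1 : IntegrableOn (fun t => S.yf t ^ 2) (I0 ∩ S.bad) :=
        integrableOn_cont Set.inter_subset_left (cy.pow 2)
      have i2 : IntegrableOn (fun t => S.yf t ^ 2) (Set.Icc T (T + 3 * S.h)) :=
        integrableOn_cont (Set.Subset.refl _) (cy.pow 2)
      have : ∫ t in E2, S.yf t ^ 2 ≤
          (∫ t in I0 ∩ S.bad, S.yf t ^ 2) + ∫ t in Set.Icc T (T + 3 * S.h), S.yf t ^ 2 := by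
        rw [hE2, ← Set.union_sdiff_self, setIntegral_union Set.disjoint_sdiff_right
          (measurableSet_Icc.diff (mI0.inter mb)) i1 (i2.mono_set Set.sdiff_subset)]
        have := setIntegral_mono_set i2 (Filter.Eventually.of_forall fun t => sq_nonneg (S.yf t))
          (Set.sdiff_subset (s := Set.Icc T (T + 3 * S.h)) (t := I0 ∩ S.bad)).eventuallyLE
        linarith
      have e2b' : ∫ t in I0 ∩ S.bad, S.yf t ^ 2 ≤ C2' * θ ^ 2 * D := by
        refine e2b.trans (le_of_eq ?_); rw [hD]; ring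
      linarith
    have u2 : ∫ t in E2, S.Jf t ^ 2 ≤ C3' / θ * S.h ^ 2 * D := by
      refine (sq_mono cJ sE2).trans (e3b.trans (le_of_eq ?_)); rw [hD]; ring
    have n1 : 0 ≤ ∫ t in E2, S.yf t ^ 2 := integral_nonneg fun t => sq_nonneg _
    have n2 : 0 ≤ ∫ t in E2, S.Jf t ^ 2 := integral_nonneg fun t => sq_nonneg _
    have v1 := Real.rpow_le_rpow n1 u1 (by norm_num : (0 : ℝ) ≤ 1 / 2)
    have v2 := Real.rpow_le_rpow n2 u2 (by norm_num : (0 : ℝ) ≤ 1 / 2)
    have hprod : ((C2' + 1) * θ ^ 2 * D) ^ (1 / 2 : ℝ) * (C3' / θ * S.h ^ 2 * D) ^ (1 / 2 : ℝ) =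
        Real.sqrt ((C2' + 1) * C3' * θ) * (S.h * D) := by
      rw [← Real.mul_rpow (by positivity) (by positivity), ← Real.sqrt_eq_rpow]
      rw [show (C2' + 1) * θ ^ 2 * D * (C3' / θ * S.h ^ 2 * D) =
        ((C2' + 1) * C3' * θ) * (S.h * D) ^ 2 by field_simp,
        Real.sqrt_mul (by positivity), Real.sqrt_sq (by positivity)]
    have hθq : Real.sqrt ((C2' + 1) * C3' * θ) ≤ c1 / 4 := by
      rw [Real.sqrt_le_left (by positivity)]
      have h1 : θ * (16 * q2) ≤ c1 ^ 2 := by rwa [le_div_iff₀ (by positivity)] at hθ4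
      have h2 : (C2' + 1) * C3' ≤ q2 := by rw [hq2]; linarith
      have h3 := mul_le_mul_of_nonneg_left h2 hθ.le
      nlinarith
    calc ∫ t in E2, S.yf t * S.Jf t ≤ _ := hcs
      _ ≤ ((C2' + 1) * θ ^ 2 * D) ^ (1 / 2 : ℝ) * (C3' / θ * S.h ^ 2 * D) ^ (1 / 2 : ℝ) :=
          mul_le_mul v1 v2 (by positivity) (by positivity)
      _ = Real.sqrt ((C2' + 1) * C3' * θ) * (S.h * D) := hprod
      _ ≤ c1 / 4 * (S.h * D) := mul_le_mul_of_nonneg_right hθq (by positivity)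
      _ = _ := by ring
  -- the main set
  have b3 : c1 / 2 * S.h * D ≤ ∫ t in E3, S.yf t * S.Jf t := by
    have : c1 * S.h * T * S.Lam = c1 * S.h * D := by rw [hD]; ring
    rw [this] at e1
    linarith
  have hgood : ∀ t ∈ E3, S.yf t * S.Jf t ≤ C5 * (S.kf t ^ (k / (2 * k + 2)) * S.Jf t) := by
    intro t ht
    have hb : t ∉ S.bad := fun h => ht.2 (Or.inl ⟨ht.1.1, h⟩)
    have := H5 S C c t hSk hG hb
    calc S.yf t * S.Jf t ≤ C5 * S.kf t ^ (k / (2 * k + 2)) * S.Jf t :=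
          mul_le_mul_of_nonneg_right this (J0 t)
      _ = _ := by ring
  have ckJ : Continuous fun t => S.kf t ^ (k / (2 * k + 2)) * S.Jf t :=
    (ck.rpow_const fun t => Or.inr (by positivity)).mul cJ
  have b4 : ∫ t in E3, S.yf t * S.Jf t ≤ C5 * ∫ t in E3, S.kf t ^ (k / (2 * k + 2)) * S.Jf t := by
    rw [← integral_const_mul]
    exact setIntegral_mono_on (integrableOn_cont sE3 cyJ)
      ((integrableOn_cont sE3 ckJ).const_mul C5) mE3 hgood
  obtain ⟨δ, hδ0, hδ1⟩ := hδ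
  have hH := hoelder3 hk mE3 sE3 cM ck cJ k0 J0
    ⟨δ, hδ0, fun t ht => hδ1 t ht.1⟩
  set Iv : ℝ := ∫ t in I0 \ noz S.h, M2 S.h t ^ (-k) with hIv
  have hM0 : ∀ t, 0 ≤ M2 S.h t := by
    intro t
    unfold M2
    refine mul_nonneg (by positivity) ?_
    refine intervalIntegral.integral_nonneg (by linarith) fun a _ => ?_
    exact intervalIntegral.integral_nonneg (by linarith) fun b _ => sq_nonneg _
  have hint : IntegrableOn (fun t => M2 S.h t ^ (-k)) (I0 \ noz S.h) := by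
    have hfin : IsFiniteMeasure (volume.restrict (I0 \ noz S.h)) := by
      refine ⟨?_⟩
      rw [Measure.restrict_apply_univ]
      exact (measure_mono Set.sdiff_subset).trans_lt measure_Icc_lt_top
    refine Integrable.of_bound (C := δ ^ (-k)) ?_ ?_
    · exact (cM.measurable.pow_const (-k)).aestronglyMeasurable
    · refine ae_restrict_of_forall_mem (mI0.diff mn) fun t ht => ?_
      rw [Real.norm_of_nonneg (Real.rpow_nonneg (hM0 t) _)]
      exact Real.rpow_le_rpow_of_nonpos hδ0 (hδ1 t ht) (by linarith)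
  have hIvle : ∫ t in E3, M2 S.h t ^ (-k) ≤ Iv :=
    setIntegral_mono_set hint (Filter.Eventually.of_forall fun t => Real.rpow_nonneg (hM0 t) _)
      Set.sdiff_subset.eventuallyLE
  have hIv0 : 0 ≤ Iv := integral_nonneg fun t => Real.rpow_nonneg (hM0 t) _
  have g1 : 0 ≤ ∫ t in E3, M2 S.h t ^ (-k) := integral_nonneg fun t => Real.rpow_nonneg (hM0 t) _
  have g2 : 0 ≤ ∫ t in E3, M2 S.h t * S.kf t :=
    integral_nonneg fun t => mul_nonneg (hM0 t) (k0 t)
  have g3 : 0 ≤ ∫ t in E3, S.Jf t ^ 2 := integral_nonneg fun t => sq_nonneg _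
  have u2 : ∫ t in E3, M2 S.h t * S.kf t ≤ C4 * D := by
    rw [intervalIntegral.integral_of_le h3h, ← integral_Icc_eq_integral_Ioc] at e4
    have : C4 * T * S.Lam = C4 * D := by rw [hD]; ring
    rw [this] at e4
    refine le_trans ?_ e4
    refine setIntegral_mono_set (integrableOn_cont (Set.Subset.refl _) (cM.mul ck))
      (Filter.Eventually.of_forall fun t => mul_nonneg (hM0 t) (k0 t)) ?_
    refine LE.le.eventuallyLE fun t ht => ?_
    have h1 : t ∉ Set.Icc T (T + 3 * S.h) := fun h => ht.2 (Or.inr h)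
    have h2 := ht.1.1
    refine ⟨?_, h2.2⟩
    by_contra h3
    exact h1 ⟨h2.1, (not_le.mp h3).le⟩
  have u3 : ∫ t in E3, S.Jf t ^ 2 ≤ C3' / θ * (S.h ^ 2 * D) := by
    refine (sq_mono cJ sE3).trans (e3b.trans (le_of_eq ?_)); rw [hD]; ring
  have hmain : c1 / 2 * S.h * D ≤ KK0 * (Iv ^ (1 / (2 * k + 2)) * (C4 * D) ^ (k / (2 * k + 2)) *
      (S.h ^ 2 * D) ^ (1 / 2 : ℝ)) := by
    have e0 : 0 < 2 * k + 2 := by linarith
    have v1 := Real.rpow_le_rpow g1 hIvle (by positivity : (0 : ℝ) ≤ 1 / (2 * k + 2))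
    have v2 := Real.rpow_le_rpow g2 u2 (by positivity : (0 : ℝ) ≤ k / (2 * k + 2))
    have v3 := Real.rpow_le_rpow g3 u3 (by norm_num : (0 : ℝ) ≤ 1 / 2)
    rw [Real.mul_rpow (by positivity) (by positivity)] at v3
    calc c1 / 2 * S.h * D ≤ ∫ t in E3, S.yf t * S.Jf t := b3
      _ ≤ C5 * ∫ t in E3, S.kf t ^ (k / (2 * k + 2)) * S.Jf t := b4
      _ ≤ C5 * ((∫ t in E3, M2 S.h t ^ (-k)) ^ (1 / (2 * k + 2)) *
          (∫ t in E3, M2 S.h t * S.kf t) ^ (k / (2 * k + 2)) *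
          (∫ t in E3, S.Jf t ^ 2) ^ (1 / 2 : ℝ)) := mul_le_mul_of_nonneg_left hH hC5.le
      _ ≤ C5 * (Iv ^ (1 / (2 * k + 2)) * (C4 * D) ^ (k / (2 * k + 2)) *
          ((C3' / θ) ^ (1 / 2 : ℝ) * (S.h ^ 2 * D) ^ (1 / 2 : ℝ))) := by gcongr
      _ = _ := by rw [hKK0]; ring
  have hfin := solve_ineq hk (by positivity : 0 < c1 / 2) hKK0p hC4 hDp hhp hIv0 hmain
  have : cc * c * T * Real.log T ^ (k ^ 2) ≤ cc * D := by
    rw [hD]
    calc cc * c * T * Real.log T ^ (k ^ 2) = cc * (T * (c * Real.log T ^ (k ^ 2))) := by ring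
      _ ≤ cc * (T * S.Lam) := by gcongr
  exact this.trans hfin

end Pool.Agent.GH
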